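import Mathlib

/-!
# Nonrepetitive colourings and contraction of a matching

If `G` has a nonrepetitive colouring with `k` colours and `M` is a matching of `G`, then `G / M`
has a nonrepetitive colouring whose number of colours depends only on `k`.

The vertices of `G / M` are given two labelled lifts `e x false`, `e x true` to `G`.  We find a
colouring of `G / M` such that the colours of two adjacent vertices determine a pair of labels
whose lifts are adjacent in `G`.  A repetitively coloured path of `G / M` then lifts to a
repetitively coloured path of `G`.
-/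

set_option autoImplicit false

namespace Pool.Agent.H363R3.NonrepContract

/-- A list formulation of nonrepetitive colourings. -/
def NR {V C : Type} (G : SimpleGraph V) (c : V → C) : Prop :=
  ∀ l₁ l₂ : List V, l₁ ≠ [] → (l₁ ++ l₂).Nodup → List.IsChain G.Adj (l₁ ++ l₂) →
    l₁.map c ≠ l₂.map c

theorem nr_of_walk {V C : Type} (G : SimpleGraph V) (c : V → C)
    (h : ∀ (u v : V) (p : G.Walk u v), p.IsPath → Even p.support.length →
      (p.support.map c).take (p.support.length / 2) ≠
        (p.support.map c).drop (p.support.length / 2)) : NR G c := by
  intro l₁ l₂ hne hnd hch heq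
  have hl : l₁.length = l₂.length := by
    have := congrArg List.length heq
    simpa using this
  have hne' : l₁ ++ l₂ ≠ [] := by simp [hne]
  have hs := SimpleGraph.Walk.support_ofSupport hne' hch
  have hlen : (l₁ ++ l₂).length / 2 = l₁.length := by
    rw [List.length_append, ← hl]; omega
  refine h _ _ (SimpleGraph.Walk.ofSupport (l₁ ++ l₂) hne' hch) ?_ ?_ ?_
  · rw [SimpleGraph.Walk.isPath_def, hs]
    exact hnd
  · rw [hs, List.length_append, ← hl]
    exact ⟨_, rfl⟩
  · rw [hs, hlen, List.map_append]
    have h1 : (l₁.map c).length = l₁.length := by simp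
    rw [← h1, List.take_left, List.drop_left]
    exact heq

theorem walk_of_nr {V C : Type} (G : SimpleGraph V) (c : V → C) (h : NR G c)
    (u v : V) (p : G.Walk u v) (hp : p.IsPath) (he : Even p.support.length) :
      (p.support.map c).take (p.support.length / 2) ≠
        (p.support.map c).drop (p.support.length / 2) := by
  intro heq
  rw [← List.map_take, ← List.map_drop] at heq
  refine h _ _ ?_ ?_ ?_ heq
  · intro h0
    have h1 := congrArg List.length h0
    rw [List.length_take, List.length_nil] at h1
    obtain ⟨m, hm⟩ := he
    have h2 : p.support.length = p.length + 1 := p.length_support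
    omega
  · rw [List.take_append_drop]
    exact hp.support_nodup
  · rw [List.take_append_drop]
    exact p.isChain_adj_support

section Lift

variable {V W C : Type} (G : SimpleGraph V) (e : W → Bool → V)

open Classical in
/-- The block over `a.1` which enters at label `a.2.1` and leaves at label `a.2.2`. -/
noncomputable def block (a : W × Bool × Bool) : List V :=
  if e a.1 a.2.1 = e a.1 a.2.2 then [e a.1 a.2.1] else [e a.1 a.2.1, e a.1 a.2.2]

theorem mem_block (a : W × Bool × Bool) (v : V) (h : v ∈ block e a) : ∃ b, v = e a.1 b := by
  unfold block at h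
  split_ifs at h
  · exact ⟨_, by simpa using h⟩
  · rcases List.mem_cons.1 h with h | h
    · exact ⟨_, h⟩
    · exact ⟨_, by simpa using h⟩

theorem block_ne_nil (a : W × Bool × Bool) : block e a ≠ [] := by
  unfold block
  split_ifs <;> simp

theorem block_nodup (a : W × Bool × Bool) : (block e a).Nodup := by
  unfold block
  split_ifs with h
  · simp
  · simpa using h

theorem block_chain (he : ∀ x, e x false = e x true ∨ G.Adj (e x false) (e x true))
    (a : W × Bool × Bool) : List.IsChain G.Adj (block e a) := by
  unfold block
  split_ifs with h
  · simp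
  · simp only [List.isChain_cons_cons, List.isChain_singleton, and_true]
    rcases he a.1 with h1 | h1
    · exfalso
      apply h
      cases a.2.1 <;> cases a.2.2 <;> simp [h1]
    · revert h
      cases a.2.1 <;> cases a.2.2 <;> simp [h1, h1.symm]

theorem block_head (a : W × Bool × Bool) : (block e a).head? = some (e a.1 a.2.1) := by
  unfold block
  split_ifs <;> simp

theorem block_last (a : W × Bool × Bool) : (block e a).getLast? = some (e a.1 a.2.2) := by
  unfold block
  split_ifs with h
  · simp [h]
  · simp

theorem flat_head : ∀ (a : W × Bool × Bool) (l : List (W × Bool × Bool)),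
    ((a :: l).flatMap (block e)).head? = some (e a.1 a.2.1) := by
  intro a l
  rw [List.flatMap_cons, List.head?_append, block_head]
  rfl

theorem flat_chain (he : ∀ x, e x false = e x true ∨ G.Adj (e x false) (e x true)) :
    ∀ l : List (W × Bool × Bool),
      List.IsChain (fun a b : W × Bool × Bool => G.Adj (e a.1 a.2.2) (e b.1 b.2.1)) l →
      List.IsChain G.Adj (l.flatMap (block e)) := by
  intro l
  induction l with
  | nil => simp
  | cons a l ih =>
    intro h
    cases l with
    | nil => simpa using block_chain G e he a
    | cons b l =>
      rw [List.isChain_cons_cons] at h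
      rw [List.flatMap_cons, List.isChain_append]
      refine ⟨block_chain G e he a, ih h.2, ?_⟩
      intro x hx y hy
      rw [block_last] at hx
      rw [flat_head] at hy
      simp only [Option.mem_def, Option.some.injEq] at hx hy
      rw [← hx, ← hy]
      exact h.1

theorem flat_nodup (hinj : ∀ x y b b', e x b = e y b' → x = y) :
    ∀ l : List (W × Bool × Bool), (l.map Prod.fst).Nodup → (l.flatMap (block e)).Nodup := by
  intro l
  induction l with
  | nil => simp
  | cons a l ih =>
    intro h
    rw [List.map_cons, List.nodup_cons] at h
    rw [List.flatMap_cons, List.nodup_append]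
    refine ⟨block_nodup e a, ih h.2, ?_⟩
    intro v hv w hw hvw
    subst hvw
    rw [List.mem_flatMap] at hw
    obtain ⟨b, hb, hvb⟩ := hw
    obtain ⟨i, hi⟩ := mem_block e a v hv
    obtain ⟨j, hj⟩ := mem_block e b v hvb
    apply h.1
    rw [hinj a.1 b.1 i j (by rw [← hi, ← hj])]
    exact List.mem_map_of_mem hb

/-- Adjacent vertices get different colours. -/
theorem nr_proper (c : V → C) (hc : NR G c) (u v : V) (h : G.Adj u v) : c u ≠ c v := by
  intro h1
  refine hc [u] [v] (by simp) ?_ ?_ (by simp [h1])
  · simpa using h.ne
  · simpa using h

/-- The class of a vertex of `G / M`. -/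
def cl (c : V → C) (x : W) : C × C := (c (e x false), c (e x true))

theorem cl_eq (c : V → C) {x y : W} (h : cl e c x = cl e c y) (b : Bool) :
    c (e x b) = c (e y b) := by
  unfold cl at h
  have := Prod.ext_iff.1 h
  cases b
  · exact this.1
  · exact this.2

theorem block_colour (c : V → C) (hc : NR G c)
    (he : ∀ x, e x false = e x true ∨ G.Adj (e x false) (e x true))
    (a b : W × Bool × Bool) (h1 : cl e c a.1 = cl e c b.1) (h2 : a.2 = b.2) :
    (block e a).map c = (block e b).map c := by
  have key : ∀ (x : W) (p q : Bool), e x p = e x q ↔ c (e x p) = c (e x q) := by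
    intro x p q
    constructor
    · intro h; rw [h]
    · intro h
      rcases he x with h3 | h3
      · cases p <;> cases q <;> simp [h3]
      · have := nr_proper G c hc _ _ h3
        revert h
        cases p <;> cases q <;> simp [this, this.symm]
  obtain ⟨x, p, q⟩ := a
  obtain ⟨y, p', q'⟩ := b
  simp only at h1 h2
  have h3 : p = p' := congrArg Prod.fst h2
  have h4 : q = q' := congrArg Prod.snd h2
  subst h3 h4
  have e1 := cl_eq e c h1 p
  have e2 := cl_eq e c h1 q
  unfold block
  simp only
  by_cases h : e x p = e x q
  · have h' : e y p = e y q := by rw [key, ← e1, ← e2, ← key]; exact h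
    rw [if_pos h, if_pos h']
    simp [e1]
  · have h' : ¬ e y p = e y q := by rw [key, ← e1, ← e2, ← key]; exact h
    rw [if_neg h, if_neg h']
    simp [e1, e2]

theorem flat_colour (c : V → C) (hc : NR G c)
    (he : ∀ x, e x false = e x true ∨ G.Adj (e x false) (e x true)) :
    ∀ A B : List (W × Bool × Bool),
      A.map (fun a => (cl e c a.1, a.2)) = B.map (fun a => (cl e c a.1, a.2)) →
      (A.flatMap (block e)).map c = (B.flatMap (block e)).map c := by
  intro A
  induction A with
  | nil =>
    intro B h
    cases B with
    | nil => rfl
    | cons b B => simp at h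
  | cons a A ih =>
    intro B h
    cases B with
    | nil => simp at h
    | cons b B =>
      rw [List.map_cons, List.map_cons, List.cons_eq_cons] at h
      rw [List.flatMap_cons, List.flatMap_cons, List.map_append, List.map_append, ih B h.2,
        block_colour G e c hc he a b (Prod.ext_iff.1 h.1).1 (Prod.ext_iff.1 h.1).2]

/-- The main lifting lemma. -/
theorem no_lift (c : V → C) (hc : NR G c)
    (he : ∀ x, e x false = e x true ∨ G.Adj (e x false) (e x true))
    (hinj : ∀ x y b b', e x b = e y b' → x = y)
    (A B : List (W × Bool × Bool)) (hA : A ≠ []) (hnd : ((A ++ B).map Prod.fst).Nodup)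
    (hch : List.IsChain (fun a b : W × Bool × Bool => G.Adj (e a.1 a.2.2) (e b.1 b.2.1)) (A ++ B))
    (heq : A.map (fun a => (cl e c a.1, a.2)) = B.map (fun a => (cl e c a.1, a.2))) : False := by
  refine hc (A.flatMap (block e)) (B.flatMap (block e)) ?_ ?_ ?_ (flat_colour G e c hc he A B heq)
  · cases A with
    | nil => exact absurd rfl hA
    | cons a A =>
      rw [List.flatMap_cons]
      intro h
      exact block_ne_nil e a (List.append_eq_nil_iff.1 h).1
  · rw [← List.flatMap_append]
    exact flat_nodup e hinj _ hnd
  · rw [← List.flatMap_append]
    exact flat_chain G e he _ hch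

end Lift

end Pool.Agent.H363R3.NonrepContract
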