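import Pool.Agent.H363R3.NonrepContract

set_option autoImplicit false

namespace Pool.Agent.H363R3.NonrepContract

section Types

variable {V W C : Type} (G : SimpleGraph V) (G' : SimpleGraph W) (e : W → Bool → V)

/-- One can choose symmetric types for the edges of `G / M`. -/
theorem exists_types [Finite W]
    (hadj : ∀ x y, G'.Adj x y → ∃ p q, G.Adj (e x p) (e y q)) :
    ∃ t : W → W → Bool × Bool,
      (∀ x y, G'.Adj x y → G.Adj (e x (t x y).1) (e y (t x y).2)) ∧
      (∀ x y, G'.Adj x y → t y x = (t x y).swap) := by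
  classical
  obtain ⟨n, ⟨ι⟩⟩ := Finite.exists_equiv_fin W
  choose! f g hfg using hadj
  refine ⟨fun x y => if ι x < ι y then (f x y, g x y) else (g y x, f y x), ?_, ?_⟩
  · intro x y h
    by_cases hlt : ι x < ι y
    · simp only [hlt, if_true]
      exact hfg x y h
    · simp only [hlt, if_false]
      exact (hfg y x h.symm).symm
  · intro x y h
    have hne : ι x ≠ ι y := fun h' => h.ne (ι.injective h')
    rcases lt_or_gt_of_ne hne with hlt | hlt
    · have h2 : ¬ ι y < ι x := not_lt.2 hlt.le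
      simp only [hlt, h2, if_true, if_false, Prod.swap]
    · have h2 : ¬ ι x < ι y := not_lt.2 hlt.le
      simp only [hlt, h2, if_true, if_false, Prod.swap]

variable (c : V → C) (t : W → W → Bool × Bool)

/-- `x` is the only neighbour of `y` in its class reached by an edge of its type. -/
def Out (y x : W) : Prop :=
  G'.Adj y x ∧ ∀ x', G'.Adj y x' → cl e c x' = cl e c x → t y x' = t y x → x' = x

variable (hc : NR G c) (he : ∀ x, e x false = e x true ∨ G.Adj (e x false) (e x true))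
  (hinj : ∀ x y b b', e x b = e y b' → x = y)
  (ht : ∀ x y, G'.Adj x y → G.Adj (e x (t x y).1) (e y (t x y).2))
  (hsw : ∀ x y, G'.Adj x y → t y x = (t x y).swap)

include hc he hinj

/-- Adjacent vertices of `G / M` lie in different classes. -/
theorem cl_ne (x y : W) (p q : Bool) (hxy : x ≠ y) (h : G.Adj (e x p) (e y q)) :
    cl e c x ≠ cl e c y := by
  intro h1
  refine no_lift G e c hc he hinj [(x, q, p)] [(y, q, p)] (by simp) ?_ ?_ ?_
  · simpa using hxy
  · simpa using h
  · simp [h1]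

/-- No repetitively typed and coloured path on four vertices of `G / M`. -/
theorem no_four (z₀ y₀ z₁ y₁ : W) (s₁ t₁ s₂ t₂ : Bool)
    (hz : z₀ ≠ z₁) (hy : y₀ ≠ y₁) (hcz : cl e c z₀ = cl e c z₁) (hcy : cl e c y₀ = cl e c y₁)
    (hzy : cl e c z₀ ≠ cl e c y₀)
    (h1 : G.Adj (e z₀ t₁) (e y₀ s₁)) (h2 : G.Adj (e y₀ s₂) (e z₁ t₂))
    (h3 : G.Adj (e z₁ t₁) (e y₁ s₁)) : False := by
  refine no_lift G e c hc he hinj [(z₀, t₂, t₁), (y₀, s₁, s₂)] [(z₁, t₂, t₁), (y₁, s₁, s₂)]
    (by simp) ?_ ?_ ?_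
  · have a1 : z₀ ≠ y₀ := fun h => hzy (by rw [h])
    have a2 : z₀ ≠ y₁ := fun h => hzy (by rw [h, hcy])
    have a3 : z₁ ≠ y₀ := fun h => hzy (by rw [hcz, h])
    have a4 : z₁ ≠ y₁ := fun h => hzy (by rw [hcz, h, hcy])
    simp [hz, hy, a1, a2, a3.symm, a4]
  · simp [h1, h2, h3]
  · simp [hcz, hcy]

include ht

theorem cl_ne_adj (x y : W) (h : G'.Adj x y) : cl e c x ≠ cl e c y :=
  cl_ne G e c hc he hinj x y _ _ h.ne (ht x y h)

include hsw

/-- Every edge of `G / M` can be oriented. -/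
theorem out_or (x y : W) (h : G'.Adj x y) : Out G' e c t x y ∨ Out G' e c t y x := by
  by_contra hcon
  unfold Out at hcon
  push Not at hcon
  obtain ⟨ha, hb⟩ := hcon
  obtain ⟨y', hy1, hy2, hy3, hy4⟩ := ha h
  obtain ⟨x', hx1, hx2, hx3, hx4⟩ := hb h.symm
  -- path x' - y - x - y'
  have e1 := ht _ _ hx1.symm
  have e2 := ht _ _ h.symm
  have e3 := ht _ _ hy1
  have f1 : t x' y = t x y := by
    rw [hsw _ _ hx1, hx3, ← hsw _ _ h.symm]
  have f2 : t y x = (t x y).swap := hsw _ _ h
  rw [f1] at e1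
  rw [hy3] at e3
  rw [f2] at e2
  refine no_four G e c hc he hinj x' y x y' (t x y).2 (t x y).1 (t x y).2 (t x y).1 hx4 hy4.symm hx2
    hy2.symm ?_ e1 e2 e3
  rw [hx2]
  exact cl_ne_adj G G' e c t hc he hinj ht x y h

/-- The index set of the indicator bits. -/
abbrev Idx (C : Type) : Type := (C × C) × (Bool × Bool) × (Bool × Bool)

omit hc he hinj ht hsw in
/-- The first kind of indicator. -/
def bitB (j : Idx C) (z : W) : Prop :=
  ∃ y z₁, cl e c y = j.1 ∧ Out G' e c t y z₁ ∧ Out G' e c t y z ∧ cl e c z₁ = cl e c z ∧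
    t y z₁ = j.2.1 ∧ t y z = j.2.2 ∧ z₁ ≠ z

omit hc he hinj ht hsw in
/-- The second kind of indicator. -/
def bitC (j : Idx C) (z : W) : Prop :=
  ∃ y x, cl e c x = j.1 ∧ cl e c y = cl e c z ∧ y ≠ z ∧ Out G' e c t y x ∧ Out G' e c t x z ∧
    t y x = j.2.1 ∧ t x z = j.2.2

/-- Two distinct out-neighbours of a vertex in the same class have different first bits. -/
theorem fork (y z₁ z₂ : W) (h1 : Out G' e c t y z₁) (h2 : Out G' e c t y z₂)
    (hcl : cl e c z₁ = cl e c z₂)
    (hb : ∀ j, bitB G' e c t j z₁ ↔ bitB G' e c t j z₂) : z₁ = z₂ := by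
  by_contra hne
  have hb2 : bitB G' e c t (cl e c y, t y z₁, t y z₂) z₂ :=
    ⟨y, z₁, rfl, h1, h2, hcl, rfl, rfl, hne⟩
  obtain ⟨y₀, z₀, g1, g2, g3, g4, g5, g6, g7⟩ := (hb _).2 hb2
  simp only at g1 g5 g6
  have hyy : y₀ ≠ y := by
    intro h
    subst h
    apply hne
    exact h2.2 z₁ h1.1 hcl g6
  -- path z₀ - y₀ - z₁ - y
  have e1 := ht _ _ g2.1.symm
  have e2 := ht _ _ g3.1
  have e3 := ht _ _ h1.1.symm
  rw [hsw _ _ g2.1, g5] at e1
  rw [g6] at e2
  rw [hsw _ _ h1.1] at e3
  refine no_four G e c hc he hinj z₀ y₀ z₁ y (t y z₁).1 (t y z₁).2 (t y z₂).1 (t y z₂).2 g7 hyy g4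
    g1 ?_ e1 e2 e3
  exact cl_ne_adj G G' e c t hc he hinj ht _ _ g2.1.symm

/-- The two ends of a directed path of length two have different second bits. -/
theorem dipath (y x z : W) (h1 : Out G' e c t y x) (h2 : Out G' e c t x z)
    (hcl : cl e c y = cl e c z)
    (hb : ∀ j, bitC G' e c t j y ↔ bitC G' e c t j z) : y = z := by
  by_contra hne
  have hb2 : bitC G' e c t (cl e c x, t y x, t x z) z :=
    ⟨y, x, rfl, hcl, hne, h1, h2, rfl, rfl⟩
  obtain ⟨y₀, x₀, g1, g2, g3, g4, g5, g6, g7⟩ := (hb _).2 hb2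
  simp only at g1 g6 g7
  have hxx : x₀ ≠ x := by
    intro h
    subst h
    apply hne
    exact h2.2 y g5.1 hcl g7
  -- path y₀ - x₀ - y - x
  have e1 := ht _ _ g4.1
  have e2 := ht _ _ g5.1
  have e3 := ht _ _ h1.1
  rw [g6] at e1
  rw [g7] at e2
  refine no_four G e c hc he hinj y₀ x₀ y x (t y x).2 (t y x).1 (t x z).1 (t x z).2 g3 hxx g2
    g1 ?_ e1 e2 e3
  exact cl_ne_adj G G' e c t hc he hinj ht _ _ g4.1

omit hc he hinj ht hsw

/-- The colours of the auxiliary colouring. -/
abbrev K0 (C : Type) : Type := (C × C) × (Idx C → Bool) × (Idx C → Bool)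

/-- The colours of the decoding colouring. -/
abbrev K1 (C : Type) : Type := K0 C × (K0 C → Option (Bool × Bool))

include hc he hinj ht hsw in
/-- There is a colouring of `G / M` such that the colours of the ends of an edge determine
its type. -/
theorem exists_decoder : ∃ (ψ : W → K1 C) (T : K1 C → K1 C → Bool × Bool),
    ∀ x y, G'.Adj x y → T (ψ x) (ψ y) = t x y := by
  classical
  let ψ₀ : W → K0 C := fun z =>
    (cl e c z, fun j => decide (bitB G' e c t j z), fun j => decide (bitC G' e c t j z))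
  have hcl : ∀ y z, ψ₀ y = ψ₀ z → cl e c y = cl e c z := fun y z h => (Prod.ext_iff.1 h).1
  have hB : ∀ y z, ψ₀ y = ψ₀ z → ∀ j, bitB G' e c t j y ↔ bitB G' e c t j z := by
    intro y z h j
    have := congrFun (Prod.ext_iff.1 (Prod.ext_iff.1 h).2).1 j
    exact decide_eq_decide.1 this
  have hC : ∀ y z, ψ₀ y = ψ₀ z → ∀ j, bitC G' e c t j y ↔ bitC G' e c t j z := by
    intro y z h j
    have := congrFun (Prod.ext_iff.1 (Prod.ext_iff.1 h).2).2 j
    exact decide_eq_decide.1 this
  have hfork : ∀ y z₁ z₂, Out G' e c t y z₁ → Out G' e c t y z₂ → ψ₀ z₁ = ψ₀ z₂ → z₁ = z₂ :=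
    fun y z₁ z₂ h1 h2 h => fork G G' e c t hc he hinj ht hsw y z₁ z₂ h1 h2 (hcl _ _ h) (hB _ _ h)
  have hdi : ∀ y x z, Out G' e c t y x → Out G' e c t x z → ψ₀ y = ψ₀ z → y = z :=
    fun y x z h1 h2 h => dipath G G' e c t hc he hinj ht hsw y x z h1 h2 (hcl _ _ h) (hC _ _ h)
  let g : W → K0 C → Option (Bool × Bool) := fun y κ =>
    if h : ∃ z, Out G' e c t y z ∧ ψ₀ z = κ then some (t y h.choose) else none
  have hg1 : ∀ y z, Out G' e c t y z → g y (ψ₀ z) = some (t y z) := by
    intro y z h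
    have hex : ∃ z', Out G' e c t y z' ∧ ψ₀ z' = ψ₀ z := ⟨z, h, rfl⟩
    have h1 : g y (ψ₀ z) = some (t y hex.choose) := dif_pos hex
    rw [h1, hfork y hex.choose z hex.choose_spec.1 h hex.choose_spec.2]
  have hg2 : ∀ y κ τ, g y κ = some τ → ∃ z, Out G' e c t y z ∧ ψ₀ z = κ ∧ τ = t y z := by
    intro y κ τ h
    by_cases hex : ∃ z, Out G' e c t y z ∧ ψ₀ z = κ
    · have h1 : g y κ = some (t y hex.choose) := dif_pos hex
      rw [h1] at h
      exact ⟨hex.choose, hex.choose_spec.1, hex.choose_spec.2, (Option.some.inj h).symm⟩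
    · have h1 : g y κ = none := dif_neg hex
      rw [h1] at h
      cases h
  let T : K1 C → K1 C → Bool × Bool := fun κ κ' =>
    match κ.2 κ'.1 with
    | some τ => τ
    | none => match κ'.2 κ.1 with
      | some τ => τ.swap
      | none => (false, false)
  refine ⟨fun y => (ψ₀ y, g y), T, ?_⟩
  intro x y hxy
  have hor := out_or G G' e c t hc he hinj ht hsw x y hxy
  show (match g x (ψ₀ y) with
    | some τ => τ
    | none => match g y (ψ₀ x) with
      | some τ => τ.swap
      | none => (false, false)) = t x y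
  cases h1 : g x (ψ₀ y) with
  | some τ =>
    obtain ⟨z, hz1, hz2, hz3⟩ := hg2 _ _ _ h1
    simp only
    rw [hz3]
    rcases hor with h | h
    · rw [hfork x z y hz1 h hz2]
    · rw [hdi y x z h hz1 hz2.symm]
  | none =>
    have h2 : ¬ Out G' e c t x y := by
      intro h
      rw [hg1 x y h] at h1
      cases h1
    have h3 : Out G' e c t y x := hor.resolve_left h2
    simp only
    rw [hg1 y x h3]
    simp only
    rw [hsw x y hxy, Prod.swap_swap]

end Types

section Main

variable {V W C : Type} (G : SimpleGraph V) (G' : SimpleGraph W) (e : W → Bool → V)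

/-- The typed list over a path, entering at label `q` and leaving at label `p`. -/
def tl (S : W → W → Bool × Bool) : Bool → List W → Bool → List (W × Bool × Bool)
  | _, [], _ => []
  | q, [x], p => [(x, q, p)]
  | q, x :: y :: ys, p => (x, q, (S x y).1) :: tl S (S x y).2 (y :: ys) p

theorem tl_fst (S : W → W → Bool × Bool) : ∀ (xs : List W) (q p : Bool),
    (tl S q xs p).map Prod.fst = xs
  | [], _, _ => rfl
  | [x], _, _ => rfl
  | x :: y :: ys, q, p => by
    rw [tl, List.map_cons, tl_fst S (y :: ys)]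

theorem tl_ne_nil (S : W → W → Bool × Bool) (xs : List W) (q p : Bool) (h : xs ≠ []) :
    tl S q xs p ≠ [] := by
  intro h1
  apply h
  rw [← tl_fst S xs q p, h1]
  rfl

theorem tl_head (S : W → W → Bool × Bool) (x : W) : ∀ (xs : List W) (q p : Bool),
    ∃ b l, tl S q (x :: xs) p = (x, q, b) :: l
  | [], q, p => ⟨p, [], rfl⟩
  | y :: ys, q, p => ⟨(S x y).1, tl S (S x y).2 (y :: ys) p, rfl⟩

theorem tl_chain (S : W → W → Bool × Bool)
    (hS : ∀ x y, G'.Adj x y → G.Adj (e x (S x y).1) (e y (S x y).2)) :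
    ∀ (xs : List W) (q p : Bool), List.IsChain G'.Adj xs →
    List.IsChain (fun a b : W × Bool × Bool => G.Adj (e a.1 a.2.2) (e b.1 b.2.1)) (tl S q xs p)
  | [], _, _, _ => by simp [tl]
  | [x], _, _, _ => by simp [tl]
  | x :: y :: ys, q, p, h => by
    rw [List.isChain_cons_cons] at h
    have ih := tl_chain S hS (y :: ys) (S x y).2 p h.2
    rw [tl]
    obtain ⟨b, l, hbl⟩ := tl_head S y ys (S x y).2 p
    rw [hbl] at ih ⊢
    rw [List.isChain_cons_cons]
    exact ⟨hS x y h.1, ih⟩

/-- Splitting the typed list over a concatenation. -/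
theorem tl_append' (S : W → W → Bool × Bool) (y : W) (ys : List W) :
    ∀ (xs : List W) (x : W), ∃ a b : Bool, ∀ q p,
      tl S q ((x :: xs) ++ (y :: ys)) p = tl S q (x :: xs) a ++ tl S b (y :: ys) p
  | [], x => ⟨(S x y).1, (S x y).2, fun _ _ => rfl⟩
  | z :: zs, x => by
    obtain ⟨a, b, h1⟩ := tl_append' S y ys zs z
    refine ⟨a, b, ?_⟩
    intro q p
    show (x, q, (S x z).1) :: tl S (S x z).2 ((z :: zs) ++ (y :: ys)) p = _
    rw [h1]
    rfl

theorem tl_colour (c : V → C) {K : Type} (ψ : W → K) (T : K → K → Bool × Bool) :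
    ∀ (xs ys : List W) (q p : Bool),
      xs.map (fun x => (cl e c x, ψ x)) = ys.map (fun x => (cl e c x, ψ x)) →
      (tl (fun x y => T (ψ x) (ψ y)) q xs p).map (fun a => (cl e c a.1, a.2)) =
        (tl (fun x y => T (ψ x) (ψ y)) q ys p).map (fun a => (cl e c a.1, a.2))
  | [], [], _, _, _ => rfl
  | [], y :: ys, _, _, h => by simp at h
  | x :: xs, [], _, _, h => by simp at h
  | [x], [y], q, p, h => by
    simp only [List.map_cons, List.map_nil, List.cons.injEq, and_true, Prod.mk.injEq] at h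
    simp [tl, h.1]
  | [x], y :: y' :: ys, _, _, h => by simp at h
  | x :: x' :: xs, [y], _, _, h => by simp at h
  | x :: x' :: xs, y :: y' :: ys, q, p, h => by
    have h0 := h
    simp only [List.map_cons, List.cons.injEq, Prod.mk.injEq] at h0
    have htail : (x' :: xs).map (fun x => (cl e c x, ψ x)) =
        (y' :: ys).map (fun x => (cl e c x, ψ x)) := by
      simp only [List.map_cons, List.cons.injEq, Prod.mk.injEq]
      exact h0.2
    have a1 := h0.1.1
    have a2 := h0.1.2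
    have a3 := h0.2.1.2
    have ih := tl_colour c ψ T (x' :: xs) (y' :: ys) (T (ψ x) (ψ x')).2 p htail
    rw [tl, tl, List.map_cons, List.map_cons, ih, a1, a2, a3]

theorem nr_contract [Finite W] (c : V → C) (hc : NR G c)
    (he : ∀ x, e x false = e x true ∨ G.Adj (e x false) (e x true))
    (hinj : ∀ x y b b', e x b = e y b' → x = y)
    (hadj : ∀ x y, G'.Adj x y → ∃ p q, G.Adj (e x p) (e y q)) :
    ∃ Φ : W → (C × C) × K1 C, NR G' Φ := by
  obtain ⟨t, ht, hsw⟩ := exists_types G G' e hadj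
  obtain ⟨ψ, T, hT⟩ := exists_decoder G G' e c t hc he hinj ht hsw
  refine ⟨fun x => (cl e c x, ψ x), ?_⟩
  intro l₁ l₂ hne hnd hch heq
  cases l₁ with
  | nil => exact absurd rfl hne
  | cons x xs =>
    cases l₂ with
    | nil => simp at heq
    | cons y ys =>
      let S : W → W → Bool × Bool := fun x y => T (ψ x) (ψ y)
      have hS : ∀ x y, G'.Adj x y → G.Adj (e x (S x y).1) (e y (S x y).2) := by
        intro x y h
        have h1 : S x y = t x y := hT x y h
        rw [h1]
        exact ht x y h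
      obtain ⟨a, b, hab⟩ := tl_append' S y ys xs x
      refine no_lift G e c hc he hinj (tl S b (x :: xs) a) (tl S b (y :: ys) a) ?_ ?_ ?_ ?_
      · exact tl_ne_nil S _ _ _ (by simp)
      · rw [← hab, tl_fst]
        exact hnd
      · rw [← hab]
        exact tl_chain G G' e S hS _ _ _ hch
      · exact tl_colour e c ψ T (x :: xs) (y :: ys) b a heq

end Main

end Pool.Agent.H363R3.NonrepContract
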