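import Mathlib

set_option autoImplicit false
open Polynomial

namespace Pool.H363R3.SM2

/-- coefficients 0,1,2 of a product `∏ (1 + c_i X)`. -/
lemma coeff_prod {ι : Type*} (s : Finset ι) (c : ι → ℂ) :
    (∏ i ∈ s, (1 + C (c i) * X)).coeff 0 = 1 ∧
    (∏ i ∈ s, (1 + C (c i) * X)).coeff 1 = ∑ i ∈ s, c i ∧
    2 * (∏ i ∈ s, (1 + C (c i) * X)).coeff 2 = (∑ i ∈ s, c i) ^ 2 - ∑ i ∈ s, (c i) ^ 2 := by
  classical
  induction s using Finset.induction_on with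
  | empty => simp [coeff_one]
  | insert i s hi ih =>
    obtain ⟨h0, h1, h2⟩ := ih
    rw [Finset.prod_insert hi, Finset.sum_insert hi, Finset.sum_insert hi]
    set q := ∏ i ∈ s, (1 + C (c i) * X) with hq
    have e : (1 + C (c i) * X) * q = q + C (c i) * (X * q) := by ring
    rw [e]
    refine ⟨?_, ?_, ?_⟩
    · simp [coeff_add, h0]
    · rw [coeff_add, coeff_C_mul, show (1:ℕ) = 0 + 1 from rfl, coeff_X_mul, zero_add, h1, h0]; ring
    · rw [coeff_add, coeff_C_mul, show (2:ℕ) = 1 + 1 from rfl, coeff_X_mul, h1, mul_add, show (1+1:ℕ) = 2 from rfl, h2]; ring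

lemma ident {m : ℕ} (u v : Fin m → ℂ)
    (hF : derivative (X * ∏ j, (1 + C (v j) * X)) = ∏ k, (1 + C (u k) * X)) :
    (∑ k, u k = 2 * ∑ j, v j) ∧
    ((∑ k, u k) ^ 2 - ∑ k, (u k) ^ 2 = 3 * ((∑ j, v j) ^ 2 - ∑ j, (v j) ^ 2)) := by
  obtain ⟨u0, u1, u2⟩ := coeff_prod Finset.univ u
  obtain ⟨v0, v1, v2⟩ := coeff_prod Finset.univ v
  constructor
  · rw [← u1, ← hF, coeff_derivative, coeff_X_mul, v1]; push_cast; ring
  · rw [← u2, ← hF, coeff_derivative, coeff_X_mul, ← v2]; push_cast; ring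

/-- the basic integral identity along the segment `[0,c]`. -/
lemma integral_seg {m : ℕ} (u v : Fin m → ℂ)
    (hF : derivative (X * ∏ j, (1 + C (v j) * X)) = ∏ k, (1 + C (u k) * X)) (c : ℂ) (hc : c ≠ 0) :
    ∫ t in (0:ℝ)..1, ∏ k, (1 + u k * (c * t)) = ∏ j, (1 + v j * c) := by
  have hd : ∀ t ∈ Set.uIcc (0:ℝ) 1, HasDerivAt
      (fun t : ℝ => (X * ∏ j, (1 + C (v j) * X)).eval (c * (t:ℂ)))
      (c * ∏ k, (1 + u k * (c * t))) t := by
    intro t _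
    have h1 := (X * ∏ j, (1 + C (v j) * X) : ℂ[X]).hasDerivAt (c * (t:ℂ))
    have h2 : HasDerivAt (fun w : ℂ => c * w) (c * 1) (t:ℂ) := (hasDerivAt_id (t:ℂ)).const_mul c
    have h3 := (h1.comp (t:ℂ) h2).comp_ofReal
    rw [hF] at h3
    refine HasDerivAt.congr_deriv (f := fun t : ℝ => (X * ∏ j, (1 + C (v j) * X)).eval (c * (t:ℂ))) h3 ?_
    rw [mul_one, mul_comm _ c]
    congr 1
    simp [eval_prod]
  have hcont : Continuous (fun t : ℝ => c * ∏ k, (1 + u k * (c * (t:ℂ)))) := by fun_prop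
  have := intervalIntegral.integral_eq_sub_of_hasDerivAt hd (hcont.intervalIntegrable _ _)
  rw [intervalIntegral.integral_const_mul] at this
  have e : c * ∫ t in (0:ℝ)..1, ∏ k, (1 + u k * (c * t)) = c * ∏ j, (1 + v j * c) := by
    rw [this]; simp [eval_prod]
  exact mul_left_cancel₀ hc e

/-- AM-GM for products over `Fin m`. -/
lemma amgm {m : ℕ} (hm : 0 < m) (y : Fin m → ℝ) (hy : ∀ k, 0 ≤ y k) :
    ∏ k, y k ≤ ((∑ k, y k) / m) ^ m := by
  have hm' : (0:ℝ) < m := by exact_mod_cast hm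
  have h := Real.geom_mean_le_arith_mean_weighted Finset.univ (fun _ : Fin m => (1:ℝ) / m) y
    (fun _ _ => by positivity) (by simp [hm'.ne']) (fun k _ => hy k)
  have h2 : (∏ k, y k ^ ((1:ℝ) / m)) ^ m = ∏ k, y k := by
    rw [← Finset.prod_pow]
    refine Finset.prod_congr rfl fun k _ => ?_
    rw [← Real.rpow_natCast, ← Real.rpow_mul (hy k)]
    rw [one_div, inv_mul_cancel₀ hm'.ne', Real.rpow_one]
  rw [← h2]
  refine pow_le_pow_left₀ (Finset.prod_nonneg fun k _ => Real.rpow_nonneg (hy k) _) ?_ m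
  refine h.trans (le_of_eq ?_)
  rw [← Finset.mul_sum]; ring

/-- third order remainder of a product. -/
lemma majorant {ι : Type*} (s : Finset ι) (b : ι → ℂ) (r : ℝ) (hr : 1 ≤ r) :
    0 ≤ ∑ i ∈ s, ‖b i‖ ∧
    ‖∑ i ∈ s, b i‖ ≤ ∑ i ∈ s, ‖b i‖ ∧
    ‖((∑ i ∈ s, b i) ^ 2 - ∑ i ∈ s, (b i) ^ 2) / 2‖ ≤ ((∑ i ∈ s, ‖b i‖) ^ 2 - ∑ i ∈ s, ‖b i‖ ^ 2) / 2 ∧
    ‖∏ i ∈ s, (1 + b i) - 1 - ∑ i ∈ s, b i - ((∑ i ∈ s, b i) ^ 2 - ∑ i ∈ s, (b i) ^ 2) / 2‖ ≤
      (∏ i ∈ s, (1 + r * ‖b i‖) - 1 - r * (∑ i ∈ s, ‖b i‖) -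
        r ^ 2 * (((∑ i ∈ s, ‖b i‖) ^ 2 - ∑ i ∈ s, ‖b i‖ ^ 2) / 2)) / r ^ 3 := by
  classical
  induction s using Finset.induction_on with
  | empty => simp
  | insert i s hi ih =>
    obtain ⟨h0, h1, h2, h3⟩ := ih
    simp only [Finset.sum_insert hi, Finset.prod_insert hi]
    set P := ∏ i ∈ s, (1 + b i)
    set e1 := ∑ i ∈ s, b i
    set p2 := ∑ i ∈ s, (b i) ^ 2
    set W := ∏ i ∈ s, (1 + r * ‖b i‖)
    set E1 := ∑ i ∈ s, ‖b i‖
    set P2 := ∑ i ∈ s, ‖b i‖ ^ 2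
    set x := ‖b i‖ with hx
    have hx0 : 0 ≤ x := norm_nonneg _
    have hr0 : 0 < r := by linarith
    have hr3 : 0 < r ^ 3 := by positivity
    refine ⟨by linarith, ?_, ?_, ?_⟩
    · exact (norm_add_le _ _).trans (by linarith)
    · have e : ((b i + e1) ^ 2 - (b i ^ 2 + p2)) / 2 = (e1 ^ 2 - p2) / 2 + b i * e1 := by ring
      rw [e]
      refine (norm_add_le _ _).trans ?_
      rw [norm_mul]
      have : x * ‖e1‖ ≤ x * E1 := mul_le_mul_of_nonneg_left h1 hx0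
      nlinarith
    · have e : (1 + b i) * P - 1 - (b i + e1) - ((b i + e1) ^ 2 - (b i ^ 2 + p2)) / 2
          = (P - 1 - e1 - (e1 ^ 2 - p2) / 2) * (1 + b i) + b i * ((e1 ^ 2 - p2) / 2) := by ring
      rw [e]
      refine (norm_add_le _ _).trans ?_
      rw [norm_mul, norm_mul]
      have hn : ‖1 + b i‖ ≤ 1 + x := by
        refine (norm_add_le _ _).trans ?_
        rw [norm_one]
      set D := (W - 1 - r * E1 - r ^ 2 * ((E1 ^ 2 - P2) / 2)) / r ^ 3 with hD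
      have hD0 : 0 ≤ D := (norm_nonneg _).trans h3
      have t1 : ‖P - 1 - e1 - (e1 ^ 2 - p2) / 2‖ * ‖1 + b i‖ ≤ D * (1 + x) :=
        mul_le_mul h3 hn (norm_nonneg _) hD0
      have t2 : x * ‖(e1 ^ 2 - p2) / 2‖ ≤ x * ((E1 ^ 2 - P2) / 2) :=
        mul_le_mul_of_nonneg_left h2 hx0
      have hW : W = r ^ 3 * D + 1 + r * E1 + r ^ 2 * ((E1 ^ 2 - P2) / 2) := by
        rw [hD]; field_simp; ring
      have e2 : ((1 + r * x) * W - 1 - r * (x + E1) - r ^ 2 * (((x + E1) ^ 2 - (x ^ 2 + P2)) / 2)) / r ^ 3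
          = D * (1 + r * x) + x * ((E1 ^ 2 - P2) / 2) := by
        rw [hW]; field_simp; ring
      rw [e2]
      have t3 : D * (1 + x) ≤ D * (1 + r * x) := by
        apply mul_le_mul_of_nonneg_left _ hD0
        nlinarith
      linarith

end Pool.H363R3.SM2
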