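import Mathlib
import Pool.Agent.H363R3.SM2a

set_option autoImplicit false
open Polynomial

namespace Pool.H363R3.SM2

lemma v_bound {m : ℕ} (hm : 0 < m) (u v : Fin m → ℂ)
    (hF : derivative (X * ∏ j, (1 + C (v j) * X)) = ∏ k, (1 + C (u k) * X))
    (hU : ∑ k, ‖u k‖ ≤ m) (j : Fin m) : ‖v j‖ ≤ 3 / 2 * m := by
  by_contra hcon
  push Not at hcon
  have hm' : (0:ℝ) < m := by exact_mod_cast hm
  have hvpos : 0 < ‖v j‖ := by nlinarith
  have hv0 : v j ≠ 0 := norm_pos_iff.mp hvpos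
  set c : ℂ := -(v j)⁻¹ with hc
  have hc0 : c ≠ 0 := by rw [hc]; simp [hv0]
  have hI := integral_seg u v hF c hc0
  have hz : ∏ i, (1 + v i * c) = 0 := by
    apply Finset.prod_eq_zero (Finset.mem_univ j)
    rw [hc]; field_simp; ring
  rw [hz] at hI
  have hcn : ‖c‖ * m ≤ 2 / 3 := by
    rw [hc, norm_neg, norm_inv, inv_mul_le_iff₀ hvpos]
    nlinarith
  set f : ℝ → ℂ := fun t => ∏ k, (1 + u k * (c * t)) with hf
  have hfc : Continuous f := by rw [hf]; fun_prop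
  have hb : ∀ t ∈ Set.uIoc (0:ℝ) 1, ‖f t - 1‖ ≤ Real.exp (2/3) - 1 := by
    intro t ht
    rw [Set.uIoc_of_le zero_le_one] at ht
    have h1 := Finset.norm_prod_one_add_sub_one_le Finset.univ (fun k => u k * (c * t))
    refine h1.trans ?_
    have h2 : ∑ k, ‖u k * (c * t)‖ ≤ 2 / 3 := by
      have : ∀ k, ‖u k * (c * t)‖ ≤ ‖u k‖ * ‖c‖ := by
        intro k
        rw [norm_mul, norm_mul]
        have : ‖(t:ℂ)‖ ≤ 1 := by
          rw [Complex.norm_real, Real.norm_eq_abs, abs_of_pos ht.1]; exact ht.2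
        have := mul_le_mul_of_nonneg_left this (norm_nonneg c)
        rw [mul_one] at this
        exact mul_le_mul_of_nonneg_left this (norm_nonneg _)
      refine (Finset.sum_le_sum fun k _ => this k).trans ?_
      rw [← Finset.sum_mul]
      calc (∑ k, ‖u k‖) * ‖c‖ ≤ m * ‖c‖ := mul_le_mul_of_nonneg_right hU (norm_nonneg _)
        _ ≤ 2 / 3 := by linarith [mul_comm (m:ℝ) ‖c‖]
    have := Real.exp_le_exp.mpr h2
    linarith
  have hn := intervalIntegral.norm_integral_le_of_norm_le_const hb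
  rw [intervalIntegral.integral_sub (hfc.intervalIntegrable _ _) (by simp)] at hn
  have hI' : ∫ t in (0:ℝ)..1, f t = 0 := hI
  rw [hI'] at hn
  simp at hn
  have h3 : Real.exp (2/3) < 2 := by
    have h4 : Real.exp (2/3) ^ 3 < 2 ^ 3 := by
      rw [← Real.exp_nat_mul]
      have : Real.exp (((3:ℕ):ℝ) * (2/3)) = Real.exp 1 * Real.exp 1 := by
        rw [← Real.exp_add]; norm_num
      rw [this]
      have := Real.exp_one_lt_d9
      nlinarith [Real.exp_pos 1]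
    exact lt_of_pow_lt_pow_left₀ 3 (by norm_num) h4
  linarith

lemma int_pow (M : ℕ) (β : ℂ) :
    ((M:ℂ) + 1) * β * ∫ t in (0:ℝ)..1, (1 - (t:ℂ) * β) ^ M = 1 - (1 - β) ^ (M + 1) := by
  have hd : ∀ t ∈ Set.uIcc (0:ℝ) 1, HasDerivAt
      (fun t : ℝ => - (1 - (t:ℂ) * β) ^ (M + 1)) (((M:ℂ) + 1) * β * (1 - (t:ℂ) * β) ^ M) t := by
    intro t _
    have h2 : HasDerivAt (fun w : ℂ => 1 - w * β) (-(1 * β)) (t:ℂ) :=
      ((hasDerivAt_id (t:ℂ)).mul_const β).const_sub 1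
    have h3 := ((h2.pow (M+1)).neg).comp_ofReal
    refine HasDerivAt.congr_deriv (f := fun t : ℝ => - (1 - (t:ℂ) * β) ^ (M + 1)) h3 ?_
    simp; ring
  have hcont : Continuous (fun t : ℝ => ((M:ℂ) + 1) * β * (1 - (t:ℂ) * β) ^ M) := by fun_prop
  have := intervalIntegral.integral_eq_sub_of_hasDerivAt hd (hcont.intervalIntegrable _ _)
  rw [intervalIntegral.integral_const_mul] at this
  rw [this]; simp; ring

lemma int_pow_real (M : ℕ) (κ : ℝ) (h0 : 0 < κ) (h1 : κ ≤ 1) :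
    ∫ t in (0:ℝ)..1, (1 - κ * t) ^ M ≤ 1 / ((M + 1) * κ) := by
  have hd : ∀ t ∈ Set.uIcc (0:ℝ) 1, HasDerivAt
      (fun t : ℝ => - (1 - κ * t) ^ (M + 1) / ((M + 1) * κ)) ((1 - κ * t) ^ M) t := by
    intro t _
    have h2 : HasDerivAt (fun w : ℝ => 1 - κ * w) (-(κ * 1)) t :=
      ((hasDerivAt_id t).const_mul κ).const_sub 1
    have h3 := ((h2.pow (M+1)).neg).div_const ((M + 1) * κ)
    refine HasDerivAt.congr_deriv h3 ?_
    have : (M:ℝ) + 1 ≠ 0 := by positivity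
    simp; field_simp
  have hcont : Continuous (fun t : ℝ => (1 - κ * t) ^ M) := by fun_prop
  rw [intervalIntegral.integral_eq_sub_of_hasDerivAt hd (hcont.intervalIntegrable _ _)]
  have hp : 0 ≤ (1 - κ * 1) ^ (M + 1) := pow_nonneg (by linarith) _
  have hk : (0:ℝ) < (M + 1) * κ := by positivity
  rw [mul_zero, sub_zero, one_pow, ← sub_div]
  apply div_le_div_of_nonneg_right _ hk.le
  linarith

lemma int_sq_pow (M : ℕ) (κ : ℝ) (h0 : 0 < κ) (h1 : κ ≤ 1) :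
    ∫ t in (0:ℝ)..1, t ^ 2 * (1 - κ * t) ^ M ≤ 2 / (κ ^ 3 * ((M + 1) * (M + 2) * (M + 3))) := by
  set g : ℝ → ℝ := fun t => - ((1 - κ * t) ^ (M + 1) / (M + 1) - 2 * (1 - κ * t) ^ (M + 2) / (M + 2)
      + (1 - κ * t) ^ (M + 3) / (M + 3)) / κ ^ 3 with hg
  have hd : ∀ t ∈ Set.uIcc (0:ℝ) 1, HasDerivAt g (t ^ 2 * (1 - κ * t) ^ M) t := by
    intro t _
    have h2 : HasDerivAt (fun w : ℝ => 1 - κ * w) (-(κ * 1)) t :=
      ((hasDerivAt_id t).const_mul κ).const_sub 1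
    have a1 := (h2.pow (M+1)).div_const ((M:ℝ) + 1)
    have a2 := ((h2.pow (M+2)).const_mul 2).div_const ((M:ℝ) + 2)
    have a3 := (h2.pow (M+3)).div_const ((M:ℝ) + 3)
    have h3 := (((a1.sub a2).add a3).neg).div_const (κ ^ 3)
    refine HasDerivAt.congr_deriv h3 ?_
    have e1 : (M:ℝ) + 1 ≠ 0 := by positivity
    have e2 : (M:ℝ) + 2 ≠ 0 := by positivity
    have e3 : (M:ℝ) + 3 ≠ 0 := by positivity
    have s1 : M + 1 - 1 = M := rfl
    have s2 : M + 2 - 1 = M + 1 := rfl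
    have s3 : M + 3 - 1 = M + 2 := rfl
    rw [s1, s2, s3]
    push_cast
    field_simp
    ring
  have hcont : Continuous (fun t : ℝ => t ^ 2 * (1 - κ * t) ^ M) := by fun_prop
  rw [intervalIntegral.integral_eq_sub_of_hasDerivAt hd (hcont.intervalIntegrable _ _)]
  have hg1 : g 1 ≤ 0 := by
    rw [hg]
    simp only
    have hy0 : 0 ≤ 1 - κ * 1 := by linarith
    set y := 1 - κ * 1
    have e : y ^ (M + 1) / (M + 1) - 2 * y ^ (M + 2) / (M + 2) + y ^ (M + 3) / (M + 3)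
        = y ^ (M + 1) * (1 / ((M:ℝ) + 1) - 2 * y / (M + 2) + y ^ 2 / (M + 3)) := by ring
    have hq : 0 ≤ 1 / ((M:ℝ) + 1) - 2 * y / (M + 2) + y ^ 2 / (M + 3) := by
      have hM : (0:ℝ) ≤ M := Nat.cast_nonneg _
      have : 1 / ((M:ℝ) + 1) - 2 * y / (M + 2) + y ^ 2 / (M + 3)
        = (((M:ℝ) + 2) * (M + 3) - 2 * y * ((M + 1) * (M + 3)) + y ^ 2 * ((M + 1) * (M + 2))) / ((M + 1) * (M + 2) * (M + 3)) := by
        field_simp
      rw [this]
      apply div_nonneg _ (by positivity)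
      have h5 : 0 ≤ ((M:ℝ) + 1) * ((M + 2) * y - (M + 3)) ^ 2 + (M + 3) := by positivity
      have h6 : ((M:ℝ) + 1) * ((M + 2) * y - (M + 3)) ^ 2 + (M + 3)
        = (M + 2) * (((M:ℝ) + 2) * (M + 3) - 2 * y * ((M + 1) * (M + 3)) + y ^ 2 * ((M + 1) * (M + 2))) := by ring
      rw [h6] at h5
      exact nonneg_of_mul_nonneg_right h5 (by positivity)
    rw [e]
    have := mul_nonneg (pow_nonneg hy0 (M+1)) hq
    apply div_nonpos_of_nonpos_of_nonneg _ (by positivity)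
    linarith
  have hg0 : g 0 = - (2 / (κ ^ 3 * ((M + 1) * (M + 2) * (M + 3)))) := by
    rw [hg]; simp only [mul_zero, sub_zero, one_pow]; field_simp; ring
  rw [hg0]; linarith

end Pool.H363R3.SM2
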