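import Mathlib
import Pool.Agent.H363R3.SM2b

set_option autoImplicit false
open Polynomial

namespace Pool.H363R3.SM2

lemma pointwise (M : ℕ) (A : ℂ) (hA0 : A ≠ 0) (d : Fin (M+2) → ℂ) (V t r : ℝ)
    (hd : ∑ k, d k = 0) (hV0 : 0 ≤ V) (hV : ∑ k, ‖d k‖^2 ≤ ((M+2:ℕ):ℝ) * V)
    (ht : 0 ≤ t) (hr : 1 ≤ r) :
    ‖∏ k, (A - (t:ℂ) * d k) - A ^ (M+2)‖ ≤
      1 / 2 * (((M+2:ℕ):ℝ) * V) * t ^ 2 * ‖A‖ ^ M + (‖A‖ + r * √V * t) ^ (M+2) / r ^ 3 := by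
  have hAn : 0 < ‖A‖ := norm_pos_iff.mpr hA0
  have hr0 : 0 < r := by linarith
  set b : Fin (M+2) → ℂ := fun k => -((t:ℂ) * d k / A) with hb
  obtain ⟨hE1, -, h2, h3⟩ := majorant Finset.univ b r hr
  have hbs : ∑ k, b k = 0 := by
    rw [hb]; simp only [Finset.sum_neg_distrib, ← Finset.sum_div, ← Finset.mul_sum, hd]; simp
  rw [hbs] at h3 h2
  have hbn : ∀ k, ‖b k‖ = t * ‖d k‖ / ‖A‖ := by
    intro k; rw [hb]; simp only [norm_neg, norm_div, norm_mul, Complex.norm_real, Real.norm_eq_abs, abs_of_nonneg ht]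
  have e2n : ‖((0:ℂ) ^ 2 - ∑ k, (b k) ^ 2) / 2‖ ≤ 1 / 2 * (((M+2:ℕ):ℝ) * V) * t ^ 2 / ‖A‖ ^ 2 := by
    have : ((0:ℂ) ^ 2 - ∑ k, (b k) ^ 2) / 2 = -((∑ k, (b k) ^ 2) / 2) := by ring
    rw [this, norm_neg, norm_div]
    have h4 : ‖∑ k, (b k) ^ 2‖ ≤ (((M+2:ℕ):ℝ) * V) * t ^ 2 / ‖A‖ ^ 2 := by
      refine (norm_sum_le _ _).trans ?_
      have : ∀ k, ‖(b k) ^ 2‖ = ‖d k‖ ^ 2 * (t ^ 2 / ‖A‖ ^ 2) := by
        intro k; rw [norm_pow, hbn k]; field_simp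
      rw [Finset.sum_congr rfl fun k _ => this k, ← Finset.sum_mul]
      rw [mul_div_assoc]
      exact mul_le_mul_of_nonneg_right hV (by positivity)
    have h5 : ‖(2:ℂ)‖ = 2 := by simp
    rw [h5]
    have : 1 / 2 * (((M+2:ℕ):ℝ) * V) * t ^ 2 / ‖A‖ ^ 2 = ((((M+2:ℕ):ℝ) * V) * t ^ 2 / ‖A‖ ^ 2) / 2 := by ring
    rw [this]
    exact div_le_div_of_nonneg_right h4 (by norm_num)
  have hW : ‖∏ k, (1 + b k) - 1 - 0 - ((0:ℂ) ^ 2 - ∑ k, (b k) ^ 2) / 2‖ ≤ (∏ k, (1 + r * ‖b k‖)) / r ^ 3 := by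
    refine h3.trans ?_
    apply div_le_div_of_nonneg_right _ (by positivity)
    have h6 := (norm_nonneg _).trans h2
    have : 0 ≤ r * ∑ k, ‖b k‖ := by positivity
    have : 0 ≤ r ^ 2 * (((∑ k, ‖b k‖) ^ 2 - ∑ k, ‖b k‖ ^ 2) / 2) := by positivity
    linarith
  have hfac : ∏ k, (A - (t:ℂ) * d k) = A ^ (M+2) * ∏ k, (1 + b k) := by
    have : ∀ k, A - (t:ℂ) * d k = A * (1 + b k) := by
      intro k; rw [hb]; field_simp; ring
    rw [Finset.prod_congr rfl fun k _ => this k, Finset.prod_mul_distrib]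
    simp
  have hfacn : ‖A‖ ^ (M+2) * ∏ k, (1 + r * ‖b k‖) ≤ (‖A‖ + r * √V * t) ^ (M+2) := by
    have h7 : ‖A‖ ^ (M+2) * ∏ k, (1 + r * ‖b k‖) = ∏ k, (‖A‖ + r * t * ‖d k‖) := by
      have : ∀ k, ‖A‖ + r * t * ‖d k‖ = ‖A‖ * (1 + r * ‖b k‖) := by
        intro k; rw [hbn k]; field_simp
      rw [Finset.prod_congr rfl fun k _ => this k, Finset.prod_mul_distrib]
      simp
    rw [h7]
    refine (amgm (by omega) _ (fun k => by positivity)).trans ?_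
    apply pow_le_pow_left₀ (by positivity)
    have hc : (0:ℝ) < ((M+2:ℕ):ℝ) := by positivity
    rw [div_le_iff₀ hc, Finset.sum_add_distrib, ← Finset.mul_sum]
    have h8 : ∑ k, ‖d k‖ ≤ ((M+2:ℕ):ℝ) * √V := by
      have h9 : (∑ k, ‖d k‖) ^ 2 ≤ (((M+2:ℕ):ℝ) * √V) ^ 2 := by
        have := sq_sum_le_card_mul_sum_sq (s := (Finset.univ : Finset (Fin (M+2)))) (f := fun k => ‖d k‖)
        rw [Finset.card_univ, Fintype.card_fin] at this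
        refine this.trans ?_
        rw [mul_pow, Real.sq_sqrt hV0]
        have := mul_le_mul_of_nonneg_left hV hc.le
        linarith [this, sq (((M+2:ℕ):ℝ)), mul_assoc (((M+2:ℕ):ℝ)) (((M+2:ℕ):ℝ)) V]
      exact abs_le_of_sq_le_sq' h9 (by positivity) |>.2
    have : r * t * ∑ k, ‖d k‖ ≤ r * t * (((M+2:ℕ):ℝ) * √V) :=
      mul_le_mul_of_nonneg_left h8 (by positivity)
    simp only [Finset.sum_const, Finset.card_univ, Fintype.card_fin, nsmul_eq_mul]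
    linarith
  rw [hfac]
  have e : A ^ (M+2) * ∏ k, (1 + b k) - A ^ (M+2) =
      A ^ (M+2) * (∏ k, (1 + b k) - 1 - 0 - ((0:ℂ) ^ 2 - ∑ k, (b k) ^ 2) / 2)
        + A ^ (M+2) * (((0:ℂ) ^ 2 - ∑ k, (b k) ^ 2) / 2) := by ring
  rw [e]
  refine (norm_add_le _ _).trans ?_
  rw [norm_mul, norm_mul, norm_pow]
  have k1 : ‖A‖ ^ (M+2) * ‖∏ k, (1 + b k) - 1 - 0 - ((0:ℂ) ^ 2 - ∑ k, (b k) ^ 2) / 2‖ ≤ (‖A‖ + r * √V * t) ^ (M+2) / r ^ 3 := by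
    refine (mul_le_mul_of_nonneg_left hW (by positivity)).trans ?_
    rw [← mul_div_assoc]
    exact div_le_div_of_nonneg_right hfacn (by positivity)
  have k2 : ‖A‖ ^ (M+2) * ‖((0:ℂ) ^ 2 - ∑ k, (b k) ^ 2) / 2‖ ≤ 1 / 2 * (((M+2:ℕ):ℝ) * V) * t ^ 2 * ‖A‖ ^ M := by
    refine (mul_le_mul_of_nonneg_left e2n (by positivity)).trans (le_of_eq ?_)
    field_simp
    ring
  linarith

lemma step (M : ℕ) (β : ℂ) (d : Fin (M+2) → ℂ) (V κ r : ℝ)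
    (hd : ∑ k, d k = 0) (hV0 : 0 ≤ V) (hV : ∑ k, ‖d k‖^2 ≤ ((M+2:ℕ):ℝ) * V)
    (hκ0 : 0 < κ) (hκ1 : κ ≤ 1) (hA : ∀ t ∈ Set.Icc (0:ℝ) 1, ‖1 - (t:ℂ)*β‖ ≤ 1 - κ * t)
    (hβ : ‖β‖ < 1) (hr : 1 ≤ r) (hrV : r * √V < κ) :
    ((M:ℝ)+3) * ‖(∫ t in (0:ℝ)..1, ∏ k, (1 - (t:ℂ) * (β + d k))) - ∫ t in (0:ℝ)..1, (1 - (t:ℂ)*β)^(M+2)‖
      ≤ V/(κ^3 * (M+1)) + 1/(r^3*(κ - r*√V)) := by
  have hr0 : 0 < r := by linarith
  have c1 : Continuous (fun t : ℝ => ∏ k, (1 - (t:ℂ) * (β + d k))) := by fun_prop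
  have c2 : Continuous (fun t : ℝ => (1 - (t:ℂ)*β)^(M+2)) := by fun_prop
  rw [← intervalIntegral.integral_sub (c1.intervalIntegrable _ _) (c2.intervalIntegrable _ _)]
  set κ' := κ - r * √V with hκ'
  have hκ'0 : 0 < κ' := by linarith
  have hκ'1 : κ' ≤ 1 := by
    have : 0 ≤ r * √V := by positivity
    linarith
  have hb : ∀ t ∈ Set.Ioc (0:ℝ) 1, ‖∏ k, (1 - (t:ℂ) * (β + d k)) - (1 - (t:ℂ)*β)^(M+2)‖
      ≤ 1 / 2 * (((M+2:ℕ):ℝ) * V) * (t ^ 2 * (1 - κ * t) ^ M) + (1 - κ' * t) ^ (M+2) / r ^ 3 := by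
    intro t ht
    have hAt := hA t ⟨ht.1.le, ht.2⟩
    have hA0 : 1 - (t:ℂ) * β ≠ 0 := by
      intro h
      have h1 : (t:ℂ) * β = 1 := by linear_combination -h
      have h2 : ‖(t:ℂ) * β‖ = 1 := by rw [h1]; simp
      rw [norm_mul, Complex.norm_real, Real.norm_eq_abs, abs_of_pos ht.1] at h2
      have := norm_nonneg β
      nlinarith [ht.2]
    have h := pointwise M (1 - (t:ℂ) * β) hA0 d V t r hd hV0 hV ht.1.le hr
    have e : ∏ k, (1 - (t:ℂ) * (β + d k)) = ∏ k, (1 - (t:ℂ) * β - (t:ℂ) * d k) := by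
      refine Finset.prod_congr rfl fun k _ => by ring
    rw [e]
    refine h.trans ?_
    have q1 : ‖1 - (t:ℂ) * β‖ ^ M ≤ (1 - κ * t) ^ M := pow_le_pow_left₀ (norm_nonneg _) hAt M
    have q2 : (‖1 - (t:ℂ) * β‖ + r * √V * t) ^ (M+2) ≤ (1 - κ' * t) ^ (M+2) := by
      have : 0 ≤ r * √V * t := by have := ht.1.le; positivity
      apply pow_le_pow_left₀ (by positivity)
      rw [hκ']; nlinarith
    have q3 : 1 / 2 * (((M+2:ℕ):ℝ) * V) * t ^ 2 * ‖1 - (t:ℂ) * β‖ ^ M ≤ 1 / 2 * (((M+2:ℕ):ℝ) * V) * (t ^ 2 * (1 - κ * t) ^ M) := by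
      rw [mul_assoc (1 / 2 * (((M+2:ℕ):ℝ) * V))]
      apply mul_le_mul_of_nonneg_left _ (by positivity)
      exact mul_le_mul_of_nonneg_left q1 (by positivity)
    have q4 := div_le_div_of_nonneg_right q2 (by positivity : (0:ℝ) ≤ r ^ 3)
    linarith
  have c3 : Continuous (fun t : ℝ => 1 / 2 * (((M+2:ℕ):ℝ) * V) * (t ^ 2 * (1 - κ * t) ^ M) + (1 - κ' * t) ^ (M+2) / r ^ 3) := by
    fun_prop
  have hI := intervalIntegral.norm_integral_le_of_norm_le (μ := MeasureTheory.volume) (zero_le_one) (Filter.Eventually.of_forall hb) (c3.intervalIntegrable _ _)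
  have c4 : Continuous (fun t : ℝ => 1 / 2 * (((M+2:ℕ):ℝ) * V) * (t ^ 2 * (1 - κ * t) ^ M)) := by fun_prop
  have c5 : Continuous (fun t : ℝ => (1 - κ' * t) ^ (M+2) / r ^ 3) := by fun_prop
  rw [intervalIntegral.integral_add (c4.intervalIntegrable _ _) (c5.intervalIntegrable _ _),
    intervalIntegral.integral_const_mul, intervalIntegral.integral_div] at hI
  have i1 := int_sq_pow M κ hκ0 hκ1
  have i2 := int_pow_real (M+2) κ' hκ'0 hκ'1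
  have hM3 : (0:ℝ) < (M:ℝ) + 3 := by positivity
  have j1 : 1 / 2 * (((M+2:ℕ):ℝ) * V) * (∫ t in (0:ℝ)..1, t ^ 2 * (1 - κ * t) ^ M)
      ≤ (V/(κ^3 * (M+1))) / (M + 3) := by
    refine (mul_le_mul_of_nonneg_left i1 (by positivity)).trans (le_of_eq ?_)
    push_cast
    field_simp
  have j2 : (∫ t in (0:ℝ)..1, (1 - κ' * t) ^ (M+2)) / r ^ 3 ≤ (1/(r^3*κ')) / (M+3) := by
    refine (div_le_div_of_nonneg_right i2 (by positivity)).trans (le_of_eq ?_)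
    push_cast
    field_simp
    ring
  have := hI.trans (add_le_add j1 j2)
  rw [← add_div, le_div_iff₀ hM3] at this
  linarith

end Pool.H363R3.SM2
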