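import Mathlib
import Pool.Agent.H363R3.SM2c

set_option autoImplicit false
open Polynomial

namespace Pool.H363R3.SM2

lemma sum_le_of_sq {m : ℕ} (u : Fin m → ℂ) (hU : ∑ k, ‖u k‖ ^ 2 ≤ m) : ∑ k, ‖u k‖ ≤ m := by
  have h9 : (∑ k, ‖u k‖) ^ 2 ≤ (m:ℝ) ^ 2 := by
    have := sq_sum_le_card_mul_sum_sq (s := (Finset.univ : Finset (Fin m))) (f := fun k => ‖u k‖)
    rw [Finset.card_univ, Fintype.card_fin] at this
    refine this.trans ?_
    rw [sq]
    exact mul_le_mul_of_nonneg_left hU (by positivity)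
  exact abs_le_of_sq_le_sq' h9 (by positivity) |>.2

lemma re_bound {m : ℕ} (hm : 4 ≤ m) (a : ℝ) (ha0 : 99/100 ≤ a) (ha1 : a ≤ 1)
    (ha : (1 - a) * m ≤ 1/100000) (u v : Fin m → ℂ)
    (hF : derivative (X * ∏ j, (1 + C (v j) * X)) = ∏ k, (1 + C (u k) * X))
    (hv : ∀ j, ‖1 - (a:ℂ) * v j‖ ≤ ‖v j‖)
    (hU : ∑ k, ‖u k‖ ^ 2 ≤ m) :
    (m:ℝ) - 334/100 * (1 - a) * m ^ 2 ≤ a * (∑ k, u k).re := by
  have hm4 : (4:ℝ) ≤ m := by exact_mod_cast hm
  have hsum := sum_le_of_sq u hU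
  have hvb : ∀ j, ‖v j‖ ≤ 3 / 2 * m := v_bound (by omega) u v hF hsum
  obtain ⟨id1, id2⟩ := ident u v hF
  set q : Fin m → ℝ := fun j => ‖v j‖ ^ 2 with hqdef
  set x : Fin m → ℝ := fun j => (v j).re with hxdef
  have hq0 : ∀ j, 0 ≤ q j := fun j => by rw [hqdef]; positivity
  have hq : ∀ j, 1 - 2 * a * x j + a ^ 2 * q j ≤ q j := by
    intro j
    have h1 : ‖1 - (a:ℂ) * v j‖ ^ 2 ≤ ‖v j‖ ^ 2 := pow_le_pow_left₀ (norm_nonneg _) (hv j) 2
    have h2 : ‖1 - (a:ℂ) * v j‖ ^ 2 = 1 - 2 * a * x j + a ^ 2 * q j := by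
      rw [hqdef, hxdef]; simp only
      rw [Complex.sq_norm, Complex.sq_norm, Complex.normSq_apply, Complex.normSq_apply]
      simp
      ring
    rw [h2] at h1
    exact h1
  have hxa : ∀ j, |x j| ≤ ‖v j‖ := fun j => Complex.abs_re_le_norm _
  have hε : 0 ≤ 1 - a := by linarith
  have habs : ∀ j, |x j| ≤ x j + 204/100 * (1 - a) * q j := by
    intro j
    have := hq j
    have h0 := hq0 j
    rcases le_or_gt 0 (x j) with h | h
    · rw [abs_of_nonneg h]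
      have : 0 ≤ 204/100 * (1 - a) * q j := by positivity
      linarith
    · rw [abs_of_neg h]
      have h3 : -(2 * a * x j) ≤ 2 * (1 - a) * q j := by nlinarith [mul_nonneg hε h0, mul_nonneg hε (mul_nonneg hε h0)]
      have h4 : -(2 * x j) * (99/100) ≤ -(2 * a * x j) := by nlinarith
      nlinarith [mul_nonneg hε h0]
  set S := ∑ j, q j with hS
  have hS0 : 0 ≤ S := Finset.sum_nonneg fun j _ => hq0 j
  have hxsum : ∑ j, x j = (∑ k, u k).re / 2 := by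
    rw [id1]; simp [hxdef]
  have hure : (∑ k, u k).re ≤ m := (Complex.re_le_norm _).trans ((norm_sum_le _ _).trans hsum)
  have habsum : ∑ j, |x j| ≤ m / 2 + 204/100 * (1 - a) * S := by
    refine (Finset.sum_le_sum fun j _ => habs j).trans ?_
    rw [Finset.sum_add_distrib, ← Finset.mul_sum, hxsum]
    linarith
  have hx2 : ∑ j, (x j) ^ 2 ≤ 3 / 2 * m * (m / 2 + 204/100 * (1 - a) * S) := by
    have : ∀ j, (x j) ^ 2 ≤ 3 / 2 * m * |x j| := by
      intro j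
      rw [← sq_abs, sq]
      exact mul_le_mul_of_nonneg_right ((hxa j).trans (hvb j)) (abs_nonneg _)
    refine (Finset.sum_le_sum fun j _ => this j).trans ?_
    rw [← Finset.mul_sum]
    exact mul_le_mul_of_nonneg_left habsum (by positivity)
  have hv2 : ‖∑ j, (v j) ^ 2‖ ≤ (m + (m:ℝ) ^ 2 / 4) / 3 := by
    have e : ∑ j, (v j) ^ 2 = (∑ k, (u k) ^ 2 - ((∑ k, u k) / 2) ^ 2) / 3 := by
      have : (∑ k, u k) / 2 = ∑ j, v j := by rw [id1]; ring
      rw [this]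
      rw [id1] at id2
      linear_combination (1/3) * id2
    rw [e, norm_div]
    have h3 : ‖(3:ℂ)‖ = 3 := by simp
    rw [h3]
    apply div_le_div_of_nonneg_right _ (by norm_num)
    refine (norm_sub_le _ _).trans ?_
    have h4 : ‖∑ k, (u k) ^ 2‖ ≤ m := by
      refine (norm_sum_le _ _).trans ?_
      simp only [norm_pow]
      exact hU
    have h5 : ‖((∑ k, u k) / 2) ^ 2‖ ≤ (m:ℝ) ^ 2 / 4 := by
      rw [norm_pow, norm_div]
      have h6 : ‖(2:ℂ)‖ = 2 := by simp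
      rw [h6]
      have h7 : ‖∑ k, u k‖ ≤ m := (norm_sum_le _ _).trans hsum
      have h8 : (‖∑ k, u k‖ / 2) ^ 2 ≤ ((m:ℝ) / 2) ^ 2 :=
        pow_le_pow_left₀ (by positivity) (by linarith) 2
      refine h8.trans (le_of_eq (by ring))
    linarith
  have hSeq : S = 2 * ∑ j, (x j) ^ 2 - (∑ j, (v j) ^ 2).re := by
    rw [Complex.re_sum, hS, Finset.mul_sum, ← Finset.sum_sub_distrib]
    refine Finset.sum_congr rfl fun j _ => ?_
    rw [hqdef, hxdef]; simp only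
    rw [Complex.sq_norm, Complex.normSq_apply, sq (v j), Complex.mul_re]; ring
  have hre2 : -(∑ j, (v j) ^ 2).re ≤ (m + (m:ℝ) ^ 2 / 4) / 3 := by
    have := (Complex.abs_re_le_norm (∑ j, (v j) ^ 2)).trans hv2
    linarith [neg_abs_le (∑ j, (v j) ^ 2).re]
  have hSle : S ≤ 167/100 * (m:ℝ) ^ 2 := by
    have h1 : S ≤ 2 * (3 / 2 * m * (m / 2 + 204/100 * (1 - a) * S)) + (m + (m:ℝ) ^ 2 / 4) / 3 := by linarith
    have h2 : (1 - a) * m * S ≤ 1/100000 * S := mul_le_mul_of_nonneg_right ha hS0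
    nlinarith
  have hfin : (m:ℝ) - 2 * a * ∑ j, x j + a ^ 2 * S ≤ S := by
    have := Finset.sum_le_sum fun j (_ : j ∈ Finset.univ) => hq j
    rw [Finset.sum_add_distrib, Finset.sum_sub_distrib, ← Finset.mul_sum, ← Finset.mul_sum] at this
    simpa using this
  rw [hxsum] at hfin
  have h9 : (1 - a ^ 2) * S ≤ 2 * (1 - a) * S := by
    apply mul_le_mul_of_nonneg_right _ hS0
    nlinarith
  have h10 : 2 * (1 - a) * S ≤ 2 * (1 - a) * (167/100 * (m:ℝ) ^ 2) :=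
    mul_le_mul_of_nonneg_left hSle (by positivity)
  linarith

/-- geometry of `1 - tβ`. -/
lemma norm_one_sub (β : ℂ) (η : ℝ) (h0 : 0 ≤ η) (h1 : η ≤ 1) (hβ : ‖β‖ ≤ 1) (hre : 1 - η ^ 2 / 2 ≤ β.re)
    (t : ℝ) (ht : t ∈ Set.Icc (0:ℝ) 1) : ‖1 - (t:ℂ) * β‖ ≤ 1 - (1 - η) * t := by
  have hn : 0 ≤ 1 - (1 - η) * t := by nlinarith [ht.1, ht.2]
  apply abs_le_of_sq_le_sq' _ hn |>.2
  have h2 : ‖1 - (t:ℂ) * β‖ ^ 2 = 1 - 2 * t * β.re + t ^ 2 * ‖β‖ ^ 2 := by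
    rw [Complex.sq_norm, Complex.sq_norm, Complex.normSq_apply, Complex.normSq_apply]
    simp
    ring
  rw [h2]
  have h3 : ‖β‖ ^ 2 ≤ 1 := by nlinarith [norm_nonneg β]
  have h4 : t ^ 2 * ‖β‖ ^ 2 ≤ t ^ 2 * 1 := mul_le_mul_of_nonneg_left h3 (by positivity)
  have h5 : t * (1 - η ^ 2 / 2) ≤ t * β.re := mul_le_mul_of_nonneg_left hre ht.1
  have h6 : 0 ≤ t * (1 - t) * η * (2 - η) := by
    have := ht.1; have := ht.2
    apply mul_nonneg (mul_nonneg (mul_nonneg ht.1 (by linarith)) h0) (by linarith)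
  nlinarith

end Pool.H363R3.SM2
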