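import Mathlib
import Pool.Agent.H363R3.SM2d

set_option autoImplicit false
set_option maxHeartbeats 4000000
open Polynomial

namespace Pool.H363R3.SM2

lemma prod_norm_le_one {m : ℕ} (hm : 0 < m) (u : Fin m → ℂ) (hU : ∑ k, ‖u k‖ ^ 2 ≤ m) :
    ∏ k, ‖u k‖ ≤ 1 := by
  have hm' : (0:ℝ) < m := by exact_mod_cast hm
  have h := amgm hm (fun k => ‖u k‖ ^ 2) (fun k => by positivity)
  rw [Finset.prod_pow] at h
  have h1 : (∑ k, ‖u k‖ ^ 2) / m ≤ 1 := by rw [div_le_one hm']; exact hU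
  have h2 : ((∑ k, ‖u k‖ ^ 2) / m) ^ m ≤ 1 := pow_le_one₀ (by positivity) h1
  have h3 : (∏ k, ‖u k‖) ^ 2 ≤ 1 ^ 2 := by simpa using h.trans h2
  exact abs_le_of_sq_le_sq' h3 (by norm_num) |>.2

lemma variance {m : ℕ} (hm : 0 < m) (u : Fin m → ℂ) :
    ∑ k, ‖u k - (∑ i, u i) / m‖ ^ 2 = ∑ k, ‖u k‖ ^ 2 - m * ‖(∑ i, u i) / (m:ℂ)‖ ^ 2 := by
  have hm' : (m:ℝ) ≠ 0 := by exact_mod_cast hm.ne'
  have hm'' : (m:ℂ) ≠ 0 := by exact_mod_cast hm.ne'
  set c := (∑ i, u i) / (m:ℂ) with hc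
  have hs : ∑ i, u i = m * c := by rw [hc]; field_simp
  have hre : ∑ i, (u i).re = m * c.re := by
    have := congrArg Complex.re hs
    simpa using this
  have him : ∑ i, (u i).im = m * c.im := by
    have := congrArg Complex.im hs
    simpa using this
  have e : ∀ k, ‖u k - c‖ ^ 2 = ‖u k‖ ^ 2 + (‖c‖ ^ 2 - 2 * c.re * (u k).re - 2 * c.im * (u k).im) := by
    intro k
    rw [Complex.sq_norm, Complex.sq_norm, Complex.sq_norm, Complex.normSq_apply, Complex.normSq_apply, Complex.normSq_apply]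
    simp; ring
  rw [Finset.sum_congr rfl fun k _ => e k, Finset.sum_add_distrib, Finset.sum_sub_distrib, Finset.sum_sub_distrib,
    ← Finset.mul_sum, ← Finset.mul_sum, hre, him]
  simp only [Finset.sum_const, Finset.card_univ, Fintype.card_fin, nsmul_eq_mul]
  rw [Complex.sq_norm, Complex.normSq_apply]
  ring

end Pool.H363R3.SM2
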