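import Mathlib
import Pool.Agent.H363R3.SM2v

set_option autoImplicit false
set_option maxHeartbeats 4000000
open Polynomial

namespace Pool.H363R3.SM2

theorem core1 (M : ℕ) (hM : 2 ≤ M) (a : ℝ) (ha1 : a ≤ 1) (ha : (1 - a) * (M + 3) ≤ 1/100000)
    (u v : Fin (M+2) → ℂ)
    (hF : derivative (X * ∏ j, (1 + C (v j) * X)) = ∏ k, (1 + C (u k) * X))
    (hv : ∀ j, ‖1 - (a:ℂ) * v j‖ ≤ ‖v j‖)
    (hprod : ((M:ℝ) + 3) * ∏ j, ‖v j‖ = ∏ k, ‖u k‖) :
    (M:ℝ) + 2 ≤ ∑ k, ‖u k‖ ^ 2 := by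
  by_contra hcon
  push Not at hcon
  have hMr : (2:ℝ) ≤ M := by exact_mod_cast hM
  obtain ⟨m, hmr⟩ : ∃ m : ℝ, m = (M:ℝ) + 2 := ⟨_, rfl⟩
  have hmr' : ((M+2:ℕ):ℝ) = m := by rw [hmr]; push_cast; ring
  have hmc : ((M+2:ℕ):ℂ) = (m:ℂ) := by rw [← hmr']; push_cast; ring
  have hm0 : (0:ℝ) < m := by rw [hmr]; positivity
  have hmc0 : (m:ℂ) ≠ 0 := by exact_mod_cast hm0.ne'
  set ε := 1 - a with hε
  have hε0 : 0 ≤ ε := by linarith
  have hεm : ε * m ≤ 1/100000 := by rw [hmr]; linarith only [ha, hε0]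
  have hm4 : (4:ℝ) ≤ m := by rw [hmr]; linarith only [hMr]
  have hε1 : ε ≤ 1/100000 := by linarith only [hεm, hε0, mul_nonneg hε0 (sub_nonneg.mpr hm4)]
  have ha0 : 99/100 ≤ a := by linarith
  have hUle' : ∑ k, ‖u k‖ ^ 2 ≤ ((M+2:ℕ):ℝ) := by rw [hmr', hmr]; exact hcon.le
  have hre := re_bound (m := M+2) (by omega) a ha0 ha1 (by rw [hmr']; exact hεm) u v hF hv hUle'
  rw [← hε, hmr'] at hre
  set c : ℂ := (∑ i, u i) / (m:ℂ) with hc
  set β : ℂ := a * c with hβ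
  have hβre : 1 - 334/100 * (ε * m) ≤ β.re := by
    have h1 : β.re = a * (∑ k, u k).re / m := by
      rw [hβ, hc]
      have : (a:ℂ) * ((∑ i, u i) / (m:ℂ)) = ((a * m⁻¹ : ℝ) : ℂ) * ∑ i, u i := by
        push_cast; field_simp
      rw [this, Complex.re_ofReal_mul]; field_simp
    rw [h1, le_div_iff₀ hm0]
    linarith only [hre]
  -- variance
  set V : ℝ := (∑ k, ‖u k‖ ^ 2) / m - ‖c‖ ^ 2 with hV
  have hvar := variance (m := M+2) (by omega) u
  rw [hmc, hmr', ← hc] at hvar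
  have hvar' : ∑ k, ‖u k - c‖ ^ 2 = m * V := by
    rw [hvar, hV]; field_simp
  have hV0 : 0 ≤ V := by
    have : 0 ≤ m * V := by rw [← hvar']; positivity
    exact nonneg_of_mul_nonneg_right this hm0
  have hs1 : (∑ k, ‖u k‖ ^ 2) / m < 1 := by rw [div_lt_one hm0, hmr]; exact hcon
  have hcsq : ‖c‖ ^ 2 < 1 - V := by linarith
  have hc1 : ‖c‖ < 1 := by
    nlinarith only [hcsq, hV0, norm_nonneg c]
  have hβn : ‖β‖ = a * ‖c‖ := by
    rw [hβ, norm_mul, Complex.norm_real, Real.norm_eq_abs, abs_of_nonneg (by linarith)]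
  have hβc : ‖β‖ ≤ ‖c‖ := by rw [hβn]; linarith only [mul_nonneg (sub_nonneg.mpr ha1) (norm_nonneg c)]
  have hβ1 : ‖β‖ < 1 := lt_of_le_of_lt hβc hc1
  have hβre1 : β.re ≤ ‖β‖ := Complex.re_le_norm _
  set η : ℝ := √(7 * (ε * m)) with hη
  have hηsq : η ^ 2 = 7 * (ε * m) := Real.sq_sqrt (by positivity)
  have hη0 : 0 ≤ η := Real.sqrt_nonneg _
  have hη1 : η ≤ 84/10000 := by
    apply abs_le_of_sq_le_sq' _ (by norm_num) |>.2
    rw [hηsq]; linarith
  have hβη : 1 - η ^ 2 / 2 ≤ β.re := by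
    rw [hηsq]
    have : 0 ≤ ε * m := by positivity
    linarith
  set κ : ℝ := 1 - η with hκ
  have hA := norm_one_sub β η hη0 (by linarith) hβ1.le hβη
  rw [← hκ] at hA
  have hVη : V ≤ η ^ 2 := by
    have h1 : 1 - η ^ 2 / 2 ≤ ‖c‖ := by linarith
    have h2 : 0 ≤ 1 - η ^ 2 / 2 := by linarith only [hηsq, hεm]
    have h3 : (1 - η ^ 2 / 2) ^ 2 ≤ ‖c‖ ^ 2 := pow_le_pow_left₀ h2 h1 2
    linarith only [h3, hcsq, sq_nonneg (η ^ 2)]
  have hsV : √V ≤ η := by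
    rw [show η = √(η ^ 2) from (Real.sqrt_sq hη0).symm]
    exact Real.sqrt_le_sqrt hVη
  -- the deviations
  set d : Fin (M+2) → ℂ := fun k => a * (u k - c) with hd
  have hds : ∑ k, d k = 0 := by
    rw [hd]; simp only
    rw [← Finset.mul_sum, Finset.sum_sub_distrib]
    simp only [Finset.sum_const, Finset.card_univ, Fintype.card_fin, nsmul_eq_mul]
    rw [hmc, hc]; field_simp; ring
  have hdV : ∑ k, ‖d k‖ ^ 2 ≤ ((M+2:ℕ):ℝ) * V := by
    rw [hmr', ← hvar']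
    refine Finset.sum_le_sum fun k _ => ?_
    rw [hd]; simp only
    rw [norm_mul, Complex.norm_real, Real.norm_eq_abs, abs_of_nonneg (by linarith : 0 ≤ a)]
    apply pow_le_pow_left₀ (mul_nonneg (by linarith only [ha0]) (norm_nonneg _))
    have := norm_nonneg (u k - c)
    linarith only [mul_nonneg (sub_nonneg.mpr ha1) this]
  have hβd : ∀ k, β + d k = a * u k := by
    intro k; rw [hβ, hd]; ring
  -- J
  have ha_ne : -(a:ℂ) ≠ 0 := by
    rw [neg_ne_zero]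
    have : a ≠ 0 := by linarith
    exact_mod_cast this
  have hJ := integral_seg u v hF (-(a:ℂ)) ha_ne
  set J : ℂ := ∫ t in (0:ℝ)..1, ∏ k, (1 - (t:ℂ) * (β + d k)) with hJdef
  have hJ' : J = ∏ j, (1 - (a:ℂ) * v j) := by
    rw [hJdef]
    have e1 : ∀ t : ℝ, ∏ k, (1 - (t:ℂ) * (β + d k)) = ∏ k, (1 + u k * (-(a:ℂ) * t)) := by
      intro t
      refine Finset.prod_congr rfl fun k _ => ?_
      rw [hβd k]; ring
    simp only [e1]
    rw [hJ]
    refine Finset.prod_congr rfl fun k _ => by ring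
  have hJn : ((M:ℝ) + 3) * ‖J‖ ≤ 1 := by
    have h1 : ‖J‖ ≤ ∏ j, ‖v j‖ := by
      rw [hJ', norm_prod]
      exact Finset.prod_le_prod (fun j _ => norm_nonneg _) fun j _ => hv j
    calc ((M:ℝ) + 3) * ‖J‖ ≤ ((M:ℝ) + 3) * ∏ j, ‖v j‖ := mul_le_mul_of_nonneg_left h1 (by positivity)
      _ = ∏ k, ‖u k‖ := hprod
      _ ≤ 1 := prod_norm_le_one (by omega) u hUle'
  set J0 : ℂ := ∫ t in (0:ℝ)..1, (1 - (t:ℂ)*β)^(M+2) with hJ0def
  have hJ0 : ((M:ℂ) + 3) * β * J0 = 1 - (1 - β) ^ (M + 3) := by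
    have := int_pow (M+2) β
    rw [← hJ0def] at this
    rw [← this]; push_cast; ring
  have hκ0 : 9916/10000 ≤ κ := by rw [hκ]; linarith
  have h1β : ‖1 - β‖ ≤ η := by
    have := hA 1 ⟨by norm_num, le_refl _⟩
    rw [hκ] at this
    simpa using this
  -- tail
  have htail : η ^ (M+3) ≤ 7/1000 * ε := by
    have h1 : η ^ (M+3) = η ^ 2 * η ^ (M+1) := by ring
    rw [h1, hηsq]
    have h2 : η ^ (M+1) ≤ (1/100) ^ (M+1) := pow_le_pow_left₀ hη0 (by linarith) _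
    have h3 : m ≤ 2 ^ (M+1) := by
      have : M + 1 < 2 ^ (M+1) := Nat.lt_two_pow_self
      have h4 : M + 2 ≤ 2 ^ (M+1) := by omega
      rw [hmr]
      exact_mod_cast h4
    have h4 : (m:ℝ) * η ^ (M+1) ≤ 2 ^ (M+1) * (1/100) ^ (M+1) :=
      mul_le_mul h3 h2 (by positivity) (by positivity)
    rw [← mul_pow] at h4
    have h5 : ((2:ℝ) * (1/100)) ^ (M+1) ≤ (2 * (1/100)) ^ 3 :=
      pow_le_pow_of_le_one (by norm_num) (by norm_num) (by omega)
    have h6 : (m:ℝ) * η ^ (M+1) ≤ 1/1000 := by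
      refine h4.trans (h5.trans ?_); norm_num
    calc 7 * (ε * m) * η ^ (M+1) = 7 * ε * (m * η ^ (M+1)) := by ring
      _ ≤ 7 * ε * (1/1000) := mul_le_mul_of_nonneg_left h6 (by positivity)
      _ = 7/1000 * ε := by ring
  have hmain : ∀ r : ℝ, 1 ≤ r → r * √V < κ →
      1 - 7/1000 * ε ≤ a * (1 - V/2) + (V/(κ^3 * (M+1)) + 1/(r^3*(κ - r*√V))) := by
    intro r hr hrV
    have hst := step M β d V κ r hds hV0 hdV (by linarith) (by rw [hκ]; linarith) hA hβ1 hr hrV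
    rw [← hJdef, ← hJ0def] at hst
    have e1 : ‖(1:ℂ) - (1 - β) ^ (M + 3)‖ ≥ 1 - η ^ (M+3) := by
      have h1 : ‖(1 - β) ^ (M + 3)‖ ≤ η ^ (M+3) := by
        rw [norm_pow]; exact pow_le_pow_left₀ (norm_nonneg _) h1β _
      have h2 := norm_sub_norm_le (1:ℂ) ((1 - β) ^ (M + 3))
      rw [norm_one] at h2
      linarith
    rw [← hJ0] at e1
    have hn3 : ‖((M:ℂ) + 3)‖ = (M:ℝ) + 3 := by
      have : ((M:ℂ) + 3) = (((M:ℝ) + 3 : ℝ) : ℂ) := by push_cast; ring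
      rw [this, Complex.norm_real, Real.norm_eq_abs, abs_of_pos (by positivity)]
    have e2 : ‖((M:ℂ) + 3) * β * J0‖ ≤ ‖β‖ * (((M:ℝ) + 3) * ‖J‖) + ‖β‖ * (((M:ℝ) + 3) * ‖J - J0‖) := by
      rw [norm_mul, norm_mul, hn3]
      have h3 : ‖J0‖ ≤ ‖J‖ + ‖J - J0‖ := by
        have := norm_sub_norm_le J0 J
        rw [norm_sub_rev J0 J] at this
        linarith
      have h4 := mul_le_mul_of_nonneg_left h3 (by positivity : 0 ≤ ((M:ℝ)+3) * ‖β‖)
      linarith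
    have e3 : ‖β‖ * (((M:ℝ) + 3) * ‖J‖) ≤ ‖β‖ := by
      have := mul_le_mul_of_nonneg_left hJn (norm_nonneg β)
      linarith
    have e4 : ‖β‖ * (((M:ℝ) + 3) * ‖J - J0‖) ≤ V/(κ^3 * (M+1)) + 1/(r^3*(κ - r*√V)) := by
      have h5 : 0 ≤ ((M:ℝ) + 3) * ‖J - J0‖ := by positivity
      have : ‖β‖ * (((M:ℝ) + 3) * ‖J - J0‖) ≤ 1 * (((M:ℝ) + 3) * ‖J - J0‖) :=
        mul_le_mul_of_nonneg_right hβ1.le h5
      linarith
    have e5 : ‖β‖ ≤ a * (1 - V/2) := by
      rw [hβn]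
      apply mul_le_mul_of_nonneg_left _ (by linarith)
      have hV1 : V ≤ 1 := by linarith only [hcsq, sq_nonneg ‖c‖]
      apply abs_le_of_sq_le_sq' _ (by linarith only [hV1] : 0 ≤ 1 - V/2) |>.2
      linarith only [hcsq, sq_nonneg V]
    linarith
  have hV1 : V ≤ 1/100 := by linarith only [hVη, hηsq, hεm]
  rcases eq_or_lt_of_le hV0 with hVz | hVp
  · -- V = 0
    have hεp : 0 < ε := by
      rcases eq_or_lt_of_le hε0 with h | h
      · exfalso
        rw [← h] at hβre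
        have : (1:ℝ) ≤ β.re := by simpa using hβre
        linarith
      · exact h
    have := hmain (4/ε) (by rw [le_div_iff₀ hεp]; linarith) (by rw [← hVz]; simp; linarith)
    rw [← hVz] at this
    simp only [Real.sqrt_zero, mul_zero, sub_zero, zero_div, zero_add, mul_one] at this
    have h2 : 1 / ((4/ε) ^ 3 * κ) ≤ ε / 4 := by
      rw [div_pow, div_mul_eq_mul_div, one_div_div, div_le_div_iff₀ (by positivity) (by norm_num)]
      have : ε ^ 3 ≤ ε * 1 := by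
        rw [pow_succ, mul_comm]
        apply mul_le_mul_of_nonneg_left _ hε0
        exact pow_le_one₀ hε0 (by linarith only [hε1])
      nlinarith only [this, hκ0, hε0, mul_nonneg hε0 (sub_nonneg.mpr hκ0)]
    linarith
  · -- V > 0
    have hsVp : 0 < √V := Real.sqrt_pos.mpr hVp
    set r : ℝ := 3 / (4 * √V) with hr
    have hrV : r * √V = 3/4 := by rw [hr]; field_simp
    have hr1 : 1 ≤ r := by
      rw [hr, le_div_iff₀ (by positivity)]; linarith
    have := hmain r hr1 (by rw [hrV]; linarith)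
    rw [hrV] at this
    have hrp : 0 < r := by linarith
    have h2 : 1 / (r ^ 3 * (κ - 3/4)) ≤ 825/10000 * V := by
      have e : 1 / (r ^ 3 * (κ - 3/4)) = 64/27 * V * √V / (κ - 3/4) := by
        have hk : κ - 3/4 ≠ 0 := by linarith
        have hr3 : r ^ 3 = 27 / (64 * (V * √V)) := by
          have h7 : √V ^ 3 = V * √V := by rw [pow_succ, Real.sq_sqrt hV0]
          rw [hr, div_pow, mul_pow, h7]; norm_num
        rw [hr3]
        clear_value r κ
        field_simp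
      rw [e, div_le_iff₀ (by linarith)]
      have h3 : V * √V ≤ V * (84/10000) := mul_le_mul_of_nonneg_left (hsV.trans hη1) hV0
      linarith only [h3, hV0, mul_nonneg hV0 (sub_nonneg.mpr hκ0)]
    have h4 : V/(κ^3 * (M+1)) ≤ 342/1000 * V := by
      rw [div_le_iff₀ (by positivity)]
      have h5 : (975/1000 : ℝ) ≤ κ ^ 3 := by
        have : (9916/10000:ℝ) ^ 3 ≤ κ ^ 3 := pow_le_pow_left₀ (by norm_num) hκ0 3
        refine le_trans (by norm_num) this
      have h6 : (975/1000 : ℝ) * 3 ≤ κ ^ 3 * (M + 1) := mul_le_mul h5 (by linarith) (by norm_num) (by positivity)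
      linarith only [mul_le_mul_of_nonneg_left h6 hV0, hV0]
    have haV : a * (1 - V / 2) = 1 - ε - V / 2 + ε * V / 2 := by rw [hε]; ring
    rw [haV] at this
    linarith only [this, h2, h4, hVp, hε0, hε1, mul_le_mul_of_nonneg_right hε1 hV0]

end Pool.H363R3.SM2
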