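import Mathlib
import Pool.Agent.H363R3.SM2a

set_option autoImplicit false
set_option maxHeartbeats 4000000
open Polynomial

namespace Pool.H363R3.SM2

/-- extraction of the critical points. -/
lemma exists_crit (m : ℕ) (p : ℂ[X]) (hp : p.Monic) (hdeg : p.natDegree = m + 1) :
    ∃ w : Fin m → ℂ, derivative p = C ((m:ℂ) + 1) * ∏ k, (X - C (w k)) ∧
      (derivative p).roots = (Finset.univ.val.map w : Multiset ℂ) := by
  have hlc : (derivative p).coeff m = (m:ℂ) + 1 := by
    rw [coeff_derivative, ← hdeg, hp.coeff_natDegree, one_mul]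
  have hne : ((m:ℂ) + 1) ≠ 0 := by exact_mod_cast Nat.succ_ne_zero m
  have hnd : (derivative p).natDegree = m := by
    apply le_antisymm
    · have := natDegree_derivative_le p; omega
    · apply le_natDegree_of_ne_zero
      rw [hlc]; exact hne
  have hcard : (derivative p).roots.card = (derivative p).natDegree := IsAlgClosed.card_roots_eq_natDegree
  have hprod := C_leadingCoeff_mul_prod_multiset_X_sub_C hcard
  rw [leadingCoeff, hnd, hlc] at hprod
  have hlen : (derivative p).roots.toList.length = m := by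
    rw [Multiset.length_toList, hcard, hnd]
  set w : Fin m → ℂ := fun i => (derivative p).roots.toList.get (i.cast hlen.symm) with hw
  have hroots : (derivative p).roots = (Finset.univ.val.map w : Multiset ℂ) := by
    rw [Fin.univ_val_map]
    conv_lhs => rw [← Multiset.coe_toList (derivative p).roots]
    congr 1
    apply List.ext_get
    · simp [hlen]
    · intro n h1 h2
      simp [hw]
  refine ⟨w, ?_, hroots⟩
  rw [← hprod, hroots, Multiset.map_map]
  rfl

/-- reduction to normalised data. -/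
lemma reduction {m : ℕ} (a : ℂ) (z w : Fin m → ℂ)
    (hder : derivative ((X - C a) * ∏ j, (X - C (z j))) = C ((m:ℂ) + 1) * ∏ k, (X - C (w k)))
    (hw : ∀ k, w k ≠ a) :
    (∀ j, z j ≠ a) ∧
    derivative (X * ∏ j, (1 + C ((a - z j)⁻¹) * X)) = ∏ k, (1 + C ((a - w k)⁻¹) * X) ∧
    ((m:ℝ) + 1) * ∏ j, ‖(a - z j)⁻¹‖ = ∏ k, ‖(a - w k)⁻¹‖ := by
  have hne : ((m:ℂ) + 1) ≠ 0 := by exact_mod_cast Nat.succ_ne_zero m
  -- value at a
  have hval : ∏ j, (a - z j) = ((m:ℂ) + 1) * ∏ k, (a - w k) := by
    have := congrArg (fun q => eval a q) hder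
    simp only [derivative_mul, derivative_sub, derivative_X, derivative_C, sub_zero, one_mul, eval_add, eval_mul,
      eval_sub, eval_X, eval_C, sub_self, zero_mul, add_zero, eval_prod] at this
    exact this
  have hwne : ∏ k, (a - w k) ≠ 0 := Finset.prod_ne_zero_iff.mpr fun k _ => sub_ne_zero.mpr (hw k).symm
  have hzne : ∏ j, (a - z j) ≠ 0 := by rw [hval]; exact mul_ne_zero hne hwne
  have hz : ∀ j, a - z j ≠ 0 := fun j => (Finset.prod_ne_zero_iff.mp hzne) j (Finset.mem_univ j)
  have hz' : ∀ j, z j ≠ a := fun j h => hz j (by rw [h]; ring)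
  have hw' : ∀ k, a - w k ≠ 0 := fun k => sub_ne_zero.mpr (hw k).symm
  refine ⟨hz', ?_, ?_⟩
  · have hcomp := congrArg (fun q => q.comp (X + C a)) hder
    beta_reduce at hcomp
    have e1 : (derivative ((X - C a) * ∏ j, (X - C (z j)))).comp (X + C a)
        = derivative (((X - C a) * ∏ j, (X - C (z j))).comp (X + C a)) := by
      rw [derivative_comp]; simp
    have e2 : ((X - C a) * ∏ j, (X - C (z j))).comp (X + C a)
        = C (∏ j, (a - z j)) * (X * ∏ j, (1 + C ((a - z j)⁻¹) * X)) := by
      rw [mul_comp, prod_comp]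
      have : ∀ j, (X - C (z j)).comp (X + C a) = C (a - z j) * (1 + C ((a - z j)⁻¹) * X) := by
        intro j
        simp only [sub_comp, X_comp, C_comp]
        rw [mul_add, mul_one, ← mul_assoc, ← C_mul, mul_inv_cancel₀ (hz j), C_sub]
        simp; ring
      rw [Finset.prod_congr rfl fun j _ => this j, Finset.prod_mul_distrib, ← map_prod]
      simp only [sub_comp, X_comp, C_comp]
      ring
    have e3 : (C ((m:ℂ) + 1) * ∏ k, (X - C (w k))).comp (X + C a)
        = C (∏ j, (a - z j)) * ∏ k, (1 + C ((a - w k)⁻¹) * X) := by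
      rw [mul_comp, prod_comp, C_comp]
      have : ∀ k, (X - C (w k)).comp (X + C a) = C (a - w k) * (1 + C ((a - w k)⁻¹) * X) := by
        intro k
        simp only [sub_comp, X_comp, C_comp]
        rw [mul_add, mul_one, ← mul_assoc, ← C_mul, mul_inv_cancel₀ (hw' k), C_sub]
        simp; ring
      rw [Finset.prod_congr rfl fun k _ => this k, Finset.prod_mul_distrib, ← map_prod, hval, C_mul]
      ring
    rw [e1, e2, e3, derivative_C_mul] at hcomp
    exact mul_left_cancel₀ (by rw [Ne, C_eq_zero]; exact hzne) hcomp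
  · have h1 : ‖∏ j, (a - z j)‖ = ((m:ℝ) + 1) * ‖∏ k, (a - w k)‖ := by
      rw [hval, norm_mul]
      congr 1
      have : ((m:ℂ) + 1) = (((m:ℝ) + 1 : ℝ) : ℂ) := by push_cast; ring
      rw [this, Complex.norm_real, Real.norm_eq_abs, abs_of_pos (by positivity)]
    simp only [norm_inv, Finset.prod_inv_distrib]
    rw [← norm_prod, ← norm_prod, h1]
    have h2 : ‖∏ k, (a - w k)‖ ≠ 0 := norm_ne_zero_iff.mpr hwne
    have h3 : ((m:ℝ) + 1) ≠ 0 := by positivity
    field_simp

end Pool.H363R3.SM2
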