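import Mathlib
import Pool.Agent.H363R3.SM2e
import Pool.Agent.H363R3.SM2f

set_option autoImplicit false
set_option maxHeartbeats 4000000
open Polynomial

namespace Pool.H363R3.SM2

lemma monic_p {m : ℕ} (a : ℂ) (z : Fin m → ℂ) :
    ((X - C a) * ∏ j, (X - C (z j))).Monic ∧ ((X - C a) * ∏ j, (X - C (z j))).natDegree = m + 1 := by
  have h1 : (∏ j, (X - C (z j))).Monic := monic_prod_of_monic _ _ fun j _ => monic_X_sub_C _
  have h2 : (X - C a).Monic := monic_X_sub_C a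
  refine ⟨h2.mul h1, ?_⟩
  rw [h2.natDegree_mul h1, natDegree_X_sub_C, natDegree_prod_of_monic _ _ fun j _ => monic_X_sub_C _]
  simp; ring

lemma hv_of_hz {m : ℕ} (a : ℝ) (z : Fin m → ℂ) (hz : ∀ j, ‖z j‖ ≤ 1) (hne : ∀ j, z j ≠ a) (j : Fin m) :
    ‖1 - (a:ℂ) * ((a:ℂ) - z j)⁻¹‖ ≤ ‖((a:ℂ) - z j)⁻¹‖ := by
  have h : (a:ℂ) - z j ≠ 0 := sub_ne_zero.mpr (hne j).symm
  have e : 1 - (a:ℂ) * ((a:ℂ) - z j)⁻¹ = - (z j * ((a:ℂ) - z j)⁻¹) := by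
    field_simp; ring
  rw [e, norm_neg, norm_mul]
  have := mul_le_mul_of_nonneg_right (hz j) (norm_nonneg ((a:ℂ) - z j)⁻¹)
  linarith

theorem near_one (m : ℕ) (hm : 4 ≤ m) (a : ℝ) (ha : 1 - 1 / (100000 * ((m:ℝ) + 1)) ≤ a) (ha1 : a ≤ 1)
    (z : Fin m → ℂ) (hz : ∀ j, ‖z j‖ ≤ 1) :
    ((a : ℂ) ∈ (derivative ((X - C (a : ℂ)) * ∏ j, (X - C (z j)))).roots) ∨
      (m : ℝ) ≤ (((derivative ((X - C (a : ℂ)) * ∏ j, (X - C (z j)))).roots).map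
          (fun w : ℂ => (‖w - (a : ℂ)‖ ^ 2)⁻¹)).sum := by
  obtain ⟨hmon, hdeg⟩ := monic_p (a:ℂ) z
  obtain ⟨w, hder, hroots⟩ := exists_crit m _ hmon hdeg
  by_cases hmem : (a : ℂ) ∈ (derivative ((X - C (a : ℂ)) * ∏ j, (X - C (z j)))).roots
  · exact Or.inl hmem
  right
  have hw : ∀ k, w k ≠ a := by
    intro k h
    apply hmem
    rw [hroots, Multiset.mem_map]
    exact ⟨k, Finset.mem_univ_val k, h⟩
  obtain ⟨hne, hF, hprod⟩ := reduction (a:ℂ) z w hder hw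
  obtain ⟨M, rfl⟩ : ∃ M, m = M + 2 := ⟨m - 2, by omega⟩
  have h := core1 M (by omega) a ha1 (by
      have h1 : (0:ℝ) < 100000 * (((M+2:ℕ):ℝ) + 1) := by positivity
      have h2 : (1 - a) * (100000 * (((M+2:ℕ):ℝ) + 1)) ≤ 1 := by
        rw [← le_div_iff₀ h1]; linarith
      push_cast at h2
      linarith) (fun k => ((a:ℂ) - w k)⁻¹) (fun j => ((a:ℂ) - z j)⁻¹) hF (hv_of_hz a z hz hne) (by
        have := hprod; push_cast at this
        rw [show (M:ℝ) + 3 = (M:ℝ) + 2 + 1 by ring]; exact this)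
  rw [hroots, Multiset.map_map]
  have e : (Multiset.map ((fun w : ℂ => (‖w - (a : ℂ)‖ ^ 2)⁻¹) ∘ w) Finset.univ.val).sum
      = ∑ k, ‖((a:ℂ) - w k)⁻¹‖ ^ 2 := by
    rw [Finset.sum]
    congr 1
    refine Multiset.map_congr rfl fun k _ => ?_
    simp only [Function.comp]
    rw [norm_inv, inv_pow, norm_sub_rev]
  rw [e]
  push_cast
  exact h

end Pool.H363R3.SM2
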