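import Mathlib
import Pool.Agent.H363R3.SM2d

set_option autoImplicit false
set_option maxHeartbeats 4000000
open Polynomial

namespace Pool.H363R3.SM2

lemma hasDerivAt_prod {m : ℕ} (x : Fin m → ℂ) (t : ℝ) :
    HasDerivAt (fun t : ℝ => ∏ k, (1 - (t:ℂ) * x k))
      (-((∑ k, x k) * ∏ k, (1 - (t:ℂ) * x k)
        + (t:ℂ) * ∑ k, (x k) ^ 2 * ∏ l ∈ Finset.univ.erase k, (1 - (t:ℂ) * x l))) t := by
  have h1 : ∀ k ∈ (Finset.univ : Finset (Fin m)), HasDerivAt (fun t : ℝ => 1 - (t:ℂ) * x k) (-(1 * x k)) t := by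
    intro k _
    have h2 : HasDerivAt (fun w : ℂ => 1 - w * x k) (-(1 * x k)) (t:ℂ) :=
      ((hasDerivAt_id (t:ℂ)).mul_const (x k)).const_sub 1
    exact h2.comp_ofReal
  have h3 := HasDerivAt.fun_finsetProd h1
  refine h3.congr_deriv ?_
  rw [Finset.sum_mul, Finset.mul_sum, ← Finset.sum_add_distrib, ← Finset.sum_neg_distrib]
  refine Finset.sum_congr rfl fun k hk => ?_
  rw [← Finset.mul_prod_erase _ _ hk, smul_eq_mul]
  ring

lemma ident_int {m : ℕ} (x : Fin m → ℂ) (T : ℝ) :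
    1 - ∏ k, (1 - (T:ℂ) * x k) = (∑ k, x k) * (∫ t in (0:ℝ)..T, ∏ k, (1 - (t:ℂ) * x k))
      + ∫ t in (0:ℝ)..T, (t:ℂ) * ∑ k, (x k) ^ 2 * ∏ l ∈ Finset.univ.erase k, (1 - (t:ℂ) * x l) := by
  have c1 : Continuous (fun t : ℝ => ∏ k, (1 - (t:ℂ) * x k)) := by fun_prop
  have c2 : Continuous (fun t : ℝ => (t:ℂ) * ∑ k, (x k) ^ 2 * ∏ l ∈ Finset.univ.erase k, (1 - (t:ℂ) * x l)) := by
    fun_prop
  have c3 : Continuous (fun t : ℝ => -((∑ k, x k) * ∏ k, (1 - (t:ℂ) * x k)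
        + (t:ℂ) * ∑ k, (x k) ^ 2 * ∏ l ∈ Finset.univ.erase k, (1 - (t:ℂ) * x l))) := by
    fun_prop
  have h := intervalIntegral.integral_eq_sub_of_hasDerivAt (a := 0) (b := T)
    (fun t _ => hasDerivAt_prod x t) (c3.intervalIntegrable _ _)
  rw [intervalIntegral.integral_neg, intervalIntegral.integral_add
    ((c1.const_mul _).intervalIntegrable _ _) (c2.intervalIntegrable _ _),
    intervalIntegral.integral_const_mul] at h
  simp only [Complex.ofReal_zero, zero_mul, sub_zero, Finset.prod_const_one] at h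
  linear_combination h

lemma le_exp_sq (z : ℝ) : z ≤ Real.exp ((z ^ 2 - 1) / 2) := by
  have := Real.add_one_le_exp ((z ^ 2 - 1) / 2)
  nlinarith [sq_nonneg (z - 1)]

lemma y_le (y c : ℝ) : y ≤ Real.exp ((y ^ 2 * Real.exp c - 1) / 2 - c / 2) := by
  have h := le_exp_sq (y * Real.exp (c / 2))
  have h2 : (y * Real.exp (c/2)) ^ 2 = y ^ 2 * Real.exp c := by
    rw [mul_pow, ← Real.exp_nat_mul]; congr 2; push_cast; ring
  rw [h2] at h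
  rw [Real.exp_sub, le_div_iff₀ (Real.exp_pos _)]
  exact h

lemma prod_bound {ι : Type*} (s : Finset ι) (y : ι → ℝ) (hy : ∀ k, 0 ≤ y k) (c : ℝ) :
    ∏ l ∈ s, y l ≤ Real.exp (((∑ l ∈ s, (y l) ^ 2) * Real.exp c - s.card) / 2 - c * s.card / 2) := by
  have h : ∏ l ∈ s, y l ≤ ∏ l ∈ s, Real.exp (((y l) ^ 2 * Real.exp c - 1) / 2 - c / 2) :=
    Finset.prod_le_prod (fun l _ => hy l) fun l _ => y_le _ _
  refine h.trans (le_of_eq ?_)
  rw [← Real.exp_sum]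
  congr 1
  rw [Finset.sum_sub_distrib, ← Finset.sum_div, Finset.sum_sub_distrib, ← Finset.sum_mul]
  simp only [Finset.sum_const, nsmul_eq_mul]
  ring

lemma full_bound {m : ℕ} (y : Fin m → ℝ) (hy : ∀ k, 0 ≤ y k) (c : ℝ)
    (h : ∑ k, (y k) ^ 2 ≤ m * Real.exp (-c)) : ∏ k, y k ≤ Real.exp (-(c * m / 2)) := by
  refine (prod_bound Finset.univ y hy c).trans (Real.exp_le_exp.mpr ?_)
  have h1 : (∑ k, (y k) ^ 2) * Real.exp c ≤ m := by
    calc (∑ k, (y k) ^ 2) * Real.exp c ≤ m * Real.exp (-c) * Real.exp c :=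
          mul_le_mul_of_nonneg_right h (Real.exp_pos _).le
      _ = m := by rw [mul_assoc, ← Real.exp_add]; simp
  simp only [Finset.card_univ, Fintype.card_fin]
  linarith

lemma erase_bound {m : ℕ} (hm : 0 < m) (y : Fin m → ℝ) (hy : ∀ k, 0 ≤ y k) (c : ℝ)
    (h : ∑ k, (y k) ^ 2 ≤ m * Real.exp (-c)) (k : Fin m) :
    ∏ l ∈ Finset.univ.erase k, y l ≤ 2 * Real.exp (-(c * (m - 1) / 2)) := by
  have hc : ((Finset.univ.erase k).card : ℝ) = m - 1 := by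
    rw [Finset.card_erase_of_mem (Finset.mem_univ k), Finset.card_univ, Fintype.card_fin, Nat.cast_sub (by omega)]
    simp
  have h1 : (∑ k, (y k) ^ 2) * Real.exp c ≤ m := by
    calc (∑ k, (y k) ^ 2) * Real.exp c ≤ m * Real.exp (-c) * Real.exp c :=
          mul_le_mul_of_nonneg_right h (Real.exp_pos _).le
      _ = m := by rw [mul_assoc, ← Real.exp_add]; simp
  have h2 : (∑ l ∈ Finset.univ.erase k, (y l) ^ 2) * Real.exp c ≤ m := by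
    refine (mul_le_mul_of_nonneg_right ?_ (Real.exp_pos _).le).trans h1
    exact Finset.sum_le_sum_of_subset_of_nonneg (Finset.erase_subset _ _) fun _ _ _ => by positivity
  refine (prod_bound (Finset.univ.erase k) y hy c).trans ?_
  rw [hc]
  have h3 : ((∑ l ∈ Finset.univ.erase k, (y l) ^ 2) * Real.exp c - (m - 1)) / 2 - c * (m - 1) / 2
      ≤ 1/2 + -(c * (m - 1) / 2) := by linarith
  refine (Real.exp_le_exp.mpr h3).trans ?_
  rw [Real.exp_add]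
  apply mul_le_mul_of_nonneg_right _ (Real.exp_pos _).le
  have h4 : Real.exp (1/2) ^ 2 ≤ 2 ^ 2 := by
    rw [← Real.exp_nat_mul]
    have : Real.exp (((2:ℕ):ℝ) * (1/2)) = Real.exp 1 := by norm_num
    rw [this]
    have := Real.exp_one_lt_d9
    linarith
  exact abs_le_of_sq_le_sq' h4 (by norm_num) |>.2

/-- the mean square of `1 - t a u_k`. -/
lemma mean_sq {m : ℕ} (a : ℝ) (ha0 : 0 ≤ a) (ha1 : a ≤ 1) (u : Fin m → ℂ)
    (hu : ∀ k, ‖1 - (a:ℂ) * u k‖ ≤ ‖u k‖) (hU : ∑ k, ‖u k‖ ^ 2 ≤ m) (t : ℝ) (ht0 : 0 ≤ t) (ht1 : t ≤ 1) :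
    ∑ k, ‖1 - (t:ℂ) * ((a:ℂ) * u k)‖ ^ 2 ≤ m * (1 - a ^ 2 * t * (1 - t)) := by
  have e : ∀ (s : ℝ) (w : ℂ), ‖1 - (s:ℂ) * w‖ ^ 2 = 1 - 2 * s * w.re + s ^ 2 * ‖w‖ ^ 2 := by
    intro s w
    rw [Complex.sq_norm, Complex.sq_norm, Complex.normSq_apply, Complex.normSq_apply]
    simp
    ring
  have h1 : ∀ k, ‖1 - (t:ℂ) * ((a:ℂ) * u k)‖ ^ 2 = 1 - t * (2 * a * (u k).re) + t ^ 2 * a ^ 2 * ‖u k‖ ^ 2 := by
    intro k
    have : (t:ℂ) * ((a:ℂ) * u k) = ((t * a : ℝ) : ℂ) * u k := by push_cast; ring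
    rw [this, e]; ring
  have h2 : ∀ k, 1 - (1 - a ^ 2) * ‖u k‖ ^ 2 ≤ 2 * a * (u k).re := by
    intro k
    have h3 : ‖1 - (a:ℂ) * u k‖ ^ 2 ≤ ‖u k‖ ^ 2 := pow_le_pow_left₀ (norm_nonneg _) (hu k) 2
    rw [e] at h3
    linarith
  have h4 : ∀ k, ‖1 - (t:ℂ) * ((a:ℂ) * u k)‖ ^ 2 ≤ (1 - t) + (t * (1 - a ^ 2) + t ^ 2 * a ^ 2) * ‖u k‖ ^ 2 := by
    intro k
    rw [h1 k]
    have := mul_le_mul_of_nonneg_left (h2 k) ht0
    linarith
  refine (Finset.sum_le_sum fun k _ => h4 k).trans ?_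
  rw [Finset.sum_add_distrib, ← Finset.mul_sum]
  simp only [Finset.sum_const, Finset.card_univ, Fintype.card_fin, nsmul_eq_mul]
  have h5 : 0 ≤ t * (1 - a ^ 2) + t ^ 2 * a ^ 2 := by
    have : 0 ≤ 1 - a ^ 2 := by nlinarith
    positivity
  have := mul_le_mul_of_nonneg_left hU h5
  linarith

lemma mean_sq_exp {m : ℕ} (a : ℝ) (ha0 : 0 ≤ a) (ha1 : a ≤ 1) (u : Fin m → ℂ)
    (hu : ∀ k, ‖1 - (a:ℂ) * u k‖ ≤ ‖u k‖) (hU : ∑ k, ‖u k‖ ^ 2 ≤ m) (t : ℝ) (ht0 : 0 ≤ t) (ht1 : t ≤ 1) :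
    ∑ k, ‖1 - (t:ℂ) * ((a:ℂ) * u k)‖ ^ 2 ≤ m * Real.exp (-(a ^ 2 * t * (1 - t))) := by
  refine (mean_sq a ha0 ha1 u hu hU t ht0 ht1).trans ?_
  apply mul_le_mul_of_nonneg_left _ (by positivity)
  have := Real.add_one_le_exp (-(a ^ 2 * t * (1 - t)))
  linarith

end Pool.H363R3.SM2
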