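import Mathlib
import Pool.Agent.H363R3.SM2h

set_option autoImplicit false
set_option maxHeartbeats 4000000
open Polynomial

namespace Pool.H363R3.SM2

lemma int_t_exp (lam T : ℝ) (hl : 0 < lam) (hT : 0 ≤ T) :
    ∫ t in (0:ℝ)..T, t * Real.exp (-(lam * t)) ≤ 1 / lam ^ 2 := by
  have hd : ∀ t ∈ Set.uIcc (0:ℝ) T, HasDerivAt
      (fun t : ℝ => -((t / lam + 1 / lam ^ 2) * Real.exp (-(lam * t)))) (t * Real.exp (-(lam * t))) t := by
    intro t _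
    have h1 : HasDerivAt (fun t : ℝ => t / lam + 1 / lam ^ 2) (1 / lam) t :=
      ((hasDerivAt_id t).div_const lam).add_const _
    have h2 : HasDerivAt (fun t : ℝ => -(lam * t)) (-(lam * 1)) t := ((hasDerivAt_id t).const_mul lam).neg
    have h3 := (h1.mul h2.exp).neg
    refine h3.congr_deriv ?_
    field_simp
    ring
  have hc : Continuous (fun t : ℝ => t * Real.exp (-(lam * t))) := by fun_prop
  rw [intervalIntegral.integral_eq_sub_of_hasDerivAt hd (hc.intervalIntegrable _ _)]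
  have h4 : 0 ≤ (T / lam + 1 / lam ^ 2) * Real.exp (-(lam * T)) := by positivity
  simp only [mul_zero, neg_zero, Real.exp_zero, zero_div, zero_add, mul_one]
  linarith

/-- error term in the first order identity -/
lemma err_bound {m : ℕ} (x : Fin m → ℂ) (T B lam : ℝ) (hT : 0 ≤ T) (hl : 0 < lam) (hB : 0 ≤ B)
    (hx : ∑ k, ‖x k‖ ^ 2 ≤ m)
    (h : ∀ t ∈ Set.Icc (0:ℝ) T, ∀ k, ∏ l ∈ Finset.univ.erase k, ‖1 - (t:ℂ) * x l‖ ≤ B * Real.exp (-(lam * t))) :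
    ‖∫ t in (0:ℝ)..T, (t:ℂ) * ∑ k, (x k) ^ 2 * ∏ l ∈ Finset.univ.erase k, (1 - (t:ℂ) * x l)‖ ≤ B * m / lam ^ 2 := by
  have hb : ∀ t ∈ Set.Ioc (0:ℝ) T, ‖(t:ℂ) * ∑ k, (x k) ^ 2 * ∏ l ∈ Finset.univ.erase k, (1 - (t:ℂ) * x l)‖
      ≤ (B * m) * (t * Real.exp (-(lam * t))) := by
    intro t ht
    rw [norm_mul, Complex.norm_real, Real.norm_eq_abs, abs_of_pos ht.1]
    have h1 : ‖∑ k, (x k) ^ 2 * ∏ l ∈ Finset.univ.erase k, (1 - (t:ℂ) * x l)‖ ≤ m * (B * Real.exp (-(lam * t))) := by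
      refine (norm_sum_le _ _).trans ?_
      have h2 : ∀ k, ‖(x k) ^ 2 * ∏ l ∈ Finset.univ.erase k, (1 - (t:ℂ) * x l)‖ ≤ ‖x k‖ ^ 2 * (B * Real.exp (-(lam * t))) := by
        intro k
        rw [norm_mul, norm_pow, norm_prod]
        exact mul_le_mul_of_nonneg_left (h t ⟨ht.1.le, ht.2⟩ k) (by positivity)
      refine (Finset.sum_le_sum fun k _ => h2 k).trans ?_
      rw [← Finset.sum_mul]
      exact mul_le_mul_of_nonneg_right hx (by positivity)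
    calc t * ‖∑ k, (x k) ^ 2 * ∏ l ∈ Finset.univ.erase k, (1 - (t:ℂ) * x l)‖
        ≤ t * (m * (B * Real.exp (-(lam * t)))) := mul_le_mul_of_nonneg_left h1 ht.1.le
      _ = (B * m) * (t * Real.exp (-(lam * t))) := by ring
  have hc : Continuous (fun t : ℝ => (B * m) * (t * Real.exp (-(lam * t)))) := by fun_prop
  refine (intervalIntegral.norm_integral_le_of_norm_le (μ := MeasureTheory.volume) hT
    (Filter.Eventually.of_forall hb) (hc.intervalIntegrable _ _)).trans ?_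
  rw [intervalIntegral.integral_const_mul]
  have := mul_le_mul_of_nonneg_left (int_t_exp lam T hl hT) (by positivity : 0 ≤ B * m)
  refine this.trans (le_of_eq (by ring))

/-- integrated second order comparison on `[0,1/2]`. -/
lemma step_half (M : ℕ) (β : ℂ) (d : Fin (M+2) → ℂ) (V κ κ' r : ℝ)
    (hd : ∑ k, d k = 0) (hV0 : 0 ≤ V) (hV : ∑ k, ‖d k‖^2 ≤ ((M+2:ℕ):ℝ) * V)
    (hκ0 : 0 < κ) (hκ1 : κ ≤ 1) (hA : ∀ t ∈ Set.Icc (0:ℝ) (1/2), ‖1 - (t:ℂ)*β‖ ≤ 1 - κ * t)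
    (hβ : ‖β‖ ≤ 1) (hr : 1 ≤ r) (hκ'0 : 0 < κ') (hrV : κ' + r * √V ≤ κ) :
    ((M:ℝ)+3) * ‖(∫ t in (0:ℝ)..(1/2), ∏ k, (1 - (t:ℂ) * (β + d k))) - ∫ t in (0:ℝ)..(1/2), (1 - (t:ℂ)*β)^(M+2)‖
      ≤ V/(κ^3 * (M+1)) + 1/(r^3*κ') := by
  have hr0 : 0 < r := by linarith
  have c1 : Continuous (fun t : ℝ => ∏ k, (1 - (t:ℂ) * (β + d k))) := by fun_prop
  have c2 : Continuous (fun t : ℝ => (1 - (t:ℂ)*β)^(M+2)) := by fun_prop
  rw [← intervalIntegral.integral_sub (c1.intervalIntegrable _ _) (c2.intervalIntegrable _ _)]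
  have hrV0 : 0 ≤ r * √V := by positivity
  have hκ'1 : κ' ≤ 1 := by linarith
  have hb : ∀ t ∈ Set.Ioc (0:ℝ) (1/2), ‖∏ k, (1 - (t:ℂ) * (β + d k)) - (1 - (t:ℂ)*β)^(M+2)‖
      ≤ 1 / 2 * (((M+2:ℕ):ℝ) * V) * (t ^ 2 * (1 - κ * t) ^ M) + (1 - κ' * t) ^ (M+2) / r ^ 3 := by
    intro t ht
    have hAt := hA t ⟨ht.1.le, ht.2⟩
    have hA0 : 1 - (t:ℂ) * β ≠ 0 := by
      intro h
      have h1 : (t:ℂ) * β = 1 := by linear_combination -h
      have h2 : ‖(t:ℂ) * β‖ = 1 := by rw [h1]; simp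
      rw [norm_mul, Complex.norm_real, Real.norm_eq_abs, abs_of_pos ht.1] at h2
      have := norm_nonneg β
      nlinarith [ht.2]
    have h := pointwise M (1 - (t:ℂ) * β) hA0 d V t r hd hV0 hV ht.1.le hr
    have e : ∏ k, (1 - (t:ℂ) * (β + d k)) = ∏ k, (1 - (t:ℂ) * β - (t:ℂ) * d k) := by
      refine Finset.prod_congr rfl fun k _ => by ring
    rw [e]
    refine h.trans ?_
    have q1 : ‖1 - (t:ℂ) * β‖ ^ M ≤ (1 - κ * t) ^ M := pow_le_pow_left₀ (norm_nonneg _) hAt M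
    have q2 : (‖1 - (t:ℂ) * β‖ + r * √V * t) ^ (M+2) ≤ (1 - κ' * t) ^ (M+2) := by
      have : 0 ≤ r * √V * t := by have := ht.1.le; positivity
      apply pow_le_pow_left₀ (by positivity)
      have := mul_le_mul_of_nonneg_right hrV ht.1.le
      linarith
    have q3 : 1 / 2 * (((M+2:ℕ):ℝ) * V) * t ^ 2 * ‖1 - (t:ℂ) * β‖ ^ M ≤ 1 / 2 * (((M+2:ℕ):ℝ) * V) * (t ^ 2 * (1 - κ * t) ^ M) := by
      rw [mul_assoc (1 / 2 * (((M+2:ℕ):ℝ) * V))]
      apply mul_le_mul_of_nonneg_left _ (by positivity)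
      exact mul_le_mul_of_nonneg_left q1 (by positivity)
    have q4 := div_le_div_of_nonneg_right q2 (by positivity : (0:ℝ) ≤ r ^ 3)
    linarith
  have c3 : Continuous (fun t : ℝ => 1 / 2 * (((M+2:ℕ):ℝ) * V) * (t ^ 2 * (1 - κ * t) ^ M) + (1 - κ' * t) ^ (M+2) / r ^ 3) := by
    fun_prop
  have hI := intervalIntegral.norm_integral_le_of_norm_le (μ := MeasureTheory.volume) (by norm_num : (0:ℝ) ≤ 1/2) (Filter.Eventually.of_forall hb) (c3.intervalIntegrable _ _)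
  -- extend to [0,1]
  have hext : ∫ t in (0:ℝ)..(1/2), (1 / 2 * (((M+2:ℕ):ℝ) * V) * (t ^ 2 * (1 - κ * t) ^ M) + (1 - κ' * t) ^ (M+2) / r ^ 3)
      ≤ ∫ t in (0:ℝ)..1, (1 / 2 * (((M+2:ℕ):ℝ) * V) * (t ^ 2 * (1 - κ * t) ^ M) + (1 - κ' * t) ^ (M+2) / r ^ 3) := by
    rw [← intervalIntegral.integral_add_adjacent_intervals (c3.intervalIntegrable (μ := MeasureTheory.volume) 0 (1/2)) (c3.intervalIntegrable (1/2) 1)]
    have : 0 ≤ ∫ t in (1/2:ℝ)..1, (1 / 2 * (((M+2:ℕ):ℝ) * V) * (t ^ 2 * (1 - κ * t) ^ M) + (1 - κ' * t) ^ (M+2) / r ^ 3) := by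
      apply intervalIntegral.integral_nonneg (by norm_num)
      intro t ht
      have h1 : 0 ≤ 1 - κ * t := by nlinarith [ht.1, ht.2]
      have h2 : 0 ≤ 1 - κ' * t := by nlinarith [ht.1, ht.2]
      positivity
    linarith
  have hI := hI.trans hext
  have c4 : Continuous (fun t : ℝ => 1 / 2 * (((M+2:ℕ):ℝ) * V) * (t ^ 2 * (1 - κ * t) ^ M)) := by fun_prop
  have c5 : Continuous (fun t : ℝ => (1 - κ' * t) ^ (M+2) / r ^ 3) := by fun_prop
  rw [intervalIntegral.integral_add (c4.intervalIntegrable _ _) (c5.intervalIntegrable _ _),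
    intervalIntegral.integral_const_mul, intervalIntegral.integral_div] at hI
  have i1 := int_sq_pow M κ hκ0 hκ1
  have i2 := int_pow_real (M+2) κ' hκ'0 hκ'1
  have hM3 : (0:ℝ) < (M:ℝ) + 3 := by positivity
  have j1 : 1 / 2 * (((M+2:ℕ):ℝ) * V) * (∫ t in (0:ℝ)..1, t ^ 2 * (1 - κ * t) ^ M)
      ≤ (V/(κ^3 * (M+1))) / (M + 3) := by
    refine (mul_le_mul_of_nonneg_left i1 (by positivity)).trans (le_of_eq ?_)
    push_cast
    field_simp
  have j2 : (∫ t in (0:ℝ)..1, (1 - κ' * t) ^ (M+2)) / r ^ 3 ≤ (1/(r^3*κ')) / (M+3) := by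
    refine (div_le_div_of_nonneg_right i2 (by positivity)).trans (le_of_eq ?_)
    push_cast
    field_simp
    ring
  have := hI.trans (add_le_add j1 j2)
  rw [← add_div, le_div_iff₀ hM3] at this
  linarith

end Pool.H363R3.SM2
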