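import Mathlib
import Pool.Agent.H363R3.SM2i
import Pool.Agent.H363R3.SM2v

set_option autoImplicit false
set_option maxHeartbeats 4000000
open Polynomial

namespace Pool.H363R3.SM2

lemma int_powT (M : ℕ) (β : ℂ) (T : ℝ) :
    ((M:ℂ) + 1) * β * ∫ t in (0:ℝ)..T, (1 - (t:ℂ) * β) ^ M = 1 - (1 - (T:ℂ) * β) ^ (M + 1) := by
  have hd : ∀ t ∈ Set.uIcc (0:ℝ) T, HasDerivAt
      (fun t : ℝ => - (1 - (t:ℂ) * β) ^ (M + 1)) (((M:ℂ) + 1) * β * (1 - (t:ℂ) * β) ^ M) t := by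
    intro t _
    have h2 : HasDerivAt (fun w : ℂ => 1 - w * β) (-(1 * β)) (t:ℂ) :=
      ((hasDerivAt_id (t:ℂ)).mul_const β).const_sub 1
    have h3 := ((h2.pow (M+1)).neg).comp_ofReal
    refine HasDerivAt.congr_deriv (f := fun t : ℝ => - (1 - (t:ℂ) * β) ^ (M + 1)) h3 ?_
    simp; ring
  have hcont : Continuous (fun t : ℝ => ((M:ℂ) + 1) * β * (1 - (t:ℂ) * β) ^ M) := by fun_prop
  have := intervalIntegral.integral_eq_sub_of_hasDerivAt hd (hcont.intervalIntegrable _ _)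
  rw [intervalIntegral.integral_const_mul] at this
  rw [this]; simp; ring

lemma part2_core (M : ℕ) (a δ ν κ : ℝ) (hδ0 : 0 < δ) (hδ1 : δ ≤ 1) (haδ : δ ≤ a) (ha1 : a ≤ 1)
    (hκ : κ = δ ^ 2 / 4) (u v : Fin (M+2) → ℂ)
    (hF : derivative (X * ∏ j, (1 + C (v j) * X)) = ∏ k, (1 + C (u k) * X))
    (hv : ∀ j, ‖1 - (a:ℂ) * v j‖ ≤ ‖v j‖)
    (hu : ∀ k, ‖1 - (a:ℂ) * u k‖ ≤ ‖u k‖)
    (hprod : ((M:ℝ) + 3) * ∏ j, ‖v j‖ = ∏ k, ‖u k‖)
    (hU : ∑ k, ‖u k‖ ^ 2 ≤ ((M+2:ℕ):ℝ))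
    (hnotD : ∀ t ∈ Set.Icc (1/2:ℝ) 1, ‖∏ k, (1 - (t:ℂ) * ((a:ℂ) * u k))‖ ≤ 1 / ((M:ℝ) + 2) ^ 3)
    (C1 : Real.exp (-(δ ^ 2 * ((M:ℝ) + 2) / 8)) + 128 / (δ ^ 4 * ((M:ℝ) + 2)) + 1 / ((M:ℝ) + 2) ^ 2 ≤ ν / 2)
    (C2 : 1 / (κ ^ 3 * ((M:ℝ) + 1)) + 16 * √(2 * ν) / κ ^ 4 ≤ δ / 4)
    (C2' : 1 / ((M:ℝ) + 2) ^ 4 ≤ ν) (C2'' : 2 * ν ≤ κ ^ 2 / 4)
    (C3 : (1 - κ / 2) ^ (M + 3) + 1 / ((M:ℝ) + 2) ^ 4 + ((M:ℝ) + 3) / ((M:ℝ) + 2) ^ 3 < 1 / 100000 / ((M:ℝ) + 3))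
    (hε : 1 / 100000 / ((M:ℝ) + 3) ≤ 1 - a) : False := by
  obtain ⟨m, hmr⟩ : ∃ m : ℝ, m = (M:ℝ) + 2 := ⟨_, rfl⟩
  have hM0 : (0:ℝ) ≤ M := Nat.cast_nonneg _
  have hmr' : ((M+2:ℕ):ℝ) = m := by rw [hmr]; push_cast; ring
  have hmc : ((M+2:ℕ):ℂ) = (m:ℂ) := by rw [← hmr']; push_cast; ring
  have hm2 : (2:ℝ) ≤ m := by rw [hmr]; linarith
  have hm0 : (0:ℝ) < m := by linarith
  have hmc0 : (m:ℂ) ≠ 0 := by exact_mod_cast hm0.ne'
  have ha0 : 0 < a := by linarith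
  have hκ0 : 0 < κ := by rw [hκ]; positivity
  have hκ1 : κ ≤ 1/4 := by rw [hκ]; nlinarith only [hδ0, hδ1]
  rw [← hmr] at C1 C2' C3 hnotD
  have hUm : ∑ k, ‖u k‖ ^ 2 ≤ m := by rw [← hmr']; exact hU
  set c : ℂ := (∑ i, u i) / (m:ℂ) with hc
  set β : ℂ := a * c with hβ
  set x : Fin (M+2) → ℂ := fun k => (a:ℂ) * u k with hx
  have hxsum : ∑ k, x k = m * β := by
    rw [hx, hβ, hc]; simp only; rw [← Finset.mul_sum]; field_simp
  set V : ℝ := (∑ k, ‖u k‖ ^ 2) / m - ‖c‖ ^ 2 with hV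
  have hvar := variance (m := M+2) (by omega) u
  rw [hmc, hmr', ← hc] at hvar
  have hvar' : ∑ k, ‖u k - c‖ ^ 2 = m * V := by
    rw [hvar, hV]; field_simp
  have hV0 : 0 ≤ V := by
    have : 0 ≤ m * V := by rw [← hvar']; positivity
    exact nonneg_of_mul_nonneg_right this hm0
  have hs1 : (∑ k, ‖u k‖ ^ 2) / m ≤ 1 := by rw [div_le_one hm0]; exact hUm
  have hcsq : ‖c‖ ^ 2 ≤ 1 - V := by linarith
  have hβn : ‖β‖ = a * ‖c‖ := by
    rw [hβ, norm_mul, Complex.norm_real, Real.norm_eq_abs, abs_of_pos ha0]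
  have hV1 : V ≤ 1 := by linarith only [hcsq, sq_nonneg ‖c‖]
  have hc1 : ‖c‖ ≤ 1 - V / 2 := by
    apply abs_le_of_sq_le_sq' _ (by linarith only [hV1] : 0 ≤ 1 - V/2) |>.2
    linarith only [hcsq, sq_nonneg V]
  have hβ5 : ‖β‖ ≤ a * (1 - V / 2) := by
    rw [hβn]; exact mul_le_mul_of_nonneg_left hc1 ha0.le
  have hVh : 0 ≤ 1 - V / 2 := by linarith only [hV1]
  have hβ1 : ‖β‖ ≤ 1 := by linarith only [hβ5, hV0, mul_nonneg (sub_nonneg.mpr ha1) hVh]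
  have hβV : ‖β‖ ≤ 1 - V / 2 := by
    linarith only [hβ5, mul_nonneg (sub_nonneg.mpr ha1) hVh]
  -- J
  have ha_ne : -(a:ℂ) ≠ 0 := by
    rw [neg_ne_zero]; exact_mod_cast ha0.ne'
  have hJ := integral_seg u v hF (-(a:ℂ)) ha_ne
  set J : ℂ := ∫ t in (0:ℝ)..1, ∏ k, (1 - (t:ℂ) * x k) with hJdef
  have hJ' : J = ∏ j, (1 - (a:ℂ) * v j) := by
    rw [hJdef]
    have e1 : ∀ t : ℝ, ∏ k, (1 - (t:ℂ) * x k) = ∏ k, (1 + u k * (-(a:ℂ) * t)) := by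
      intro t
      refine Finset.prod_congr rfl fun k _ => ?_
      rw [hx]; ring
    simp only [e1]
    rw [hJ]
    refine Finset.prod_congr rfl fun k _ => by ring
  have hJn : ((M:ℝ) + 3) * ‖J‖ ≤ 1 := by
    have h1 : ‖J‖ ≤ ∏ j, ‖v j‖ := by
      rw [hJ', norm_prod]
      exact Finset.prod_le_prod (fun j _ => norm_nonneg _) fun j _ => hv j
    calc ((M:ℝ) + 3) * ‖J‖ ≤ ((M:ℝ) + 3) * ∏ j, ‖v j‖ := mul_le_mul_of_nonneg_left h1 (by positivity)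
      _ = ∏ k, ‖u k‖ := hprod
      _ ≤ 1 := prod_norm_le_one (by omega) u hU
  have c1 : Continuous (fun t : ℝ => ∏ k, (1 - (t:ℂ) * x k)) := by fun_prop
  set Jl : ℂ := ∫ t in (0:ℝ)..(1/2), ∏ k, (1 - (t:ℂ) * x k) with hJl
  have hJr : ‖J - Jl‖ ≤ 1 / m ^ 3 := by
    have e1 : J - Jl = ∫ t in (1/2:ℝ)..1, ∏ k, (1 - (t:ℂ) * x k) := by
      rw [hJdef, hJl, ← intervalIntegral.integral_add_adjacent_intervals
        (c1.intervalIntegrable (μ := MeasureTheory.volume) 0 (1/2)) (c1.intervalIntegrable (1/2) 1)]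
      ring
    rw [e1]
    have := intervalIntegral.norm_integral_le_of_norm_le_const (a := (1/2:ℝ)) (b := 1)
      (f := fun t : ℝ => ∏ k, (1 - (t:ℂ) * x k)) (C := 1 / m ^ 3) (by
        intro t ht
        rw [Set.uIoc_of_le (by norm_num)] at ht
        exact hnotD t ⟨ht.1.le, ht.2⟩)
    refine this.trans ?_
    have h1 : |(1:ℝ) - 1/2| = 1/2 := by norm_num
    rw [h1]
    have : 0 ≤ 1 / m ^ 3 := by positivity
    linarith
  have hJln : ‖Jl‖ ≤ ‖J‖ + 1 / m ^ 3 := by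
    have := norm_sub_norm_le Jl J
    rw [norm_sub_rev] at this
    linarith
  -- first order
  have hid := ident_int x (1/2)
  rw [← hJl, hxsum] at hid
  set lam : ℝ := δ ^ 2 * (m - 1) / 4 with hlam
  have hlam0 : 0 < lam := by rw [hlam]; have : 0 < m - 1 := by linarith
                             positivity
  have haδ2 : δ ^ 2 ≤ a ^ 2 := pow_le_pow_left₀ hδ0.le haδ 2
  have hxn : ∑ k, ‖x k‖ ^ 2 ≤ ((M+2:ℕ):ℝ) := by
    refine le_trans (Finset.sum_le_sum fun k _ => ?_) hU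
    rw [hx]; simp only
    rw [norm_mul, Complex.norm_real, Real.norm_eq_abs, abs_of_pos ha0]
    apply pow_le_pow_left₀ (by positivity)
    linarith only [mul_nonneg (sub_nonneg.mpr ha1) (norm_nonneg (u k))]
  have herr := err_bound x (1/2) 2 lam (by norm_num) hlam0 (by norm_num) hxn (by
    intro t ht k
    have h1 := mean_sq_exp a ha0.le ha1 u hu hU t ht.1 (by linarith [ht.2])
    have h2 := erase_bound (m := M+2) (by omega) (fun l => ‖1 - (t:ℂ) * ((a:ℂ) * u l)‖) (fun l => norm_nonneg _)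
      (a ^ 2 * t * (1 - t)) h1 k
    refine h2.trans ?_
    apply mul_le_mul_of_nonneg_left _ (by norm_num)
    apply Real.exp_le_exp.mpr
    rw [hmr', hlam]
    have h3 : δ ^ 2 * t * (1/2) ≤ a ^ 2 * t * (1 - t) := by
      apply mul_le_mul (mul_le_mul_of_nonneg_right haδ2 ht.1) (by linarith [ht.2]) (by norm_num)
      have := ht.1; positivity
    have h4 : 0 ≤ m - 1 := by linarith
    linarith only [mul_le_mul_of_nonneg_right h3 h4])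
  rw [hmr'] at herr
  have herr2 : 2 * m / lam ^ 2 ≤ 128 / (δ ^ 4 * m) := by
    rw [hlam, div_le_div_iff₀ (by have : 0 < m - 1 := by linarith
                                  positivity) (by positivity)]
    have h5 : m ^ 2 ≤ 4 * (m - 1) ^ 2 := by nlinarith only [hm2]
    have h6 : 0 ≤ δ ^ 4 := by positivity
    have := mul_le_mul_of_nonneg_left h5 h6
    linarith only [this]
  have hfhalf : ‖∏ k, (1 - ((1/2:ℝ):ℂ) * x k)‖ ≤ Real.exp (-(δ ^ 2 * m / 8)) := by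
    have h1 := mean_sq_exp a ha0.le ha1 u hu hU (1/2) (by norm_num) (by norm_num)
    have h2 := full_bound (m := M+2) (fun l => ‖1 - ((1/2:ℝ):ℂ) * ((a:ℂ) * u l)‖) (fun l => norm_nonneg _)
      (a ^ 2 * (1/2) * (1 - 1/2)) h1
    rw [norm_prod]
    refine h2.trans (Real.exp_le_exp.mpr ?_)
    rw [hmr']
    linarith only [mul_le_mul_of_nonneg_right haδ2 hm0.le]
  have hfirst : 1 - Real.exp (-(δ ^ 2 * m / 8)) - 128 / (δ ^ 4 * m) ≤ m * ‖β‖ * ‖Jl‖ := by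
    have h1 : ‖(m:ℂ) * β * Jl‖ = m * ‖β‖ * ‖Jl‖ := by
      rw [norm_mul, norm_mul, Complex.norm_real, Real.norm_eq_abs, abs_of_pos hm0]
    rw [← h1]
    have h2 : (1:ℂ) = ∏ k, (1 - ((1/2:ℝ):ℂ) * x k) + ((m:ℂ) * β * Jl) +
      (∫ t in (0:ℝ)..(1/2), (t:ℂ) * ∑ k, (x k) ^ 2 * ∏ l ∈ Finset.univ.erase k, (1 - (t:ℂ) * x l)) := by
      linear_combination hid
    have h3 := congrArg norm h2
    rw [norm_one] at h3
    have h4 := norm_add₃_le (a := ∏ k, (1 - ((1/2:ℝ):ℂ) * x k)) (b := (m:ℂ) * β * Jl)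
      (c := ∫ t in (0:ℝ)..(1/2), (t:ℂ) * ∑ k, (x k) ^ 2 * ∏ l ∈ Finset.univ.erase k, (1 - (t:ℂ) * x l))
    rw [← h3] at h4
    linarith [herr.trans herr2]
  have hVν : V ≤ ν := by
    have h1 : m * ‖β‖ * ‖Jl‖ ≤ ‖β‖ + 1 / m ^ 2 := by
      have h2 : m * ‖β‖ * ‖Jl‖ ≤ m * ‖β‖ * (‖J‖ + 1 / m ^ 3) := mul_le_mul_of_nonneg_left hJln (by positivity)
      have h3 : m * ‖J‖ ≤ 1 := by
        refine le_trans ?_ hJn
        apply mul_le_mul_of_nonneg_right _ (norm_nonneg _)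
        rw [hmr]; linarith
      have h4 : m * ‖β‖ * (‖J‖ + 1 / m ^ 3) = ‖β‖ * (m * ‖J‖) + ‖β‖ * (1 / m ^ 2) := by
        field_simp
      rw [h4] at h2
      have h5 := mul_le_mul_of_nonneg_left h3 (norm_nonneg β)
      have h6 : ‖β‖ * (1 / m ^ 2) ≤ 1 * (1 / m ^ 2) := mul_le_mul_of_nonneg_right hβ1 (by positivity)
      linarith
    linarith
  -- second order
  set V' : ℝ := V + 1 / m ^ 4 with hV'
  have hV'0 : 0 < V' := by positivity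
  have hV'ν : V' ≤ 2 * ν := by linarith
  set d : Fin (M+2) → ℂ := fun k => a * (u k - c) with hd
  have hds : ∑ k, d k = 0 := by
    rw [hd]; simp only
    rw [← Finset.mul_sum, Finset.sum_sub_distrib]
    simp only [Finset.sum_const, Finset.card_univ, Fintype.card_fin, nsmul_eq_mul]
    rw [hmc, hc]; field_simp; ring
  have hdV : ∑ k, ‖d k‖ ^ 2 ≤ ((M+2:ℕ):ℝ) * V' := by
    have h1 : ∑ k, ‖d k‖ ^ 2 ≤ m * V := by
      rw [← hvar']
      refine Finset.sum_le_sum fun k _ => ?_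
      rw [hd]; simp only
      rw [norm_mul, Complex.norm_real, Real.norm_eq_abs, abs_of_pos ha0]
      apply pow_le_pow_left₀ (by have := norm_nonneg (u k - c); positivity)
      have := norm_nonneg (u k - c)
      linarith only [mul_nonneg (sub_nonneg.mpr ha1) this]
    rw [hmr']
    refine h1.trans (mul_le_mul_of_nonneg_left ?_ hm0.le)
    rw [hV']; have : 0 ≤ 1 / m ^ 4 := by positivity
    linarith
  have hβd : ∀ k, β + d k = x k := by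
    intro k; rw [hβ, hd, hx]; ring
  have hA : ∀ t ∈ Set.Icc (0:ℝ) (1/2), ‖1 - (t:ℂ)*β‖ ≤ 1 - κ * t := by
    intro t ht
    have hn : 0 ≤ 1 - κ * t := by nlinarith only [ht.1, ht.2, hκ0, hκ1]
    apply abs_le_of_sq_le_sq' _ hn |>.2
    have h1 := mean_sq a ha0.le ha1 u hu hU t ht.1 (by linarith [ht.2])
    have h2 : ‖1 - (t:ℂ) * β‖ * m ≤ ∑ k, ‖1 - (t:ℂ) * x k‖ := by
      have h3 : (m:ℂ) * (1 - (t:ℂ) * β) = ∑ k, (1 - (t:ℂ) * x k) := by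
        rw [Finset.sum_sub_distrib, ← Finset.mul_sum, hxsum]
        simp only [Finset.sum_const, Finset.card_univ, Fintype.card_fin, nsmul_eq_mul, hmc]
        ring
      have h4 := congrArg norm h3
      rw [norm_mul, Complex.norm_real, Real.norm_eq_abs, abs_of_pos hm0] at h4
      rw [mul_comm, h4]
      exact norm_sum_le _ _
    have h5 : (∑ k, ‖1 - (t:ℂ) * x k‖) ^ 2 ≤ m * (m * (1 - a ^ 2 * t * (1 - t))) := by
      have := sq_sum_le_card_mul_sum_sq (s := (Finset.univ : Finset (Fin (M+2)))) (f := fun k => ‖1 - (t:ℂ) * x k‖)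
      rw [Finset.card_univ, Fintype.card_fin, hmr'] at this
      refine this.trans (mul_le_mul_of_nonneg_left ?_ hm0.le)
      rw [hmr'] at h1
      exact h1
    have h6 : (‖1 - (t:ℂ) * β‖ * m) ^ 2 ≤ m * (m * (1 - a ^ 2 * t * (1 - t))) :=
      (pow_le_pow_left₀ (by positivity) h2 2).trans h5
    have h7 : ‖1 - (t:ℂ) * β‖ ^ 2 ≤ 1 - a ^ 2 * t * (1 - t) := by
      have : m ^ 2 * ‖1 - (t:ℂ) * β‖ ^ 2 ≤ m ^ 2 * (1 - a ^ 2 * t * (1 - t)) := by linarith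
      exact le_of_mul_le_mul_left this (by positivity)
    refine h7.trans ?_
    have h3 : δ ^ 2 * t * (1/2) ≤ a ^ 2 * t * (1 - t) := by
      apply mul_le_mul (mul_le_mul_of_nonneg_right haδ2 ht.1) (by linarith [ht.2]) (by norm_num)
      have := ht.1; positivity
    rw [hκ]
    linarith only [h3, sq_nonneg (δ ^ 2 / 4 * t)]
  have hsV'0 : 0 < √V' := Real.sqrt_pos.mpr hV'0
  have hsV' : √V' ≤ κ / 2 := by
    rw [show κ / 2 = √((κ/2) ^ 2) from (Real.sqrt_sq (by positivity)).symm]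
    apply Real.sqrt_le_sqrt
    linarith only [hV'ν, C2'']
  set r : ℝ := κ / (2 * √V') with hr
  have hrV : r * √V' = κ / 2 := by rw [hr]; field_simp
  have hr1 : 1 ≤ r := by rw [hr, le_div_iff₀ (by positivity)]; linarith
  have hst := step_half M β d V' κ (κ/2) r hds hV'0.le hdV hκ0 (by linarith) hA hβ1 hr1 (by positivity) (by rw [hrV]; linarith)
  simp only [hβd] at hst
  rw [← hJl] at hst
  set J0 : ℂ := ∫ t in (0:ℝ)..(1/2), (1 - (t:ℂ)*β)^(M+2) with hJ0def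
  have hJ0 : ((M:ℂ) + 3) * β * J0 = 1 - (1 - ((1/2:ℝ):ℂ) * β) ^ (M + 3) := by
    have := int_powT (M+2) β (1/2)
    rw [← hJ0def] at this
    rw [← this]; push_cast; ring
  have hE : V'/(κ^3 * (M+1)) + 1/(r^3*(κ/2)) ≤ V' * (δ / 4) := by
    have hr3 : r ^ 3 = κ ^ 3 / (8 * (V' * √V')) := by
      have h7 : √V' ^ 3 = V' * √V' := by rw [pow_succ, Real.sq_sqrt hV'0.le]
      rw [hr, div_pow, mul_pow, h7]; norm_num
    have e1 : 1/(r^3*(κ/2)) = V' * (16 * √V' / κ ^ 4) := by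
      rw [hr3]
      clear_value r
      field_simp
      norm_num
    have e2 : V'/(κ^3 * (M+1)) = V' * (1 / (κ ^ 3 * (M+1))) := by ring
    rw [e1, e2, ← mul_add]
    apply mul_le_mul_of_nonneg_left _ hV'0.le
    refine le_trans ?_ C2
    have : √V' ≤ √(2 * ν) := Real.sqrt_le_sqrt hV'ν
    have : 16 * √V' / κ ^ 4 ≤ 16 * √(2*ν) / κ ^ 4 := by
      apply div_le_div_of_nonneg_right _ (by positivity)
      linarith
    linarith
  have hn3 : ‖((M:ℂ) + 3)‖ = (M:ℝ) + 3 := by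
    have : ((M:ℂ) + 3) = (((M:ℝ) + 3 : ℝ) : ℂ) := by push_cast; ring
    rw [this, Complex.norm_real, Real.norm_eq_abs, abs_of_pos (by positivity)]
  have hfin1 : 1 - (1 - κ/2) ^ (M + 3) ≤ ((M:ℝ)+3) * ‖β‖ * ‖J0‖ := by
    have h1 : ‖((M:ℂ) + 3) * β * J0‖ = ((M:ℝ)+3) * ‖β‖ * ‖J0‖ := by rw [norm_mul, norm_mul, hn3]
    rw [← h1, hJ0]
    have h2 : ‖(1 - ((1/2:ℝ):ℂ) * β) ^ (M + 3)‖ ≤ (1 - κ/2) ^ (M + 3) := by
      rw [norm_pow]
      apply pow_le_pow_left₀ (norm_nonneg _)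
      have := hA (1/2) ⟨by norm_num, le_refl _⟩
      linarith
    have h3 := norm_sub_norm_le (1:ℂ) ((1 - ((1/2:ℝ):ℂ) * β) ^ (M + 3))
    rw [norm_one] at h3
    linarith
  have hfin2 : ((M:ℝ)+3) * ‖β‖ * ‖J0‖ ≤ ‖β‖ + (M+3) / m ^ 3 + V' * (δ/4) := by
    have h3 : ‖J0‖ ≤ ‖J‖ + 1 / m ^ 3 + ‖Jl - J0‖ := by
      have := norm_sub_norm_le J0 Jl
      rw [norm_sub_rev] at this
      linarith
    have h4 : ((M:ℝ)+3) * ‖J0‖ ≤ 1 + (M+3) / m ^ 3 + V' * (δ/4) := by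
      have h5 := mul_le_mul_of_nonneg_left h3 (by positivity : (0:ℝ) ≤ (M:ℝ)+3)
      have h6 : ((M:ℝ)+3) * (‖J‖ + 1 / m ^ 3 + ‖Jl - J0‖) = ((M:ℝ)+3) * ‖J‖ + (M+3) / m ^ 3 + ((M:ℝ)+3) * ‖Jl - J0‖ := by
        ring
      rw [h6] at h5
      linarith
    have h7 := mul_le_mul_of_nonneg_left h4 (norm_nonneg β)
    have h8 : ‖β‖ * (1 + (M+3) / m ^ 3 + V' * (δ/4)) = ‖β‖ + ‖β‖ * ((M+3) / m ^ 3 + V' * (δ/4)) := by ring
    have h9 : ‖β‖ * ((M+3) / m ^ 3 + V' * (δ/4)) ≤ 1 * ((M+3) / m ^ 3 + V' * (δ/4)) :=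
      mul_le_mul_of_nonneg_right hβ1 (by positivity)
    linarith
  have hfin3 : ‖β‖ ≤ 1 - (1 - a) - δ * V / 2 := by
    linarith only [hβ5, mul_nonneg (sub_nonneg.mpr haδ) hV0]
  have h10 : V' * (δ / 4) ≤ δ * V / 4 + 1 / m ^ 4 := by
    rw [hV', add_mul]
    have : 1 / m ^ 4 * (δ / 4) ≤ 1 / m ^ 4 * 1 := mul_le_mul_of_nonneg_left (by linarith) (by positivity)
    linarith
  have h11 : 0 ≤ δ * V := by positivity
  linarith

end Pool.H363R3.SM2
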