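import Mathlib
import Pool.Agent.H363R3.SM2i

set_option autoImplicit false
set_option maxHeartbeats 4000000
open Polynomial

namespace Pool.H363R3.SM2

/-- a zero of `p` close to a critical point that is close to the unit circle. -/
lemma zero_near {m : ℕ} (a : ℂ) (ha : ‖a‖ ≤ 1) (z w : Fin m → ℂ)
    (hder : derivative ((X - C a) * ∏ j, (X - C (z j))) = C ((m:ℂ) + 1) * ∏ k, (X - C (w k)))
    (hz : ∀ j, ‖z j‖ ≤ 1) (k : Fin m) (hwa : 1 - ‖w k‖ ^ 2 < ‖w k - a‖ ^ 2) (hm : 0 < m) :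
    ∃ j, ‖w k - z j‖ ^ 2 ≤ 1 - ‖w k‖ ^ 2 ∨ w k = z j := by
  classical
  by_contra hcon
  push Not at hcon
  have hne : ∀ j, w k - z j ≠ 0 := fun j => sub_ne_zero.mpr (hcon j).2
  have hlt : ∀ j, 1 - ‖w k‖ ^ 2 < ‖w k - z j‖ ^ 2 := fun j => (hcon j).1
  have hnea : w k - a ≠ 0 := by
    intro h
    have h1 : w k = a := sub_eq_zero.mp h
    rw [h] at hwa
    simp at hwa
    rw [h1] at hwa
    have : ‖a‖ ^ 2 ≤ 1 := by nlinarith [norm_nonneg a]
    have : (1:ℝ) < ‖a‖ := hwa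
    linarith
  -- derivative vanishes at w k
  have hval := congrArg (fun q => eval (w k) q) hder
  have hR : eval (w k) (C ((m:ℂ) + 1) * ∏ k, (X - C (w k))) = 0 := by
    rw [eval_mul, eval_prod, Finset.prod_eq_zero (Finset.mem_univ k) (by simp), mul_zero]
  have hL : eval (w k) (derivative ((X - C a) * ∏ j, (X - C (z j))))
      = ((w k - a) * ∏ j, (w k - z j)) * (1 / (w k - a) + ∑ j, 1 / (w k - z j)) := by
    have hd : derivative (∏ j, (X - C (z j))) = ∑ j, (∏ i ∈ Finset.univ.erase j, (X - C (z i))) := by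
      rw [derivative_prod_finset]
      simp
    rw [derivative_mul, hd]
    simp only [derivative_sub, derivative_X, derivative_C, sub_zero, one_mul, eval_add, eval_mul,
      eval_sub, eval_X, eval_C, eval_prod, eval_finset_sum]
    have h2 : ∀ j, ∏ i ∈ Finset.univ.erase j, (w k - z i) = (∏ i, (w k - z i)) * (1 / (w k - z j)) := by
      intro j
      rw [← Finset.mul_prod_erase _ _ (Finset.mem_univ j)]
      have := hne j
      field_simp
    rw [Finset.sum_congr rfl fun j _ => h2 j, ← Finset.mul_sum]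
    field_simp
  beta_reduce at hval
  rw [hR, hL] at hval
  have hprod : (w k - a) * ∏ j, (w k - z j) ≠ 0 :=
    mul_ne_zero hnea (Finset.prod_ne_zero_iff.mpr fun j _ => hne j)
  have hsum := (mul_eq_zero.mp hval).resolve_left hprod
  -- real part inequality
  have key : ∀ y : ℂ, ‖y‖ ≤ 1 → w k - y ≠ 0 → 1 - ‖w k‖ ^ 2 < ‖w k - y‖ ^ 2 → 0 < (w k * (1 / (w k - y))).re := by
    intro y hy hy0 hlt
    have hpos : 0 < ‖w k - y‖ ^ 2 := by have := norm_pos_iff.mpr hy0; positivity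
    have e : w k * (1 / (w k - y)) = (w k * (starRingEnd ℂ) (w k - y)) * (((‖w k - y‖ ^ 2)⁻¹ : ℝ) : ℂ) := by
      have h1 : (starRingEnd ℂ) (w k - y) * (w k - y) = ((‖w k - y‖ ^ 2 : ℝ) : ℂ) := by
        rw [mul_comm, Complex.mul_conj, Complex.normSq_eq_norm_sq]
      have h2 : (((‖w k - y‖ ^ 2)⁻¹ : ℝ) : ℂ) = ((‖w k - y‖ ^ 2 : ℝ) : ℂ)⁻¹ := by push_cast; rfl
      rw [h2, ← h1]
      have h3 : (starRingEnd ℂ) (w k - y) ≠ 0 := by
        intro h; rw [h, zero_mul] at h1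
        have : (‖w k - y‖ ^ 2 : ℝ) = 0 := by exact_mod_cast h1.symm
        linarith
      field_simp
    rw [e, Complex.re_mul_ofReal]
    apply mul_pos _ (by positivity)
    have h3 : 2 * (w k * (starRingEnd ℂ) (w k - y)).re = ‖w k - y‖ ^ 2 + ‖w k‖ ^ 2 - ‖y‖ ^ 2 := by
      rw [Complex.sq_norm, Complex.sq_norm, Complex.sq_norm, Complex.normSq_apply, Complex.normSq_apply, Complex.normSq_apply]
      simp
      ring
    have h4 : ‖y‖ ^ 2 ≤ 1 := by nlinarith [norm_nonneg y]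
    linarith
  have hre : 0 < (w k * (1 / (w k - a) + ∑ j, 1 / (w k - z j))).re := by
    rw [mul_add, Complex.add_re, Finset.mul_sum, Complex.re_sum]
    have h1 := key a ha hnea hwa
    have h2 : 0 ≤ ∑ j, (w k * (1 / (w k - z j))).re := Finset.sum_nonneg fun j _ => (key (z j) (hz j) (hne j) (hlt j)).le
    linarith
  rw [hsum, mul_zero] at hre
  simp at hre

/-- exponential bound used for the two clusters: factor from the majority cluster. -/
lemma one_sub_le_exp (x : ℝ) : 1 - x ≤ Real.exp (-x) := by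
  have := Real.add_one_le_exp (-x); linarith

/-- `log` deficit to square deviation. -/
lemma sum_sq_dev {m : ℕ} (ρ : Fin m → ℝ) (hρ : ∀ k, 0 < ρ k) (hsum : ∑ k, (ρ k) ^ 2 ≤ m) (L : ℝ)
    (hprod : Real.exp (-L) ≤ ∏ k, ρ k) : ∑ k, (ρ k - 1) ^ 2 ≤ 2 * L := by
  have h1 : ∀ k, (ρ k - 1) ^ 2 ≤ (ρ k) ^ 2 - 1 - 2 * Real.log (ρ k) := by
    intro k
    have := Real.log_le_sub_one_of_pos (hρ k)
    nlinarith
  refine (Finset.sum_le_sum fun k _ => h1 k).trans ?_
  rw [Finset.sum_sub_distrib, Finset.sum_sub_distrib, ← Finset.mul_sum]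
  have h2 : ∑ k, Real.log (ρ k) = Real.log (∏ k, ρ k) := (Real.log_prod (fun k _ => (hρ k).ne')).symm
  rw [h2]
  have h3 : -L ≤ Real.log (∏ k, ρ k) := by
    rw [Real.le_log_iff_exp_le (Finset.prod_pos fun k _ => hρ k)]; exact hprod
  simp only [Finset.sum_const, Finset.card_univ, Fintype.card_fin, nsmul_eq_mul, mul_one]
  linarith

end Pool.H363R3.SM2
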