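import Mathlib
import Pool.Agent.H363R3.SM2k

set_option autoImplicit false
set_option maxHeartbeats 4000000
open Polynomial

namespace Pool.H363R3.SM2

lemma err_bound' {m : ℕ} (x : Fin m → ℂ) (T B lam D : ℝ) (hT : 0 ≤ T) (hl : 0 < lam) (hB : 0 ≤ B)
    (hD : 0 ≤ D) (hx : ∑ k, ‖x k‖ ^ 2 ≤ D)
    (h : ∀ t ∈ Set.Icc (0:ℝ) T, ∀ k, ∏ l ∈ Finset.univ.erase k, ‖1 - (t:ℂ) * x l‖ ≤ B * Real.exp (-(lam * t))) :
    ‖∫ t in (0:ℝ)..T, (t:ℂ) * ∑ k, (x k) ^ 2 * ∏ l ∈ Finset.univ.erase k, (1 - (t:ℂ) * x l)‖ ≤ B * D / lam ^ 2 := by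
  have hb : ∀ t ∈ Set.Ioc (0:ℝ) T, ‖(t:ℂ) * ∑ k, (x k) ^ 2 * ∏ l ∈ Finset.univ.erase k, (1 - (t:ℂ) * x l)‖
      ≤ (B * D) * (t * Real.exp (-(lam * t))) := by
    intro t ht
    rw [norm_mul, Complex.norm_real, Real.norm_eq_abs, abs_of_pos ht.1]
    have h1 : ‖∑ k, (x k) ^ 2 * ∏ l ∈ Finset.univ.erase k, (1 - (t:ℂ) * x l)‖ ≤ D * (B * Real.exp (-(lam * t))) := by
      refine (norm_sum_le _ _).trans ?_
      have h2 : ∀ k, ‖(x k) ^ 2 * ∏ l ∈ Finset.univ.erase k, (1 - (t:ℂ) * x l)‖ ≤ ‖x k‖ ^ 2 * (B * Real.exp (-(lam * t))) := by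
        intro k
        rw [norm_mul, norm_pow, norm_prod]
        exact mul_le_mul_of_nonneg_left (h t ⟨ht.1.le, ht.2⟩ k) (by positivity)
      refine (Finset.sum_le_sum fun k _ => h2 k).trans ?_
      rw [← Finset.sum_mul]
      exact mul_le_mul_of_nonneg_right hx (by positivity)
    calc t * ‖∑ k, (x k) ^ 2 * ∏ l ∈ Finset.univ.erase k, (1 - (t:ℂ) * x l)‖
        ≤ t * (D * (B * Real.exp (-(lam * t)))) := mul_le_mul_of_nonneg_left h1 ht.1.le
      _ = (B * D) * (t * Real.exp (-(lam * t))) := by ring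
  have hc : Continuous (fun t : ℝ => (B * D) * (t * Real.exp (-(lam * t)))) := by fun_prop
  refine (intervalIntegral.norm_integral_le_of_norm_le (μ := MeasureTheory.volume) hT
    (Filter.Eventually.of_forall hb) (hc.intervalIntegrable _ _)).trans ?_
  rw [intervalIntegral.integral_const_mul]
  have := mul_le_mul_of_nonneg_left (int_t_exp lam T hl hT) (by positivity : 0 ≤ B * D)
  refine this.trans (le_of_eq (by ring))

/-- If the factors `1 - t x_l` are bounded by `exp (t b_l)` with very negative total exponent, the integral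
`∫_0^1 ∏ (1 - t x_l)` cannot vanish. -/
lemma no_vanish {m : ℕ} (x : Fin m → ℂ) (b : Fin m → ℝ) (lam D : ℝ) (hl : 0 < lam) (hD : 0 ≤ D)
    (hx : ∑ k, ‖x k‖ ^ 2 ≤ D)
    (hb : ∀ t ∈ Set.Icc (0:ℝ) 1, ∀ l, ‖1 - (t:ℂ) * x l‖ ≤ Real.exp (t * b l))
    (hb1 : ∀ l, -1 ≤ b l) (hB : ∑ l, b l ≤ -lam)
    (hlt : Real.exp (-lam) + 3 * D / lam ^ 2 < 1)
    (hI : ∫ t in (0:ℝ)..1, ∏ k, (1 - (t:ℂ) * x k) = 0) : False := by
  have hid := ident_int x 1
  rw [hI, mul_zero, zero_add] at hid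
  have herr := err_bound' x 1 3 lam D (by norm_num) hl (by norm_num) hD hx (by
    intro t ht k
    have h1 : ∏ l ∈ Finset.univ.erase k, ‖1 - (t:ℂ) * x l‖ ≤ ∏ l ∈ Finset.univ.erase k, Real.exp (t * b l) :=
      Finset.prod_le_prod (fun l _ => norm_nonneg _) fun l _ => hb t ht l
    refine h1.trans ?_
    rw [← Real.exp_sum]
    have h2 : ∑ l ∈ Finset.univ.erase k, t * b l ≤ 1 + -(lam * t) := by
      have h3 : ∑ l ∈ Finset.univ.erase k, t * b l = t * ∑ l, b l - t * b k := by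
        rw [← Finset.add_sum_erase _ _ (Finset.mem_univ k), mul_add, Finset.mul_sum]; ring
      rw [h3]
      have h4 := mul_le_mul_of_nonneg_left hB ht.1
      have h5 := mul_le_mul_of_nonneg_left (hb1 k) ht.1
      linarith [ht.2]
    refine (Real.exp_le_exp.mpr h2).trans ?_
    rw [Real.exp_add]
    apply mul_le_mul_of_nonneg_right _ (Real.exp_pos _).le
    have := Real.exp_one_lt_d9
    linarith)
  have hfull : ‖∏ k, (1 - ((1:ℝ):ℂ) * x k)‖ ≤ Real.exp (-lam) := by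
    rw [norm_prod]
    have h1 : ∏ l, ‖1 - ((1:ℝ):ℂ) * x l‖ ≤ ∏ l, Real.exp (1 * b l) :=
      Finset.prod_le_prod (fun l _ => norm_nonneg _) fun l _ => hb 1 ⟨by norm_num, le_refl _⟩ l
    refine h1.trans ?_
    rw [← Real.exp_sum]
    apply Real.exp_le_exp.mpr
    simpa using hB
  have h2 := norm_sub_norm_le (1:ℂ) (∏ k, (1 - ((1:ℝ):ℂ) * x k))
  rw [hid, norm_one] at h2
  linarith

lemma nsq (s : ℝ) (w : ℂ) : ‖1 - (s:ℂ) * w‖ ^ 2 = 1 - 2 * s * w.re + s ^ 2 * ‖w‖ ^ 2 := by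
  rw [Complex.sq_norm, Complex.sq_norm, Complex.normSq_apply, Complex.normSq_apply]
  simp
  ring

lemma aux_eq_one (x : ℝ) (h0 : 0 ≤ x) (h1 : x ^ 2 = 1) : x = 1 := by nlinarith

lemma aux1 (η W : ℝ) (h0 : 0 < η) (h : 1 - η ≤ W * (1 + η)) : 1 - 2 * η ≤ W := by
  by_contra hc
  push Not at hc
  nlinarith

lemma aux2 (η W : ℝ) (h : 1 - 2 * η ≤ W) : 1 - W ^ 2 ≤ 4 * η := by
  nlinarith [sq_nonneg (W - 1)]

lemma aux3 (η D : ℝ) (h0 : 0 < η) (h1 : η ≤ 1 / 100) (hD : 0 ≤ D) (h : 1 ≤ D * (1 + η)) : 4 * η < D ^ 2 := by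
  have h2 : 9 / 10 ≤ D := by nlinarith
  nlinarith

lemma aux4 (η U x : ℝ) (h0 : 0 < η) (h1 : η ≤ 1 / 100) (hU : 1 - η ≤ U) (hx : x ≤ η) : x ≤ 2 * η * U := by
  nlinarith

lemma aux5 (a t : ℝ) (h0 : 0 ≤ t) (h1 : t ≤ 1) : 1 + (2 - a ^ 2) * t + t ^ 2 ≤ (1 + t * (1 - a ^ 2 / 4)) ^ 2 := by
  have e : (1 + t * (1 - a ^ 2 / 4)) ^ 2 = 1 + (2 - a ^ 2) * t + t ^ 2 + (a ^ 2 * t * (1 - t) / 2 + t ^ 2 * (a ^ 2) ^ 2 / 16) := by
    ring
  rw [e]
  have h2 : 0 ≤ a ^ 2 * t * (1 - t) := mul_nonneg (mul_nonneg (sq_nonneg _) h0) (by linarith)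
  have h3 : 0 ≤ t ^ 2 * (a ^ 2) ^ 2 := by positivity
  linarith

lemma part3_aux {m : ℕ} (hm : 0 < m) (a δ η1 : ℝ) (hδ0 : 0 < δ) (hδ1 : δ ≤ 1) (haδ : δ ≤ a) (ha1 : a ≤ 1)
    (hη1 : η1 = (δ ^ 2 / 192) ^ 2) (z w : Fin m → ℂ)
    (hder : derivative ((X - C (a:ℂ)) * ∏ j, (X - C (z j))) = C ((m:ℂ) + 1) * ∏ k, (X - C (w k)))
    (hz : ∀ j, ‖z j‖ ≤ 1) (hwa : ∀ k, w k ≠ a) (hza : ∀ j, z j ≠ a)
    (hF : derivative (X * ∏ j, (1 + C (((a:ℂ) - z j)⁻¹) * X)) = ∏ k, (1 + C (((a:ℂ) - w k)⁻¹) * X))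
    (hU : ∑ k, ‖((a:ℂ) - w k)⁻¹‖ ^ 2 ≤ m)
    (e : ℂ) (he : ‖e‖ = 1) (her : e.re = a / 2)
    (P E : Finset (Fin m)) (hPE : Disjoint P E)
    (hP : ∀ k ∈ P, ‖((a:ℂ) - w k)⁻¹ - e‖ ≤ η1)
    (hR : ∀ k, k ∉ P ∪ E → ‖((a:ℂ) - w k)⁻¹ - (starRingEnd ℂ) e‖ ≤ η1)
    (hcard : ((P ∪ E)ᶜ).card ≤ P.card) (hEcard : (E.card : ℝ) ≤ m * (δ ^ 2 / 256) ^ 2)
    (hlarge : Real.exp (-(δ ^ 2 * m / 32)) + 12288 / (δ ^ 4 * m) < 1) : False := by
  classical
  have hm0 : (0:ℝ) < m := by exact_mod_cast hm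
  have ha0 : 0 < a := by linarith
  have haδ2 : δ ^ 2 ≤ a ^ 2 := pow_le_pow_left₀ hδ0.le haδ 2
  have hδ2 : δ ^ 2 ≤ 1 := by nlinarith
  set s1 : ℝ := δ ^ 2 / 192 with hs1
  have hs10 : 0 < s1 := by positivity
  have hs11 : s1 ≤ 1/192 := by rw [hs1]; linarith
  have hη10 : 0 < η1 := by rw [hη1]; positivity
  have hη1s : η1 ≤ s1 / 192 := by
    rw [hη1, sq]; have := mul_le_mul_of_nonneg_left hs11 hs10.le; linarith
  have hδs : δ ^ 2 = 192 * s1 := by rw [hs1]; ring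
  have ha2 : a ^ 2 ≤ 1 := by
    have := pow_le_pow_left₀ ha0.le ha1 2; simpa using this
  set u : Fin m → ℂ := fun k => ((a:ℂ) - w k)⁻¹ with hu
  have hwne : ∀ k, (a:ℂ) - w k ≠ 0 := fun k => sub_ne_zero.mpr (hwa k).symm
  have hzne : ∀ j, (a:ℂ) - z j ≠ 0 := fun j => sub_ne_zero.mpr (hza j).symm
  set eb : ℂ := (starRingEnd ℂ) e with heb
  have hebn : ‖eb‖ = 1 := by rw [heb, RCLike.norm_conj]; exact he
  have hebe : eb * e = 1 := by
    rw [heb, mul_comm, Complex.mul_conj, Complex.normSq_eq_norm_sq, he]; simp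
  have hsq : e.re ^ 2 + e.im ^ 2 = 1 := by
    have := Complex.sq_norm e
    rw [he, Complex.normSq_apply] at this
    linear_combination -this
  -- cardinalities
  have hcardsum : (P.card : ℝ) + E.card + ((P ∪ E)ᶜ).card = m := by
    have h1 := Finset.card_add_card_compl (P ∪ E)
    rw [Finset.card_union_of_disjoint hPE, Fintype.card_fin] at h1
    exact_mod_cast h1
  have hcardR : (((P ∪ E)ᶜ).card : ℝ) ≤ P.card := by exact_mod_cast hcard
  have hE2 : (E.card : ℝ) ≤ m * (1 / 65536) := by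
    refine hEcard.trans (mul_le_mul_of_nonneg_left ?_ hm0.le)
    have : (δ ^ 2 / 256) ^ 2 ≤ (1 / 256) ^ 2 := pow_le_pow_left₀ (by positivity) (by linarith) 2
    refine this.trans (by norm_num)
  have hPpos : 0 < (P.card : ℝ) := by linarith
  have hPhalf : (m - E.card) / 2 ≤ (P.card : ℝ) := by linarith
  obtain ⟨k0, hk0⟩ : P.Nonempty := Finset.card_pos.mp (by exact_mod_cast hPpos)
  -- the critical point near the circle
  have hue := hP k0 hk0
  have hun : ‖u k0‖ ≤ 1 + η1 := by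
    have := norm_le_norm_add_norm_sub e (u k0)
    rw [he, norm_sub_rev] at this
    linarith
  have hun' : 1 - η1 ≤ ‖u k0‖ := by
    have := norm_sub_norm_le e (u k0)
    rw [he, norm_sub_rev] at this
    linarith
  have hune : u k0 ≠ 0 := inv_ne_zero (hwne k0)
  have hunp : 0 < ‖u k0‖ := norm_pos_iff.mpr hune
  have hae : ‖1 - (a:ℂ) * e‖ = 1 := by
    have h1 : ‖1 - (a:ℂ) * e‖ ^ 2 = 1 := by
      rw [nsq, her, he]; ring
    exact aux_eq_one _ (norm_nonneg _) h1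
  have hwu : ‖w k0‖ * ‖u k0‖ = ‖1 - (a:ℂ) * u k0‖ := by
    have h1 : 1 - (a:ℂ) * u k0 = -(w k0 * u k0) := by
      rw [hu]; simp only
      have := hwne k0
      field_simp; ring
    rw [h1, norm_neg, norm_mul]
  have h1au : 1 - η1 ≤ ‖1 - (a:ℂ) * u k0‖ := by
    have h1 : 1 - (a:ℂ) * e = (1 - (a:ℂ) * u k0) + (a:ℂ) * (u k0 - e) := by ring
    have h2 := congrArg norm h1
    rw [hae] at h2
    have h3 := norm_add_le (1 - (a:ℂ) * u k0) ((a:ℂ) * (u k0 - e))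
    rw [norm_mul, Complex.norm_real, Real.norm_eq_abs, abs_of_pos ha0] at h3
    have h4 : a * ‖u k0 - e‖ ≤ 1 * η1 := mul_le_mul ha1 hue (norm_nonneg _) (by norm_num)
    linarith
  have hwlow : 1 - 2 * η1 ≤ ‖w k0‖ := by
    have h1 : 1 - η1 ≤ ‖w k0‖ * (1 + η1) := by
      calc 1 - η1 ≤ ‖w k0‖ * ‖u k0‖ := by rw [hwu]; exact h1au
        _ ≤ ‖w k0‖ * (1 + η1) := mul_le_mul_of_nonneg_left hun (norm_nonneg _)
    exact aux1 _ _ hη10 h1
  have hw2 : 1 - ‖w k0‖ ^ 2 ≤ 4 * η1 := aux2 _ _ hwlow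
  have hdist : ‖w k0 - a‖ * ‖u k0‖ = 1 := by
    rw [norm_sub_rev, hu, ← norm_mul, mul_inv_cancel₀ (hwne k0), norm_one]
  have hdist2 : 1 - ‖w k0‖ ^ 2 < ‖w k0 - a‖ ^ 2 := by
    have h1 : 1 ≤ ‖w k0 - a‖ * (1 + η1) := by
      have := mul_le_mul_of_nonneg_left hun (norm_nonneg (w k0 - a))
      linarith
    exact lt_of_le_of_lt hw2 (aux3 _ _ hη10 (by linarith) (norm_nonneg _) h1)
  obtain ⟨j, hj⟩ := zero_near (a:ℂ) (by rw [Complex.norm_real, Real.norm_eq_abs, abs_of_pos ha0]; exact ha1)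
    z w hder hz k0 hdist2 hm
  have hzj : ‖w k0 - z j‖ ≤ 2 * s1 := by
    rcases hj with h | h
    · apply abs_le_of_sq_le_sq' _ (by positivity) |>.2
      rw [mul_pow, ← hη1]; linarith
    · rw [h, sub_self, norm_zero]; positivity
  set q : ℂ := (a:ℂ) - z j with hq
  have hq0 : q ≠ 0 := hzne j
  have hqn : ‖q‖ ≤ 2 := by
    have := norm_sub_le (a:ℂ) (z j)
    rw [Complex.norm_real, Real.norm_eq_abs, abs_of_pos ha0] at this
    linarith [hz j]
  have hqe : ‖q - eb‖ ≤ 4 * s1 := by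
    have h1 : q - eb = (w k0 - z j) + ((u k0)⁻¹ - eb) := by
      rw [hq, hu]; simp only [inv_inv]; ring
    rw [h1]
    refine (norm_add_le _ _).trans ?_
    have h2 : (u k0)⁻¹ - eb = eb * (e - u k0) * (u k0)⁻¹ := by
      field_simp
      linear_combination (-1:ℂ) * hebe
    have h3 : ‖(u k0)⁻¹ - eb‖ ≤ 2 * η1 := by
      rw [h2, norm_mul, norm_mul, hebn, one_mul, norm_inv, norm_sub_rev]
      rw [← div_eq_mul_inv, div_le_iff₀ hunp]
      exact aux4 _ _ _ hη10 (by linarith) hun' hue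
    linarith
  have hebre : (eb * eb).re = a ^ 2 / 2 - 1 := by
    rw [heb, Complex.mul_re, Complex.conj_re, Complex.conj_im]
    rw [her] at hsq ⊢
    linear_combination (-1:ℝ) * hsq
  -- factors
  set x : Fin m → ℂ := fun k => q * u k with hx
  set b : Fin m → ℝ := fun k => if k ∈ P then -(1 - 12 * s1 - η1) else if k ∈ E then 2 * ‖u k‖ else 1 - a ^ 2 / 4 + (12 * s1 + η1) with hb
  have hunb : ∀ k (f : ℂ), ‖f‖ = 1 → ‖u k - f‖ ≤ η1 → ‖x k - eb * f‖ ≤ 12 * s1 + η1 := by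
    intro k f hf h
    have h1 : x k - eb * f = (q - eb) * u k + eb * (u k - f) := by rw [hx]; ring
    rw [h1]
    refine (norm_add_le _ _).trans ?_
    rw [norm_mul, norm_mul, hebn, one_mul]
    have h2 : ‖u k‖ ≤ 3 := by
      have := norm_le_norm_add_norm_sub f (u k)
      rw [hf, norm_sub_rev] at this
      linarith
    have h3 : ‖q - eb‖ * ‖u k‖ ≤ 4 * s1 * 3 := mul_le_mul hqe h2 (norm_nonneg _) (by positivity)
    linarith
  have hfac : ∀ t ∈ Set.Icc (0:ℝ) 1, ∀ l, ‖1 - (t:ℂ) * x l‖ ≤ Real.exp (t * b l) := by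
    intro t ht l
    have htn : ‖(t:ℂ)‖ = t := by rw [Complex.norm_real, Real.norm_eq_abs, abs_of_nonneg ht.1]
    have hexp := Real.add_one_le_exp (t * b l)
    refine le_trans ?_ hexp
    by_cases h1 : l ∈ P
    · have hbl : b l = -(1 - 12 * s1 - η1) := by rw [hb]; simp [h1]
      rw [hbl]
      have h2 := hunb l e he (hP l h1)
      rw [hebe] at h2
      have h3 : 1 - (t:ℂ) * x l = ((1 - t : ℝ) : ℂ) - (t:ℂ) * (x l - 1) := by push_cast; ring
      rw [h3]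
      refine (norm_sub_le _ _).trans ?_
      rw [norm_mul, htn, Complex.norm_real, Real.norm_eq_abs, abs_of_nonneg (by linarith [ht.2])]
      have := mul_le_mul_of_nonneg_left h2 ht.1
      linarith
    · by_cases h2 : l ∈ E
      · have hbl : b l = 2 * ‖u l‖ := by rw [hb]; simp [h1, h2]
        rw [hbl]
        refine (norm_sub_le _ _).trans ?_
        rw [norm_one, norm_mul, htn, hx]; simp only
        rw [norm_mul]
        have h3 : ‖q‖ * ‖u l‖ ≤ 2 * ‖u l‖ := mul_le_mul_of_nonneg_right hqn (norm_nonneg _)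
        have := mul_le_mul_of_nonneg_left h3 ht.1
        linarith
      · have hbl : b l = 1 - a ^ 2 / 4 + (12 * s1 + η1) := by rw [hb]; simp [h1, h2]
        rw [hbl]
        have h3 := hunb l eb hebn (hR l (by simp [h1, h2]))
        have h4 : 1 - (t:ℂ) * x l = (1 - (t:ℂ) * (eb * eb)) - (t:ℂ) * (x l - eb * eb) := by ring
        rw [h4]
        refine (norm_sub_le _ _).trans ?_
        rw [norm_mul, htn]
        have h5 : ‖1 - (t:ℂ) * (eb * eb)‖ ≤ 1 + t * (1 - a ^ 2 / 4) := by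
          have hn : 0 ≤ 1 + t * (1 - a ^ 2 / 4) := by
            have := mul_nonneg ht.1 (by linarith : 0 ≤ 1 - a ^ 2 / 4)
            linarith
          apply abs_le_of_sq_le_sq' _ hn |>.2
          rw [nsq, hebre, norm_mul, hebn]
          have := aux5 a t ht.1 ht.2
          linarith
        have := mul_le_mul_of_nonneg_left h3 ht.1
        linarith
  have hb1 : ∀ l, -1 ≤ b l := by
    intro l
    rw [hb]; simp only
    split_ifs
    · linarith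
    · have := norm_nonneg (u l); linarith
    · linarith
  -- total exponent
  have hsumE : ∑ k ∈ E, ‖u k‖ ≤ m * (δ ^ 2 / 256) := by
    have h1 : (∑ k ∈ E, ‖u k‖) ^ 2 ≤ (m * (δ ^ 2 / 256)) ^ 2 := by
      have h2 := sq_sum_le_card_mul_sum_sq (s := E) (f := fun k => ‖u k‖)
      refine h2.trans ?_
      have h3 : ∑ k ∈ E, ‖u k‖ ^ 2 ≤ m := by
        refine le_trans (Finset.sum_le_sum_of_subset_of_nonneg (Finset.subset_univ E) fun _ _ _ => by positivity) hU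
      calc (E.card : ℝ) * ∑ k ∈ E, ‖u k‖ ^ 2 ≤ (m * (δ ^ 2 / 256) ^ 2) * m :=
            mul_le_mul hEcard h3 (Finset.sum_nonneg fun _ _ => by positivity) (by positivity)
        _ = (m * (δ ^ 2 / 256)) ^ 2 := by ring
    exact abs_le_of_sq_le_sq' h1 (by positivity) |>.2
  have hB : ∑ l, b l ≤ -(δ ^ 2 * m / 32) := by
    have h1 : ∑ l, b l = ∑ l ∈ P, b l + ∑ l ∈ E, b l + ∑ l ∈ (P ∪ E)ᶜ, b l := by
      rw [← Finset.sum_union hPE, Finset.sum_add_sum_compl]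
    have h2 : ∑ l ∈ P, b l = P.card * (-(1 - 12 * s1 - η1)) := by
      rw [Finset.sum_congr rfl (g := fun _ => (-(1 - 12 * s1 - η1))) (fun l hl => by rw [hb]; simp [hl])]
      rw [Finset.sum_const, nsmul_eq_mul]
    have h3 : ∑ l ∈ E, b l = 2 * ∑ l ∈ E, ‖u l‖ := by
      rw [Finset.mul_sum]
      refine Finset.sum_congr rfl fun l hl => ?_
      have : l ∉ P := fun h => (Finset.disjoint_left.mp hPE h) hl
      rw [hb]; simp [hl, this]
    have h4 : ∑ l ∈ (P ∪ E)ᶜ, b l = ((P ∪ E)ᶜ).card * (1 - a ^ 2 / 4 + (12 * s1 + η1)) := by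
      rw [Finset.sum_congr rfl (g := fun _ => (1 - a ^ 2 / 4 + (12 * s1 + η1))) (fun l hl => by
        rw [Finset.mem_compl, Finset.mem_union, not_or] at hl
        rw [hb]; simp only [if_neg hl.1, if_neg hl.2])]
      rw [Finset.sum_const, nsmul_eq_mul]
    rw [h1, h2, h3, h4]
    have h5 : 0 ≤ 1 - a ^ 2 / 4 + (12 * s1 + η1) := by linarith
    have h6 : (((P ∪ E)ᶜ).card : ℝ) * (1 - a ^ 2 / 4 + (12 * s1 + η1)) ≤ P.card * (1 - a ^ 2 / 4 + (12 * s1 + η1)) :=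
      mul_le_mul_of_nonneg_right hcardR h5
    have h7 : (P.card : ℝ) * (a ^ 2 / 4 - 2 * (12 * s1 + η1)) ≥ (m * (1 - 1/65536)) / 2 * (δ ^ 2 / 4 - 2 * (12 * s1 + η1)) := by
      apply mul_le_mul _ (by linarith) _ hPpos.le
      · refine le_trans ?_ hPhalf
        linarith
      · linarith
    have h8 : δ ^ 2 / 4 - 2 * (12 * s1 + η1) ≥ δ ^ 2 / 4 - 2 * (13 * s1) := by linarith
    have h9 : δ ^ 2 / 4 - 2 * (13 * s1) = δ ^ 2 * (11 / 96) := by rw [hs1]; ring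
    have h10 : (m * (1 - 1/65536)) / 2 * (δ ^ 2 / 4 - 2 * (12 * s1 + η1)) ≥ (m * (1 - 1/65536)) / 2 * (δ ^ 2 * (11 / 96)) := by
      apply mul_le_mul_of_nonneg_left _ (by positivity)
      linarith
    have h11 : 0 < (m:ℝ) * δ ^ 2 := by positivity
    linarith
  -- vanishing integral
  have hI : ∫ t in (0:ℝ)..1, ∏ k, (1 - (t:ℂ) * x k) = 0 := by
    have h1 := integral_seg u (fun j => ((a:ℂ) - z j)⁻¹) hF (-q) (neg_ne_zero.mpr hq0)
    have e1 : ∀ t : ℝ, ∏ k, (1 - (t:ℂ) * x k) = ∏ k, (1 + u k * (-q * t)) := by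
      intro t
      refine Finset.prod_congr rfl fun k _ => ?_
      rw [hx]; ring
    simp only [e1]
    rw [h1]
    apply Finset.prod_eq_zero (Finset.mem_univ j)
    simp only [← hq]
    field_simp; ring
  have hxs : ∑ k, ‖x k‖ ^ 2 ≤ 4 * m := by
    have h1 : ∀ k, ‖x k‖ ^ 2 ≤ 4 * ‖u k‖ ^ 2 := by
      intro k
      rw [hx]; simp only
      rw [norm_mul, mul_pow]
      apply mul_le_mul_of_nonneg_right _ (by positivity)
      refine (pow_le_pow_left₀ (norm_nonneg q) hqn 2).trans (by norm_num)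
    refine (Finset.sum_le_sum fun k _ => h1 k).trans ?_
    rw [← Finset.mul_sum]
    exact mul_le_mul_of_nonneg_left hU (by norm_num)
  refine no_vanish x b (δ ^ 2 * m / 32) (4 * m) (by positivity) (by positivity) hxs hfac hb1 hB ?_ hI
  refine lt_of_le_of_lt (le_of_eq ?_) hlarge
  congr 1
  field_simp
  norm_num

end Pool.H363R3.SM2
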