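import Mathlib
import Pool.Agent.H363R3.SM2l

set_option autoImplicit false
set_option maxHeartbeats 4000000
open Polynomial

namespace Pool.H363R3.SM2

lemma auxsq (r η : ℝ) (hη : 0 ≤ η) (hη1 : η ≤ 1 / 100) (h : |r - 1| ≤ η) : |r ^ 2 - 1| ≤ 3 * η := by
  rw [abs_le] at h ⊢
  constructor <;> nlinarith [h.1, h.2]

lemma auxdiv (s y c : ℝ) (hs : 0 < s) (h : s * |y| ≤ c) : |y| ≤ c / s := by
  rw [le_div_iff₀ hs]; linarith [mul_comm s |y|]

lemma cluster (a δ η η1 t0 : ℝ) (hδ0 : 0 < δ) (hδ1 : δ ≤ 1) (haδ : δ ≤ a) (ha1 : a ≤ 1)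
    (ht0 : 1 / 2 ≤ t0) (ht1 : t0 ≤ 1) (hτ : 1 - t0 ≤ η) (hη : 0 ≤ η) (hη100 : η ≤ 1 / 100)
    (hη1 : 30 * η ≤ δ * η1) (u : ℂ)
    (h1 : |‖1 - ((t0 * a : ℝ) : ℂ) * u‖ - 1| ≤ η) (h2 : |‖u‖ - 1| ≤ η) :
    ‖u - ⟨a / 2, √(1 - a ^ 2 / 4)⟩‖ ≤ η1 ∨ ‖u - ⟨a / 2, -√(1 - a ^ 2 / 4)⟩‖ ≤ η1 := by
  have q1 := auxsq _ _ hη hη100 h1
  have q2 := auxsq _ _ hη hη100 h2
  rw [nsq] at q1
  set s := t0 * a with hs
  have hs0 : δ / 2 ≤ s := by rw [hs]; nlinarith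
  have hs1 : s ≤ 1 := by rw [hs]; nlinarith
  have hsa : |s - a| ≤ η := by
    rw [abs_le, hs]; constructor <;> nlinarith
  set Q := ‖u‖ ^ 2 with hQ
  have hQe : Q = u.re ^ 2 + u.im ^ 2 := by rw [hQ, Complex.sq_norm, Complex.normSq_apply]; ring
  set x := u.re with hx
  set y := u.im with hy
  have k1 : s * |2 * x - s| ≤ 6 * η := by
    have e : s * |2 * x - s| = |s * (2 * x - s)| := by rw [abs_mul, abs_of_pos (by linarith : 0 < s)]
    rw [e]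
    have hsq : s ^ 2 ≤ 1 := by nlinarith
    rw [abs_le] at q1 q2 ⊢
    have m1 : s ^ 2 * (Q - 1) ≤ 1 * (3 * η) := by
      have := mul_le_mul_of_nonneg_left q2.2 (sq_nonneg s)
      nlinarith
    have m2 : -(3 * η) ≤ s ^ 2 * (Q - 1) := by
      have := mul_le_mul_of_nonneg_left q2.1 (sq_nonneg s)
      nlinarith
    constructor <;> linarith [q1.1, q1.2]
  have hspos : 0 < s := by linarith
  have k2 : |2 * x - s| ≤ 12 * η / δ := by
    have := auxdiv s (2 * x - s) (6 * η) hspos k1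
    refine this.trans ?_
    rw [div_le_div_iff₀ hspos hδ0]
    nlinarith
  have hηδ : η ≤ η / δ := by
    rw [le_div_iff₀ hδ0]; nlinarith
  have hηδ0 : 0 ≤ η / δ := by positivity
  have k3 : |x - a / 2| ≤ 13 / 2 * (η / δ) := by
    have e : 12 * η / δ = 12 * (η / δ) := by ring
    rw [e] at k2
    rw [abs_le] at k2 hsa ⊢
    constructor <;> linarith [k2.1, k2.2, hsa.1, hsa.2]
  have hxu : |x| ≤ ‖u‖ := Complex.abs_re_le_norm u
  have hun : ‖u‖ ≤ 101 / 100 := by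
    rw [abs_le] at h2; linarith [h2.2]
  have hx1 : |x + a / 2| ≤ 151 / 100 := by
    have := abs_le.mp (hxu.trans hun)
    rw [abs_le]; constructor <;> linarith [this.1, this.2]
  set Y := √(1 - a ^ 2 / 4) with hY
  have hY2 : Y ^ 2 = 1 - a ^ 2 / 4 := Real.sq_sqrt (by nlinarith)
  have hY0 : 0 ≤ Y := Real.sqrt_nonneg _
  have ha2 : a ^ 2 ≤ 1 := by nlinarith
  have hY1 : 86 / 100 ≤ Y := by nlinarith
  have k4 : |(y - Y) * (y + Y)| ≤ 129 / 10 * (η / δ) := by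
    have e : (y - Y) * (y + Y) = (Q - 1) - (x - a / 2) * (x + a / 2) := by
      rw [hQe]; ring_nf; rw [hY2]; ring
    rw [e]
    refine (abs_sub _ _).trans ?_
    rw [abs_mul]
    have := mul_le_mul k3 hx1 (abs_nonneg _) (by positivity)
    linarith
  rw [abs_mul] at k4
  have hnorm : ∀ Z : ℝ, ‖u - ⟨a / 2, Z⟩‖ ≤ |x - a / 2| + |y - Z| := by
    intro Z
    have := Complex.norm_le_abs_re_add_abs_im (u - ⟨a / 2, Z⟩)
    simpa using this
  have hfin : 22 * (η / δ) ≤ η1 := by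
    have : 22 * (η / δ) = 22 * η / δ := by ring
    rw [this, div_le_iff₀ hδ0]
    linarith
  rcases le_or_gt 0 y with hy0 | hy0
  · left
    refine (hnorm Y).trans ?_
    have h3 : |y - Y| * (86 / 100) ≤ 129 / 10 * (η / δ) := by
      refine le_trans (mul_le_mul_of_nonneg_left ?_ (abs_nonneg _)) k4
      rw [abs_of_nonneg (by linarith)]; linarith
    linarith
  · right
    refine (hnorm (-Y)).trans ?_
    have h3 : |y - -Y| * (86 / 100) ≤ 129 / 10 * (η / δ) := by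
      rw [sub_neg_eq_add]
      have h4 : |y + Y| * (86 / 100) ≤ |y + Y| * |y - Y| := by
        apply mul_le_mul_of_nonneg_left _ (abs_nonneg _)
        rw [abs_of_neg (by linarith)]; linarith
      linarith [mul_comm |y + Y| |y - Y|]
    linarith

lemma part3 {m : ℕ} (hm : 0 < m) (a δ η L t0 : ℝ) (hδ0 : 0 < δ) (hδ1 : δ ≤ 1) (haδ : δ ≤ a) (ha1 : a ≤ 1)
    (z w : Fin m → ℂ)
    (hder : derivative ((X - C (a:ℂ)) * ∏ j, (X - C (z j))) = C ((m:ℂ) + 1) * ∏ k, (X - C (w k)))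
    (hz : ∀ j, ‖z j‖ ≤ 1) (hwa : ∀ k, w k ≠ a) (hza : ∀ j, z j ≠ a)
    (hF : derivative (X * ∏ j, (1 + C (((a:ℂ) - z j)⁻¹) * X)) = ∏ k, (1 + C (((a:ℂ) - w k)⁻¹) * X))
    (hu : ∀ k, ‖1 - (a:ℂ) * ((a:ℂ) - w k)⁻¹‖ ≤ ‖((a:ℂ) - w k)⁻¹‖)
    (hU : ∑ k, ‖((a:ℂ) - w k)⁻¹‖ ^ 2 ≤ m)
    (ht0 : 1 / 2 ≤ t0) (ht1 : t0 ≤ 1) (hL : 0 ≤ L)
    (hD : Real.exp (-L) ≤ ‖∏ k, (1 - (t0:ℂ) * ((a:ℂ) * ((a:ℂ) - w k)⁻¹))‖)
    (hη : 0 < η) (hηv : 30 * η ≤ δ * (δ ^ 2 / 192) ^ 2)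
    (c1 : 4 * L / δ ^ 2 ≤ η * m)
    (c2 : 4 * (L * (1 + 4 / δ ^ 2)) / η ^ 2 ≤ m * (δ ^ 2 / 256) ^ 2)
    (hlarge : Real.exp (-(δ ^ 2 * m / 32)) + 12288 / (δ ^ 4 * m) < 1) : False := by
  classical
  have hm0 : (0:ℝ) < m := by exact_mod_cast hm
  have ha0 : 0 < a := by linarith
  have haδ2 : δ ^ 2 ≤ a ^ 2 := pow_le_pow_left₀ hδ0.le haδ 2
  have hδ2 : δ ^ 2 ≤ 1 := by
    have := pow_le_pow_left₀ hδ0.le hδ1 2; simpa using this
  set u : Fin m → ℂ := fun k => ((a:ℂ) - w k)⁻¹ with hudef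
  have hη100 : η ≤ 1 / 100 := by
    have h1 : (δ ^ 2 / 192) ^ 2 ≤ 1 := by
      have : (δ ^ 2 / 192) ^ 2 ≤ 1 ^ 2 := pow_le_pow_left₀ (by positivity) (by linarith) 2
      simpa using this
    have h2 : (δ ^ 2 / 192) ^ 2 ≤ 1 / 100 := by
      have : (δ ^ 2 / 192) ^ 2 ≤ (1 / 10) ^ 2 := pow_le_pow_left₀ (by positivity) (by linarith) 2
      refine this.trans (by norm_num)
    have h3 : δ * (δ ^ 2 / 192) ^ 2 ≤ 1 * (1 / 100) := mul_le_mul hδ1 h2 (by positivity) (by norm_num)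
    linarith
  set ρ : Fin m → ℝ := fun k => ‖1 - (t0:ℂ) * ((a:ℂ) * u k)‖ with hρ
  have hρ0 : ∀ k, 0 ≤ ρ k := fun k => norm_nonneg _
  have hprodρ : Real.exp (-L) ≤ ∏ k, ρ k := by
    rw [norm_prod] at hD; exact hD
  have hρpos : ∀ k, 0 < ρ k := by
    intro k
    rcases eq_or_lt_of_le (hρ0 k) with h | h
    · exfalso
      have h1 : ∏ k, ρ k = 0 := Finset.prod_eq_zero (Finset.mem_univ k) h.symm
      rw [h1] at hprodρ
      exact absurd hprodρ (not_le.mpr (Real.exp_pos _))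
    · exact h
  have hms := mean_sq a ha0.le ha1 u hu hU t0 (by linarith) ht1
  have hmse := mean_sq_exp a ha0.le ha1 u hu hU t0 (by linarith) ht1
  set τ := 1 - t0 with hτdef
  have hτ0 : 0 ≤ τ := by linarith
  have hτm : τ * m ≤ 4 * L / δ ^ 2 := by
    have h1 := full_bound ρ hρ0 (a ^ 2 * t0 * τ) hmse
    have h2 := Real.exp_le_exp.mp (hprodρ.trans h1)
    have h3 : δ ^ 2 * (1 / 2) * τ ≤ a ^ 2 * t0 * τ :=
      mul_le_mul_of_nonneg_right (mul_le_mul haδ2 ht0 (by norm_num) (by positivity)) hτ0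
    have h4 := mul_le_mul_of_nonneg_right h3 hm0.le
    rw [le_div_iff₀ (by positivity)]
    linarith
  have hτη : τ ≤ η := by
    have h1 := hτm.trans c1
    exact le_of_mul_le_mul_right h1 hm0
  have hsumρ : ∑ k, (ρ k) ^ 2 ≤ m := by
    refine hms.trans ?_
    have : 0 ≤ a ^ 2 * t0 * τ := by positivity
    have h1 : (m:ℝ) * (1 - a ^ 2 * t0 * τ) ≤ m * 1 := mul_le_mul_of_nonneg_left (by linarith) hm0.le
    linarith
  have hdev1 := sum_sq_dev ρ hρpos hsumρ L hprodρ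
  have hwne : ∀ k, (a:ℂ) - w k ≠ 0 := fun k => sub_ne_zero.mpr (hwa k).symm
  have hupos : ∀ k, 0 < ‖u k‖ := fun k => norm_pos_iff.mpr (inv_ne_zero (hwne k))
  have hρu : ∀ k, ρ k ≤ Real.exp τ * ‖u k‖ := by
    intro k
    have h1 : 1 - (t0:ℂ) * ((a:ℂ) * u k) = (1 - (a:ℂ) * u k) + ((τ * a : ℝ) : ℂ) * u k := by
      rw [hτdef]; push_cast; ring
    rw [hρ]; simp only
    rw [h1]
    refine (norm_add_le _ _).trans ?_
    rw [norm_mul, Complex.norm_real, Real.norm_eq_abs, abs_of_nonneg (by positivity)]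
    have h2 := hu k
    have h3 : τ * a * ‖u k‖ ≤ τ * 1 * ‖u k‖ :=
      mul_le_mul_of_nonneg_right (mul_le_mul_of_nonneg_left ha1 hτ0) (norm_nonneg _)
    have h4 := mul_le_mul_of_nonneg_right (Real.add_one_le_exp τ) (norm_nonneg (u k))
    have h5 : ‖1 - (a:ℂ) * u k‖ ≤ ‖u k‖ := h2
    linarith
  have hprodu : Real.exp (-(L * (1 + 4 / δ ^ 2))) ≤ ∏ k, ‖u k‖ := by
    have h1 : ∏ k, ρ k ≤ ∏ k, (Real.exp τ * ‖u k‖) := Finset.prod_le_prod (fun k _ => hρ0 k) fun k _ => hρu k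
    rw [Finset.prod_mul_distrib] at h1
    simp only [Finset.prod_const, Finset.card_univ, Fintype.card_fin] at h1
    rw [← Real.exp_nat_mul] at h1
    have h2 := hprodρ.trans h1
    have h3 : Real.exp (-(L * (1 + 4 / δ ^ 2))) = Real.exp (-(4 * L / δ ^ 2)) * Real.exp (-L) := by
      rw [← Real.exp_add]; congr 1; ring
    rw [h3]
    have h4 : Real.exp (-(4 * L / δ ^ 2)) * Real.exp (-L) ≤
        Real.exp (-(4 * L / δ ^ 2)) * (Real.exp (m * τ) * ∏ k, ‖u k‖) :=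
      mul_le_mul_of_nonneg_left h2 (Real.exp_pos _).le
    refine h4.trans ?_
    rw [← mul_assoc, ← Real.exp_add]
    have h5 : Real.exp (-(4 * L / δ ^ 2) + m * τ) ≤ 1 := by
      rw [Real.exp_le_one_iff]; linarith [mul_comm τ m]
    have h6 : 0 ≤ ∏ k, ‖u k‖ := Finset.prod_nonneg fun k _ => norm_nonneg _
    have := mul_le_mul_of_nonneg_right h5 h6
    linarith
  have hdev2 := sum_sq_dev (fun k => ‖u k‖) hupos hU _ hprodu
  set E : Finset (Fin m) := Finset.univ.filter (fun k => η < |ρ k - 1| ∨ η < |‖u k‖ - 1|) with hE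
  have hEcard : (E.card : ℝ) ≤ m * (δ ^ 2 / 256) ^ 2 := by
    refine le_trans ?_ c2
    rw [le_div_iff₀ (by positivity)]
    have h1 : ∀ k ∈ E, η ^ 2 ≤ (ρ k - 1) ^ 2 + (‖u k‖ - 1) ^ 2 := by
      intro k hk
      rw [hE, Finset.mem_filter] at hk
      rcases hk.2 with h | h
      · have := pow_le_pow_left₀ hη.le h.le 2
        rw [sq_abs] at this
        have := sq_nonneg (‖u k‖ - 1)
        linarith
      · have := pow_le_pow_left₀ hη.le h.le 2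
        rw [sq_abs] at this
        have := sq_nonneg (ρ k - 1)
        linarith
    have h2 : (E.card : ℝ) * η ^ 2 ≤ ∑ k ∈ E, ((ρ k - 1) ^ 2 + (‖u k‖ - 1) ^ 2) := by
      have := Finset.sum_le_sum h1
      simpa using this
    have h3 : ∑ k ∈ E, ((ρ k - 1) ^ 2 + (‖u k‖ - 1) ^ 2) ≤ ∑ k, ((ρ k - 1) ^ 2 + (‖u k‖ - 1) ^ 2) :=
      Finset.sum_le_sum_of_subset_of_nonneg (Finset.subset_univ E) fun _ _ _ => by positivity
    have h5 : ∑ k, ((ρ k - 1) ^ 2 + (‖u k‖ - 1) ^ 2) = ∑ k, (ρ k - 1) ^ 2 + ∑ k, (‖u k‖ - 1) ^ 2 :=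
      Finset.sum_add_distrib
    rw [h5] at h3
    have h4 : 0 ≤ L * (4 / δ ^ 2) := by positivity
    linarith
  set e : ℂ := ⟨a / 2, √(1 - a ^ 2 / 4)⟩ with he
  have hconj : (starRingEnd ℂ) e = ⟨a / 2, -√(1 - a ^ 2 / 4)⟩ := by
    rw [he]; apply Complex.ext <;> simp
  have ha2 : a ^ 2 ≤ 1 := by
    have := pow_le_pow_left₀ ha0.le ha1 2; simpa using this
  have hen : ‖e‖ = 1 := by
    have h1 : ‖e‖ ^ 2 = 1 := by
      rw [Complex.sq_norm, Complex.normSq_apply, he]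
      simp only
      rw [Real.mul_self_sqrt (by linarith)]; ring
    exact aux_eq_one _ (norm_nonneg _) h1
  have hcl : ∀ k, k ∉ E → ‖u k - e‖ ≤ (δ ^ 2 / 192) ^ 2 ∨ ‖u k - (starRingEnd ℂ) e‖ ≤ (δ ^ 2 / 192) ^ 2 := by
    intro k hk
    rw [hE, Finset.mem_filter] at hk
    simp only [Finset.mem_univ, true_and, not_or, not_lt] at hk
    rw [hconj, he]
    apply cluster a δ η _ t0 hδ0 hδ1 haδ ha1 ht0 ht1 hτη hη.le hη100 hηv (u k) _ hk.2
    have e1 : 1 - ((t0 * a : ℝ) : ℂ) * u k = 1 - (t0:ℂ) * ((a:ℂ) * u k) := by push_cast; ring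
    rw [e1]; exact hk.1
  clear_value E
  clear hE
  set P0 : Finset (Fin m) := Finset.univ.filter (fun k => k ∉ E ∧ ‖u k - e‖ ≤ (δ ^ 2 / 192) ^ 2) with hP0
  set Q0 : Finset (Fin m) := Finset.univ.filter (fun k => k ∉ E ∧ ¬ ‖u k - e‖ ≤ (δ ^ 2 / 192) ^ 2) with hQ0
  have hP0E : Disjoint P0 E := by
    rw [Finset.disjoint_left]; intro k hk; rw [hP0, Finset.mem_filter] at hk; exact hk.2.1
  have hQ0E : Disjoint Q0 E := by
    rw [Finset.disjoint_left]; intro k hk; rw [hQ0, Finset.mem_filter] at hk; exact hk.2.1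
  have hcompl1 : (P0 ∪ E)ᶜ = Q0 := by
    ext k
    rw [Finset.mem_compl, Finset.mem_union, hP0, hQ0, Finset.mem_filter, Finset.mem_filter]
    simp only [Finset.mem_univ, true_and]
    tauto
  have hcompl2 : (Q0 ∪ E)ᶜ = P0 := by
    ext k
    rw [Finset.mem_compl, Finset.mem_union, hP0, hQ0, Finset.mem_filter, Finset.mem_filter]
    simp only [Finset.mem_univ, true_and]
    tauto
  rcases le_or_gt Q0.card P0.card with hc | hc
  · refine part3_aux hm a δ _ hδ0 hδ1 haδ ha1 rfl z w hder hz hwa hza hF hU e hen rfl P0 E hP0E ?_ ?_ ?_ hEcard hlarge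
    · intro k hk; rw [hP0, Finset.mem_filter] at hk; exact hk.2.2
    · intro k hk
      have hk' : k ∈ Q0 := by rw [← hcompl1, Finset.mem_compl]; exact hk
      rw [hQ0, Finset.mem_filter] at hk'
      exact (hcl k hk'.2.1).resolve_left hk'.2.2
    · rw [hcompl1]; exact hc
  · refine part3_aux hm a δ _ hδ0 hδ1 haδ ha1 rfl z w hder hz hwa hza hF hU ((starRingEnd ℂ) e) (by rw [RCLike.norm_conj]; exact hen)
      (by rw [Complex.conj_re]) Q0 E hQ0E ?_ ?_ ?_ hEcard hlarge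
    · intro k hk
      rw [hQ0, Finset.mem_filter] at hk
      exact (hcl k hk.2.1).resolve_left hk.2.2
    · intro k hk
      have hk' : k ∈ P0 := by rw [← hcompl2, Finset.mem_compl]; exact hk
      rw [hP0, Finset.mem_filter] at hk'
      rw [Complex.conj_conj]; exact hk'.2.2
    · rw [hcompl2]; exact hc.le

end Pool.H363R3.SM2
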