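import Mathlib
import Pool.Agent.H363R3.SM2g
import Pool.Agent.H363R3.SM2j
import Pool.Agent.H363R3.SM2m

set_option autoImplicit false
set_option maxHeartbeats 4000000
open Polynomial Filter Topology

namespace Pool.H363R3.SM2

lemma crit_norm_le {m : ℕ} (a : ℂ) (ha : ‖a‖ ≤ 1) (z w : Fin m → ℂ) (hz : ∀ j, ‖z j‖ ≤ 1)
    (hder : derivative ((X - C a) * ∏ j, (X - C (z j))) = C ((m:ℂ) + 1) * ∏ k, (X - C (w k)))
    (k : Fin m) : ‖w k‖ ≤ 1 := by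
  obtain ⟨hmon, hdeg⟩ := monic_p a z
  set p := (X - C a) * ∏ j, (X - C (z j)) with hp
  have hpdeg : 0 < p.degree := by
    rw [← natDegree_pos_iff_degree_pos, hdeg]; omega
  have hne : ((m:ℂ) + 1) ≠ 0 := by exact_mod_cast Nat.succ_ne_zero m
  have hd0 : derivative p ≠ 0 := by
    rw [hder]
    exact mul_ne_zero (by rw [Ne, C_eq_zero]; exact hne) (monic_prod_of_monic _ _ fun j _ => monic_X_sub_C _).ne_zero
  have hmem : w k ∈ p.derivative.rootSet ℂ := by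
    rw [mem_rootSet]
    refine ⟨hd0, ?_⟩
    rw [coe_aeval_eq_eval, hder, eval_mul, eval_prod, Finset.prod_eq_zero (Finset.mem_univ k) (by simp), mul_zero]
  have h1 := rootSet_derivative_subset_convexHull_rootSet hpdeg hmem
  have h2 : convexHull ℝ (p.rootSet ℂ) ⊆ Metric.closedBall (0:ℂ) 1 := by
    apply convexHull_min _ (convex_closedBall _ _)
    intro y hy
    rw [mem_rootSet, coe_aeval_eq_eval, hp, eval_mul, eval_prod] at hy
    rw [Metric.mem_closedBall, dist_zero_right]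
    rcases mul_eq_zero.mp hy.2 with h | h
    · have : y = a := by simpa [sub_eq_zero] using h
      rw [this]; exact ha
    · rw [Finset.prod_eq_zero_iff] at h
      obtain ⟨j, -, hj⟩ := h
      have : y = z j := by simpa [sub_eq_zero] using hj
      rw [this]; exact hz j
  have h3 := h2 h1
  rwa [Metric.mem_closedBall, dist_zero_right] at h3

lemma tendsto_shift (c : ℕ) : Tendsto (fun M : ℕ => (M:ℝ) + c) atTop atTop :=
  tendsto_atTop_add_const_right _ _ tendsto_natCast_atTop_atTop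

lemma ev_C1 (δ ν : ℝ) (hδ : 0 < δ) (hν : 0 < ν) : ∀ᶠ M : ℕ in atTop,
    Real.exp (-(δ ^ 2 * ((M:ℝ) + 2) / 8)) + 128 / (δ ^ 4 * ((M:ℝ) + 2)) + 1 / ((M:ℝ) + 2) ^ 2 ≤ ν / 2 := by
  have h0 : Tendsto (fun M : ℕ => (M:ℝ) + 2) atTop atTop := by exact_mod_cast tendsto_shift 2
  have h1 : Tendsto (fun M : ℕ => Real.exp (-(δ ^ 2 * ((M:ℝ) + 2) / 8))) atTop (𝓝 0) := by
    apply Real.tendsto_exp_neg_atTop_nhds_zero.comp
    exact (h0.const_mul_atTop (by positivity : 0 < δ ^ 2)).atTop_div_const (by norm_num)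
  have h2 : Tendsto (fun M : ℕ => 128 / (δ ^ 4 * ((M:ℝ) + 2))) atTop (𝓝 0) :=
    (h0.const_mul_atTop (by positivity : 0 < δ ^ 4)).const_div_atTop 128
  have h3 : Tendsto (fun M : ℕ => 1 / ((M:ℝ) + 2) ^ 2) atTop (𝓝 0) :=
    ((tendsto_pow_atTop (by norm_num : (2:ℕ) ≠ 0)).comp h0).const_div_atTop 1
  have h4 := (h1.add h2).add h3
  rw [add_zero, add_zero] at h4
  filter_upwards [h4.eventually_lt_const (by positivity : 0 < ν / 2)] with M hM using hM.le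

lemma ev_C2 (κ δ : ℝ) (hκ : 0 < κ) (hδ : 0 < δ) : ∀ᶠ M : ℕ in atTop, 1 / (κ ^ 3 * ((M:ℝ) + 1)) ≤ δ / 8 := by
  have h0 : Tendsto (fun M : ℕ => (M:ℝ) + 1) atTop atTop := by exact_mod_cast tendsto_shift 1
  have h2 : Tendsto (fun M : ℕ => 1 / (κ ^ 3 * ((M:ℝ) + 1))) atTop (𝓝 0) :=
    (h0.const_mul_atTop (by positivity : 0 < κ ^ 3)).const_div_atTop 1
  filter_upwards [h2.eventually_lt_const (by positivity : 0 < δ / 8)] with M hM using hM.le

lemma ev_C2' (ν : ℝ) (hν : 0 < ν) : ∀ᶠ M : ℕ in atTop, 1 / ((M:ℝ) + 2) ^ 4 ≤ ν := by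
  have h0 : Tendsto (fun M : ℕ => (M:ℝ) + 2) atTop atTop := by exact_mod_cast tendsto_shift 2
  have h3 : Tendsto (fun M : ℕ => 1 / ((M:ℝ) + 2) ^ 4) atTop (𝓝 0) :=
    ((tendsto_pow_atTop (by norm_num : (4:ℕ) ≠ 0)).comp h0).const_div_atTop 1
  filter_upwards [h3.eventually_lt_const hν] with M hM using hM.le

lemma ev_C3 (κ : ℝ) (hκ0 : 0 < κ) (hκ1 : κ ≤ 1) : ∀ᶠ M : ℕ in atTop,
    (1 - κ / 2) ^ (M + 3) + 1 / ((M:ℝ) + 2) ^ 4 + ((M:ℝ) + 3) / ((M:ℝ) + 2) ^ 3 < 1 / 100000 / ((M:ℝ) + 3) := by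
  have h0 : Tendsto (fun M : ℕ => (M:ℝ) + 2) atTop atTop := by exact_mod_cast tendsto_shift 2
  have h1 : Tendsto (fun M : ℕ => ((M + 3 : ℕ) : ℝ) * (1 - κ / 2) ^ (M + 3)) atTop (𝓝 0) :=
    (tendsto_self_mul_const_pow_of_lt_one (by linarith) (by linarith)).comp (tendsto_add_atTop_nat 3)
  have h2 : Tendsto (fun M : ℕ => 6 / ((M:ℝ) + 2)) atTop (𝓝 0) := h0.const_div_atTop 6
  have h3 := h1.add h2
  rw [add_zero] at h3
  filter_upwards [h3.eventually_lt_const (by norm_num : (0:ℝ) < 1 / 100000)] with M hM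
  have hM3 : (0:ℝ) < (M:ℝ) + 3 := by positivity
  have hM2 : (2:ℝ) ≤ (M:ℝ) + 2 := by have : (0:ℝ) ≤ M := Nat.cast_nonneg _; linarith
  rw [lt_div_iff₀ hM3]
  obtain ⟨x, hx⟩ : ∃ x : ℝ, x = (M:ℝ) + 2 := ⟨_, rfl⟩
  have hx3 : (M:ℝ) + 3 = x + 1 := by rw [hx]; ring
  have hx2 : 2 ≤ x := by rw [hx]; exact hM2
  push_cast at hM
  rw [← hx, hx3] at hM ⊢
  have e1 : 1 / x ^ 4 * (x + 1) ≤ 2 / x := by
    rw [div_mul_eq_mul_div, div_le_div_iff₀ (by positivity) (by positivity)]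
    have : x ^ 4 = x * (x * (x * x)) := by ring
    rw [this]
    have h4 : 4 ≤ x * x := by nlinarith
    have h5 : x * (x + 1) ≤ 2 * (x * x) := by nlinarith
    nlinarith [mul_le_mul_of_nonneg_left h4 (by positivity : 0 ≤ x * x)]
  have e2 : (x + 1) / x ^ 3 * (x + 1) ≤ 4 / x := by
    rw [div_mul_eq_mul_div, div_le_div_iff₀ (by positivity) (by positivity)]
    have h5 : (x + 1) * (x + 1) ≤ 4 * (x * x) := by nlinarith
    nlinarith [mul_le_mul_of_nonneg_right h5 (by positivity : 0 ≤ x)]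
  have e3 : 6 / x = 2 / x + 4 / x := by ring
  rw [e3] at hM
  have e4 : ((1 - κ / 2) ^ (M + 3) + 1 / x ^ 4 + (x + 1) / x ^ 3) * (x + 1)
      = (x + 1) * (1 - κ / 2) ^ (M + 3) + 1 / x ^ 4 * (x + 1) + (x + 1) / x ^ 3 * (x + 1) := by ring
  rw [e4]
  linarith

lemma ev_log (c : ℝ) (hc : 0 < c) : ∀ᶠ m : ℕ in atTop, Real.log m ≤ c * m := by
  have h1 : Tendsto (fun x : ℝ => Real.log x ^ 1 / (1 * x + 0)) atTop (𝓝 0) :=
    Real.tendsto_pow_log_div_mul_add_atTop 1 0 1 one_ne_zero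
  have h2 := h1.comp tendsto_natCast_atTop_atTop
  filter_upwards [h2.eventually_lt_const hc, eventually_gt_atTop 0] with m hm hm0
  have hm0' : (0:ℝ) < m := by exact_mod_cast hm0
  simp only [Function.comp, pow_one, one_mul, add_zero] at hm
  rw [div_lt_iff₀ hm0'] at hm
  exact hm.le

lemma ev_P3 (δ : ℝ) (hδ : 0 < δ) : ∀ᶠ m : ℕ in atTop,
    Real.exp (-(δ ^ 2 * m / 32)) + 12288 / (δ ^ 4 * m) < 1 := by
  have h0 : Tendsto (fun m : ℕ => (m:ℝ)) atTop atTop := tendsto_natCast_atTop_atTop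
  have h1 : Tendsto (fun m : ℕ => Real.exp (-(δ ^ 2 * (m:ℝ) / 32))) atTop (𝓝 0) := by
    apply Real.tendsto_exp_neg_atTop_nhds_zero.comp
    exact (h0.const_mul_atTop (by positivity : 0 < δ ^ 2)).atTop_div_const (by norm_num)
  have h2 : Tendsto (fun m : ℕ => 12288 / (δ ^ 4 * (m:ℝ))) atTop (𝓝 0) :=
    (h0.const_mul_atTop (by positivity : 0 < δ ^ 4)).const_div_atTop 12288
  have h3 := h1.add h2
  rw [add_zero] at h3
  exact h3.eventually_lt_const (by norm_num)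

theorem large_degree (δ : ℝ) (hδ0 : 0 < δ) : ∃ N : ℕ, ∀ m : ℕ, N ≤ m → ∀ a : ℝ, δ ≤ a → a ≤ 1 →
    ∀ z : Fin m → ℂ, (∀ j, ‖z j‖ ≤ 1) →
      ((a : ℂ) ∈ (derivative ((X - C (a : ℂ)) * ∏ j, (X - C (z j)))).roots) ∨
      (m : ℝ) ≤ (((derivative ((X - C (a : ℂ)) * ∏ j, (X - C (z j)))).roots).map
          (fun w : ℂ => (‖w - (a : ℂ)‖ ^ 2)⁻¹)).sum := by
  rcases lt_or_ge 1 δ with hδ1 | hδ1
  · exact ⟨0, fun m _ a h1 h2 => absurd (h1.trans h2) (not_le.mpr hδ1)⟩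
  set κ : ℝ := δ ^ 2 / 4 with hκ
  have hδ2 : δ ^ 2 ≤ 1 := by
    have := pow_le_pow_left₀ hδ0.le hδ1 2; simpa using this
  have hκ0 : 0 < κ := by positivity
  have hκ1 : κ ≤ 1/4 := by rw [hκ]; linarith
  set θ : ℝ := δ * κ ^ 4 / 128 with hθ
  have hθ0 : 0 < θ := by positivity
  have hθκ : θ ≤ κ / 2 := by
    have h1 : κ ^ 4 ≤ κ := by
      have : κ ^ 4 = κ * κ ^ 3 := by ring
      rw [this]
      have h2 : κ ^ 3 ≤ 1 := pow_le_one₀ hκ0.le (by linarith)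
      have := mul_le_mul_of_nonneg_left h2 hκ0.le
      linarith
    have h3 : δ * κ ^ 4 ≤ 1 * κ := mul_le_mul hδ1 h1 (by positivity) (by norm_num)
    rw [hθ]; linarith
  set ν : ℝ := θ ^ 2 / 2 with hν
  have hν0 : 0 < ν := by positivity
  have hν2 : √(2 * ν) = θ := by
    rw [hν, show 2 * (θ ^ 2 / 2) = θ ^ 2 by ring]; exact Real.sqrt_sq hθ0.le
  set η : ℝ := δ * (δ ^ 2 / 192) ^ 2 / 30 with hη
  have hη0 : 0 < η := by positivity
  -- eventual conditions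
  have e1 := ev_C1 δ ν hδ0 hν0
  have e2 := ev_C2 κ δ hκ0 hδ0
  have e3 := ev_C2' ν hν0
  have e4 := ev_C3 κ hκ0 (by linarith)
  obtain ⟨N1, hN1⟩ := eventually_atTop.mp (e1.and (e2.and (e3.and e4)))
  have e5 := ev_log (η * δ ^ 2 / 12) (by positivity)
  have e6 := ev_log ((δ ^ 2 / 256) ^ 2 * η ^ 2 / (12 * (1 + 4 / δ ^ 2))) (by positivity)
  have e7 := ev_P3 δ hδ0
  obtain ⟨N2, hN2⟩ := eventually_atTop.mp (e5.and (e6.and e7))
  refine ⟨max (N1 + 2) (max N2 4), ?_⟩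
  intro m hm a haδ ha1 z hz
  have hm1 : N1 + 2 ≤ m := (le_max_left _ _).trans hm
  have hm2 : N2 ≤ m := ((le_max_left _ _).trans (le_max_right _ _)).trans hm
  have hm4 : 4 ≤ m := ((le_max_right _ _).trans (le_max_right _ _)).trans hm
  have ha0 : 0 < a := by linarith
  rcases lt_or_ge (1 - a) (1 / 100000 / ((m:ℝ) + 1)) with hnear | hfar
  · exact near_one m hm4 a (by
      have : 1 / 100000 / ((m:ℝ) + 1) = 1 / (100000 * ((m:ℝ) + 1)) := by field_simp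
      rw [this] at hnear; linarith) ha1 z hz
  obtain ⟨hmon, hdeg⟩ := monic_p (a:ℂ) z
  obtain ⟨w, hder, hroots⟩ := exists_crit m _ hmon hdeg
  by_cases hmem : (a : ℂ) ∈ (derivative ((X - C (a : ℂ)) * ∏ j, (X - C (z j)))).roots
  · exact Or.inl hmem
  right
  have hw : ∀ k, w k ≠ a := by
    intro k h
    apply hmem
    rw [hroots, Multiset.mem_map]
    exact ⟨k, Finset.mem_univ_val k, h⟩
  obtain ⟨hne, hF, hprod⟩ := reduction (a:ℂ) z w hder hw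
  have han : ‖(a:ℂ)‖ ≤ 1 := by rw [Complex.norm_real, Real.norm_eq_abs, abs_of_pos ha0]; exact ha1
  have hwn := crit_norm_le (a:ℂ) han z w hz hder
  have hv := hv_of_hz a z hz hne
  have hu := hv_of_hz a w hwn hw
  have esum : (Multiset.map ((fun w : ℂ => (‖w - (a : ℂ)‖ ^ 2)⁻¹) ∘ w) Finset.univ.val).sum
      = ∑ k, ‖((a:ℂ) - w k)⁻¹‖ ^ 2 := by
    rw [Finset.sum]
    congr 1
    refine Multiset.map_congr rfl fun k _ => ?_
    simp only [Function.comp]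
    rw [norm_inv, inv_pow, norm_sub_rev]
  rw [hroots, Multiset.map_map, esum]
  by_contra hcon
  push Not at hcon
  have hU := hcon.le
  obtain ⟨hl1, hl2, hl3⟩ := hN2 m hm2
  have hm0 : (0:ℝ) < m := by exact_mod_cast (by omega : 0 < m)
  by_cases hnotD : ∀ t ∈ Set.Icc (1/2:ℝ) 1, ‖∏ k, (1 - (t:ℂ) * ((a:ℂ) * ((a:ℂ) - w k)⁻¹))‖ ≤ 1 / (m:ℝ) ^ 3
  · obtain ⟨M, rfl⟩ : ∃ M, m = M + 2 := ⟨m - 2, by omega⟩
    obtain ⟨g1, g2, g3, g4⟩ := hN1 M (by omega)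
    have hc2 : ((M + 2 : ℕ) : ℝ) = (M:ℝ) + 2 := by push_cast; ring
    refine part2_core M a δ ν κ hδ0 hδ1 haδ ha1 hκ (fun k => ((a:ℂ) - w k)⁻¹) (fun j => ((a:ℂ) - z j)⁻¹) hF hv hu ?_ hU ?_
      g1 ?_ g3 ?_ g4 ?_
    · have := hprod; rw [hc2] at this
      rw [show (M:ℝ) + 3 = (M:ℝ) + 2 + 1 by ring]; exact this
    · rw [hc2] at hnotD; exact hnotD
    · rw [hν2]
      have : 16 * θ / κ ^ 4 = δ / 8 := by rw [hθ]; field_simp; norm_num
      rw [this]; linarith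
    · rw [hν]
      have := pow_le_pow_left₀ hθ0.le hθκ 2
      linarith
    · rw [hc2] at hfar
      rw [show (M:ℝ) + 3 = (M:ℝ) + 2 + 1 by ring]; exact hfar
  · push Not at hnotD
    obtain ⟨t0, ht0, hD⟩ := hnotD
    have hlog0 : 0 ≤ Real.log m := Real.log_nonneg (by exact_mod_cast (by omega : 1 ≤ m))
    refine part3 (by omega) a δ η (3 * Real.log m) t0 hδ0 hδ1 haδ ha1 z w hder hz hw hne hF hu hU ht0.1 ht0.2
      (by positivity) ?_ hη0 ?_ ?_ ?_ hl3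
    · refine le_trans (le_of_eq ?_) hD.le
      rw [Real.exp_neg, ← Real.log_rpow hm0, Real.exp_log (by positivity), one_div]
      congr 1
      exact_mod_cast Real.rpow_natCast (m:ℝ) 3
    · rw [hη]; linarith
    · rw [div_le_iff₀ (by positivity)]
      linarith
    · rw [div_le_iff₀ (by positivity)]
      have hpos : 0 < 1 + 4 / δ ^ 2 := by positivity
      have h1 : Real.log m * (12 * (1 + 4 / δ ^ 2)) ≤ (δ ^ 2 / 256) ^ 2 * η ^ 2 * m := by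
        have h2 := mul_le_mul_of_nonneg_right hl2 (by positivity : 0 ≤ 12 * (1 + 4 / δ ^ 2))
        have h3 : (δ ^ 2 / 256) ^ 2 * η ^ 2 / (12 * (1 + 4 / δ ^ 2)) * m * (12 * (1 + 4 / δ ^ 2))
          = (δ ^ 2 / 256) ^ 2 * η ^ 2 * m := by field_simp
        linarith
      linarith

end Pool.H363R3.SM2
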