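import Mathlib
import Pool.Agent.H363R3.SM2l
import Pool.Agent.H363R3.SM2v

set_option autoImplicit false
set_option maxHeartbeats 4000000
open Polynomial Filter Topology

namespace Pool.H363R3.SM2

lemma re_half (y ζ : ℂ) (h : ‖ζ‖ ≤ ‖y‖) (h0 : y - ζ ≠ 0) : 1 / 2 ≤ (y * (1 / (y - ζ))).re := by
  have hpos : 0 < ‖y - ζ‖ ^ 2 := by have := norm_pos_iff.mpr h0; positivity
  have e : y * (1 / (y - ζ)) = (y * (starRingEnd ℂ) (y - ζ)) * (((‖y - ζ‖ ^ 2)⁻¹ : ℝ) : ℂ) := by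
    have h1 : (starRingEnd ℂ) (y - ζ) * (y - ζ) = ((‖y - ζ‖ ^ 2 : ℝ) : ℂ) := by
      rw [mul_comm, Complex.mul_conj, Complex.normSq_eq_norm_sq]
    have h2 : (((‖y - ζ‖ ^ 2)⁻¹ : ℝ) : ℂ) = ((‖y - ζ‖ ^ 2 : ℝ) : ℂ)⁻¹ := by push_cast; rfl
    rw [h2, ← h1]
    have h3 : (starRingEnd ℂ) (y - ζ) ≠ 0 := by
      intro h; rw [h, zero_mul] at h1
      have : (‖y - ζ‖ ^ 2 : ℝ) = 0 := by exact_mod_cast h1.symm
      linarith
    field_simp
  rw [e, Complex.re_mul_ofReal]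
  have h3 : 2 * (y * (starRingEnd ℂ) (y - ζ)).re = ‖y - ζ‖ ^ 2 + ‖y‖ ^ 2 - ‖ζ‖ ^ 2 := by
    rw [Complex.sq_norm, Complex.sq_norm, Complex.sq_norm, Complex.normSq_apply, Complex.normSq_apply, Complex.normSq_apply]
    simp
    ring
  have h4 : ‖ζ‖ ^ 2 ≤ ‖y‖ ^ 2 := pow_le_pow_left₀ (norm_nonneg _) h 2
  have h5 : ‖y - ζ‖ ^ 2 / 2 ≤ (y * (starRingEnd ℂ) (y - ζ)).re := by linarith
  rw [← div_eq_mul_inv, le_div_iff₀ hpos]
  linarith

lemma conj_dist (R : ℝ) (hR : 0 < R) (y w : ℂ) (hy : ‖y‖ = R) :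
    ‖(R:ℂ) - (starRingEnd ℂ) w / R * y‖ = ‖y - w‖ := by
  have hRc : (R:ℂ) ≠ 0 := by exact_mod_cast hR.ne'
  have h1 : ((R:ℂ) - (starRingEnd ℂ) w / R * y) * (starRingEnd ℂ) y = (R:ℂ) * (starRingEnd ℂ) (y - w) := by
    have h2 : y * (starRingEnd ℂ) y = (R:ℂ) ^ 2 := by
      rw [Complex.mul_conj, Complex.normSq_eq_norm_sq, hy]; push_cast; ring
    have h3 : (starRingEnd ℂ) w / R * y * (starRingEnd ℂ) y = (starRingEnd ℂ) w / R * (R:ℂ) ^ 2 := by
      rw [mul_assoc, h2]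
    rw [sub_mul, h3, map_sub]
    field_simp
  have h4 := congrArg norm h1
  rw [norm_mul, norm_mul, RCLike.norm_conj, RCLike.norm_conj, hy, Complex.norm_real, Real.norm_eq_abs, abs_of_pos hR] at h4
  have : R * ‖(R:ℂ) - (starRingEnd ℂ) w / R * y‖ = R * ‖y - w‖ := by linarith [mul_comm R ‖(R:ℂ) - (starRingEnd ℂ) w / R * y‖]
  exact mul_left_cancel₀ hR.ne' this

lemma outer_R {m : ℕ} (a : ℝ) (ha0 : 0 ≤ a) (ha1 : a < 1) (z w : Fin m → ℂ) (hz : ∀ j, ‖z j‖ ≤ 1)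
    (hw : ∀ k, ‖w k‖ ≤ 1)
    (hder : derivative ((X - C (a:ℂ)) * ∏ j, (X - C (z j))) = C ((m:ℂ) + 1) * ∏ k, (X - C (w k)))
    (R : ℝ) (hR : 1 < R) :
    ((m:ℝ) + 1) * (∏ k, ‖(a:ℂ) - w k‖) * (R - a) ≤ 2 * R * ∏ k, ‖(R:ℂ) - (starRingEnd ℂ) (w k) / R * a‖ := by
  have hR0 : 0 < R := by linarith
  have hRc : (R:ℂ) ≠ 0 := by exact_mod_cast hR0.ne'
  set p : ℂ[X] := (X - C (a:ℂ)) * ∏ j, (X - C (z j)) with hp
  set D : ℂ[X] := ∏ k, (C (R:ℂ) - C ((starRingEnd ℂ) (w k) / R) * X) with hD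
  have hDeval : ∀ y, D.eval y = ∏ k, ((R:ℂ) - (starRingEnd ℂ) (w k) / R * y) := by
    intro y; rw [hD, eval_prod]; simp
  have hpeval : ∀ y, p.eval y = (y - a) * ∏ j, (y - z j) := by
    intro y; rw [hp, eval_mul, eval_prod]; simp
  have hn3 : ‖((m:ℂ) + 1)‖ = (m:ℝ) + 1 := by
    have : ((m:ℂ) + 1) = (((m:ℝ) + 1 : ℝ) : ℂ) := by push_cast; ring
    rw [this, Complex.norm_real, Real.norm_eq_abs, abs_of_pos (by positivity)]
  have hp'eval : ∀ y, (derivative p).eval y = ((m:ℂ) + 1) * ∏ k, (y - w k) := by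
    intro y; rw [hder, eval_mul, eval_prod]; simp
  have hp'n : ∀ y, ‖(derivative p).eval y‖ = ((m:ℝ) + 1) * ∏ k, ‖y - w k‖ := by
    intro y; rw [hp'eval, norm_mul, hn3, norm_prod]
  have han : ‖(a:ℂ)‖ ≤ 1 := by rw [Complex.norm_real, Real.norm_eq_abs, abs_of_nonneg ha0]; exact ha1.le
  -- nonvanishing of D
  have hD0 : ∀ y, ‖y‖ ≤ R → D.eval y ≠ 0 := by
    intro y hy
    rw [hDeval]
    refine Finset.prod_ne_zero_iff.mpr fun k _ h => ?_
    have h1 : (R:ℂ) = (starRingEnd ℂ) (w k) / R * y := sub_eq_zero.mp h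
    have h2 := congrArg norm h1
    rw [norm_mul, norm_div, RCLike.norm_conj, Complex.norm_real, Real.norm_eq_abs, abs_of_pos hR0] at h2
    have h3 : ‖w k‖ / R * ‖y‖ ≤ 1 / R * R := by
      apply mul_le_mul (div_le_div_of_nonneg_right (hw k) hR0.le) hy (norm_nonneg _) (by positivity)
    have h4 : 1 / R * R = 1 := by field_simp
    linarith
  -- boundary estimate
  have hbd : ∀ y, ‖y‖ = R → ‖p.eval y‖ ≤ 2 * R * ‖D.eval y‖ := by
    intro y hy
    have hya : y - (a:ℂ) ≠ 0 := by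
      intro h; have := sub_eq_zero.mp h; rw [this] at hy; linarith
    have hyz : ∀ j, y - z j ≠ 0 := by
      intro j h; have := sub_eq_zero.mp h; rw [this] at hy; linarith [hz j]
    have hL : (derivative p).eval y
        = ((y - a) * ∏ j, (y - z j)) * (1 / (y - a) + ∑ j, 1 / (y - z j)) := by
      have hd : derivative (∏ j, (X - C (z j))) = ∑ j, (∏ i ∈ Finset.univ.erase j, (X - C (z i))) := by
        rw [derivative_prod_finset]
        simp
      rw [hp, derivative_mul, hd]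
      simp only [derivative_sub, derivative_X, derivative_C, sub_zero, one_mul, eval_add, eval_mul,
        eval_sub, eval_X, eval_C, eval_prod, eval_finsetSum]
      have h2 : ∀ j, ∏ i ∈ Finset.univ.erase j, (y - z i) = (∏ i, (y - z i)) * (1 / (y - z j)) := by
        intro j
        rw [← Finset.mul_prod_erase _ _ (Finset.mem_univ j)]
        have := hyz j
        field_simp
      rw [Finset.sum_congr rfl fun j _ => h2 j, ← Finset.mul_sum]
      field_simp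
    have hre : ((m:ℝ) + 1) / 2 ≤ (y * (1 / (y - a) + ∑ j, 1 / (y - z j))).re := by
      rw [mul_add, Complex.add_re, Finset.mul_sum, Complex.re_sum]
      have h1 := re_half y a (by rw [hy]; linarith) hya
      have h2 : ∑ j : Fin m, (1/2 : ℝ) ≤ ∑ j, (y * (1 / (y - z j))).re :=
        Finset.sum_le_sum fun j _ => re_half y (z j) (by rw [hy]; linarith [hz j]) (hyz j)
      simp only [Finset.sum_const, Finset.card_univ, Fintype.card_fin, nsmul_eq_mul] at h2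
      linarith
    have hnorm : ((m:ℝ) + 1) / 2 ≤ R * ‖1 / (y - a) + ∑ j, 1 / (y - z j)‖ := by
      have := hre.trans (Complex.re_le_norm _)
      rw [norm_mul, hy] at this
      exact this
    have h5 : ‖(derivative p).eval y‖ = ‖p.eval y‖ * ‖1 / (y - a) + ∑ j, 1 / (y - z j)‖ := by
      rw [hL, hpeval, norm_mul]
    have h6 : ‖(derivative p).eval y‖ = ((m:ℝ) + 1) * ‖D.eval y‖ := by
      rw [hp'n, hDeval, norm_prod]
      congr 1
      refine Finset.prod_congr rfl fun k _ => (conj_dist R hR0 y (w k) hy).symm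
    have h7 : ‖p.eval y‖ * (((m:ℝ) + 1) / 2) ≤ ‖p.eval y‖ * (R * ‖1 / (y - a) + ∑ j, 1 / (y - z j)‖) :=
      mul_le_mul_of_nonneg_left hnorm (norm_nonneg _)
    have h8 : ‖p.eval y‖ * (R * ‖1 / (y - a) + ∑ j, 1 / (y - z j)‖) = R * (((m:ℝ) + 1) * ‖D.eval y‖) := by
      rw [← h6, h5]; ring
    rw [h8] at h7
    have hm1 : (0:ℝ) < (m:ℝ) + 1 := by positivity
    have h9 : ((m:ℝ) + 1) * ‖p.eval y‖ ≤ ((m:ℝ) + 1) * (2 * R * ‖D.eval y‖) := by linarith
    exact le_of_mul_le_mul_left h9 hm1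
  -- the quotient
  set Q : ℂ → ℂ := fun y => p.eval y / D.eval y with hQ
  have hQd : DifferentiableOn ℂ Q (Metric.closedBall 0 R) := by
    intro y hy
    rw [Metric.mem_closedBall, dist_zero_right] at hy
    exact ((p.differentiable y).div (D.differentiable y) (hD0 y hy)).differentiableWithinAt
  have hQb : ∀ y, ‖y‖ ≤ R → ‖Q y‖ ≤ 2 * R := by
    intro y hy
    have hcl : closure (Metric.ball (0:ℂ) R) = Metric.closedBall 0 R := closure_ball _ hR0.ne'
    apply Complex.norm_le_of_forall_mem_frontier_norm_le (U := Metric.ball (0:ℂ) R) Metric.isBounded_ball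
      (DifferentiableOn.diffContOnCl (by rw [hcl]; exact hQd))
    · intro x hx
      rw [frontier_ball _ hR0.ne', mem_sphere_zero_iff_norm] at hx
      have h1 := hbd x hx
      rw [hQ]; simp only
      rw [norm_div, div_le_iff₀ (norm_pos_iff.mpr (hD0 x hx.le))]
      exact h1
    · rw [hcl, Metric.mem_closedBall, dist_zero_right]; exact hy
  have hsub : Metric.closedBall (a:ℂ) (R - a) ⊆ Metric.closedBall 0 R := by
    intro y hy
    rw [Metric.mem_closedBall, dist_eq_norm] at hy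
    rw [Metric.mem_closedBall, dist_zero_right]
    have h1 : y = (y - a) + a := by ring
    rw [h1]
    refine (norm_add_le _ _).trans ?_
    rw [Complex.norm_real, Real.norm_eq_abs, abs_of_nonneg ha0]
    linarith
  have hRa : 0 < R - a := by linarith
  have hcau : ‖deriv Q (a:ℂ)‖ ≤ 2 * R / (R - a) := by
    apply Complex.norm_deriv_le_of_forall_mem_sphere_norm_le hRa
    · apply DifferentiableOn.diffContOnCl
      rw [closure_ball _ hRa.ne']
      exact hQd.mono hsub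
    · intro y hy
      apply hQb
      have := hsub (Metric.sphere_subset_closedBall hy)
      rwa [Metric.mem_closedBall, dist_zero_right] at this
  have hDa : D.eval (a:ℂ) ≠ 0 := hD0 a (by linarith)
  have hpa : p.eval (a:ℂ) = 0 := by rw [hpeval]; simp
  have hder2 : deriv Q (a:ℂ) = (derivative p).eval (a:ℂ) / D.eval (a:ℂ) := by
    have h1 := (p.hasDerivAt (a:ℂ)).div (D.hasDerivAt (a:ℂ)) hDa
    have h2 : deriv Q (a:ℂ) = _ := h1.deriv
    rw [h2, hpa]
    field_simp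
    ring
  rw [hder2, norm_div, hp'n, hDeval, norm_prod, div_le_div_iff₀ (by
    rw [← norm_prod, ← hDeval]; exact norm_pos_iff.mpr hDa) hRa] at hcau
  exact hcau

lemma outer_bound {m : ℕ} (a : ℝ) (ha0 : 0 ≤ a) (ha1 : a < 1) (z w : Fin m → ℂ) (hz : ∀ j, ‖z j‖ ≤ 1)
    (hw : ∀ k, ‖w k‖ ≤ 1)
    (hder : derivative ((X - C (a:ℂ)) * ∏ j, (X - C (z j))) = C ((m:ℂ) + 1) * ∏ k, (X - C (w k))) :
    ((m:ℝ) + 1) * (∏ k, ‖(a:ℂ) - w k‖) * (1 - a) ≤ 2 * ∏ k, ‖1 - (starRingEnd ℂ) (w k) * a‖ := by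
  have h1 : Tendsto (fun R : ℝ => ((m:ℝ) + 1) * (∏ k, ‖(a:ℂ) - w k‖) * (R - a)) (𝓝[>] 1)
      (𝓝 (((m:ℝ) + 1) * (∏ k, ‖(a:ℂ) - w k‖) * (1 - a))) := by
    apply Tendsto.mono_left _ nhdsWithin_le_nhds
    exact (Continuous.tendsto (by fun_prop) 1)
  have h2 : Tendsto (fun R : ℝ => 2 * R * ∏ k, ‖(R:ℂ) - (starRingEnd ℂ) (w k) / R * a‖) (𝓝[>] 1)
      (𝓝 (2 * 1 * ∏ k, ‖((1:ℝ):ℂ) - (starRingEnd ℂ) (w k) / ((1:ℝ):ℂ) * a‖)) := by
    apply Tendsto.mono_left _ nhdsWithin_le_nhds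
    have hone : ((1:ℝ):ℂ) ≠ 0 := by simp
    apply Tendsto.mul
    · exact (Continuous.tendsto (by fun_prop) 1)
    · apply tendsto_finset_prod
      intro k _
      apply Tendsto.norm
      apply Tendsto.sub
      · exact (Complex.continuous_ofReal.tendsto 1)
      · apply Tendsto.mul_const
        apply Tendsto.div tendsto_const_nhds (Complex.continuous_ofReal.tendsto 1) hone
  have h3 := le_of_tendsto_of_tendsto h1 h2 (by
    filter_upwards [self_mem_nhdsWithin] with R hR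
    exact outer_R a ha0 ha1 z w hz hw hder R hR)
  simpa using h3

end Pool.H363R3.SM2
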