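import Mathlib
import Pool.Agent.H363R3.SM2p

set_option autoImplicit false
set_option maxHeartbeats 4000000
open Polynomial Filter Topology

namespace Pool.H363R3.SM2

lemma x_exp_le (x : ℝ) : x * Real.exp (-x) ≤ 1 := by
  rw [Real.exp_neg, ← div_eq_mul_inv, div_le_one (Real.exp_pos x)]
  have := Real.add_one_le_exp x; linarith

lemma int_exp (c : ℝ) (hc : 0 < c) : ∫ t in (0:ℝ)..1, Real.exp (-(c * t)) ≤ 1 / c := by
  have hd : ∀ t ∈ Set.uIcc (0:ℝ) 1, HasDerivAt (fun t : ℝ => -(Real.exp (-(c * t)) / c)) (Real.exp (-(c * t))) t := by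
    intro t _
    have h2 : HasDerivAt (fun t : ℝ => -(c * t)) (-(c * 1)) t := ((hasDerivAt_id t).const_mul c).neg
    refine ((h2.exp.div_const c).neg).congr_deriv ?_
    field_simp
  have hcn : Continuous (fun t : ℝ => Real.exp (-(c * t))) := by fun_prop
  rw [intervalIntegral.integral_eq_sub_of_hasDerivAt hd (hcn.intervalIntegrable _ _)]
  have : 0 ≤ Real.exp (-(c * 1)) / c := by positivity
  simp only [mul_zero, neg_zero, Real.exp_zero]
  linarith

lemma int_exp_rev (lam : ℝ) (hl : 0 < lam) : ∫ t in (0:ℝ)..1, lam * Real.exp (-(lam * (1 - t) / 8)) ≤ 8 := by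
  have hd : ∀ t ∈ Set.uIcc (0:ℝ) 1, HasDerivAt (fun t : ℝ => 8 * Real.exp (-(lam * (1 - t) / 8)))
      (lam * Real.exp (-(lam * (1 - t) / 8))) t := by
    intro t _
    have h2 : HasDerivAt (fun t : ℝ => -(lam * (1 - t) / 8)) (-(lam * (-1) / 8)) t :=
      ((((hasDerivAt_id t).const_sub 1).const_mul lam).div_const 8).neg
    refine ((h2.exp.const_mul 8)).congr_deriv ?_
    field_simp
  have hcn : Continuous (fun t : ℝ => lam * Real.exp (-(lam * (1 - t) / 8))) := by fun_prop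
  rw [intervalIntegral.integral_eq_sub_of_hasDerivAt hd (hcn.intervalIntegrable _ _)]
  have : 0 ≤ 8 * Real.exp (-(lam * (1 - 0) / 8)) := by positivity
  have h3 : 8 * Real.exp (-(lam * (1 - 1) / 8)) = 8 := by norm_num
  linarith

lemma small_a {m : ℕ} (hm : 2 ≤ m) (a l : ℝ) (ha0 : 0 < a) (ha1 : a ≤ 1 / 2) (z w : Fin m → ℂ)
    (hder : derivative ((X - C (a:ℂ)) * ∏ j, (X - C (z j))) = C ((m:ℂ) + 1) * ∏ k, (X - C (w k)))
    (hz : ∀ j, ‖z j‖ ≤ 1) (hw : ∀ k, ‖w k‖ ≤ 1) (hwa : ∀ k, w k ≠ a)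
    (hF : derivative (X * ∏ j, (1 + C (((a:ℂ) - z j)⁻¹) * X)) = ∏ k, (1 + C (((a:ℂ) - w k)⁻¹) * X))
    (hv : ∀ j, ‖1 - (a:ℂ) * ((a:ℂ) - z j)⁻¹‖ ≤ ‖((a:ℂ) - z j)⁻¹‖)
    (hprod : ((m:ℝ) + 1) * ∏ j, ‖((a:ℂ) - z j)⁻¹‖ = ∏ k, ‖((a:ℂ) - w k)⁻¹‖)
    (hU : ∑ k, ‖((a:ℂ) - w k)⁻¹‖ ^ 2 ≤ m)
    (hl : Real.exp l = ((m:ℝ) + 1) / 4) (hl0 : 0 < l)
    (hlarge : Real.exp (-l) + 32 / l + 16 * Real.exp (-(l / 4)) < 1 / 2) : False := by
  have hm2 : (2:ℝ) ≤ m := by exact_mod_cast hm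
  have hm0 : (0:ℝ) < m := by linarith
  have ha2 : a ^ 2 ≤ 1 / 4 := by
    have := pow_le_pow_left₀ ha0.le ha1 2
    refine this.trans (by norm_num)
  have ha20 : 0 < a ^ 2 := by positivity
  set u : Fin m → ℂ := fun k => ((a:ℂ) - w k)⁻¹ with hu
  have hwne : ∀ k, (a:ℂ) - w k ≠ 0 := fun k => sub_ne_zero.mpr (hwa k).symm
  have huw : ∀ k, ‖(a:ℂ) - w k‖ * ‖u k‖ = 1 := by
    intro k; rw [hu, ← norm_mul, mul_inv_cancel₀ (hwne k), norm_one]
  set σ : Fin m → ℝ := fun k => (1 - ‖w k‖ ^ 2) * ‖u k‖ ^ 2 with hσ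
  have hσ0 : ∀ k, 0 ≤ σ k := by
    intro k
    have h1 : ‖w k‖ ^ 2 ≤ 1 := pow_le_one₀ (norm_nonneg _) (hw k)
    exact mul_nonneg (by linarith) (sq_nonneg _)
  -- relation
  have hrel : ∀ k, (‖1 - (starRingEnd ℂ) (w k) * a‖ * ‖u k‖) ^ 2 = 1 + (1 - a ^ 2) * σ k := by
    intro k
    have h1 : ‖1 - (starRingEnd ℂ) (w k) * a‖ ^ 2 = ‖(a:ℂ) - w k‖ ^ 2 + (1 - a ^ 2) * (1 - ‖w k‖ ^ 2) := by
      rw [Complex.sq_norm, Complex.sq_norm, Complex.sq_norm, Complex.normSq_apply, Complex.normSq_apply, Complex.normSq_apply]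
      simp
      ring
    rw [mul_pow, h1, add_mul, ← mul_pow, huw k, hσ]; ring
  have hsig : 2 * l ≤ ∑ k, σ k := by
    have h1 := outer_bound a ha0.le (by linarith) z w hz hw hder
    have h2 : ((m:ℝ) + 1) * (1 - a) ≤ 2 * ∏ k, (‖1 - (starRingEnd ℂ) (w k) * a‖ * ‖u k‖) := by
      rw [Finset.prod_mul_distrib]
      have h3 : (∏ k, ‖(a:ℂ) - w k‖) * ∏ k, ‖u k‖ = 1 := by
        rw [← Finset.prod_mul_distrib]; simp only [huw]; simp
      have h4 : 0 ≤ ∏ k, ‖u k‖ := Finset.prod_nonneg fun _ _ => norm_nonneg _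
      have h5 := mul_le_mul_of_nonneg_right h1 h4
      calc ((m:ℝ) + 1) * (1 - a) = ((m:ℝ) + 1) * (1 - a) * ((∏ k, ‖(a:ℂ) - w k‖) * ∏ k, ‖u k‖) := by rw [h3, mul_one]
        _ = ((m:ℝ) + 1) * (∏ k, ‖(a:ℂ) - w k‖) * (1 - a) * ∏ k, ‖u k‖ := by ring
        _ ≤ 2 * (∏ k, ‖1 - (starRingEnd ℂ) (w k) * a‖) * ∏ k, ‖u k‖ := h5
        _ = _ := by ring
    have h6 : Real.exp l ≤ ∏ k, (‖1 - (starRingEnd ℂ) (w k) * a‖ * ‖u k‖) := by
      rw [hl]
      have : ((m:ℝ) + 1) * (1 / 2) ≤ ((m:ℝ) + 1) * (1 - a) := mul_le_mul_of_nonneg_left (by linarith) (by positivity)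
      linarith
    have h7 : Real.exp (2 * l) ≤ Real.exp (∑ k, σ k) := by
      calc Real.exp (2 * l) = (Real.exp l) ^ 2 := by rw [← Real.exp_nat_mul]; norm_num
        _ ≤ (∏ k, (‖1 - (starRingEnd ℂ) (w k) * a‖ * ‖u k‖)) ^ 2 := pow_le_pow_left₀ (Real.exp_pos _).le h6 2
        _ = ∏ k, (1 + (1 - a ^ 2) * σ k) := by
            rw [← Finset.prod_pow]; exact Finset.prod_congr rfl fun k _ => hrel k
        _ ≤ ∏ k, Real.exp (σ k) := by
            apply Finset.prod_le_prod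
            · intro k _
              have := mul_nonneg (by linarith : 0 ≤ 1 - a ^ 2) (hσ0 k)
              linarith
            · intro k _
              have h8 := Real.add_one_le_exp (σ k)
              have h9 : (1 - a ^ 2) * σ k ≤ 1 * σ k := mul_le_mul_of_nonneg_right (by linarith) (hσ0 k)
              linarith
        _ = Real.exp (∑ k, σ k) := by rw [Real.exp_sum]
    exact Real.exp_le_exp.mp h7
  -- pointwise mean square
  set x : Fin m → ℂ := fun k => (a:ℂ) * u k with hx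
  have hre : ∀ k, 2 * a * (u k).re = 1 - (1 - a ^ 2) * ‖u k‖ ^ 2 + σ k := by
    intro k
    have h1 : ‖1 - (a:ℂ) * u k‖ ^ 2 = ‖u k‖ ^ 2 - σ k := by
      have h2 : 1 - (a:ℂ) * u k = -(w k * u k) := by
        rw [hu]; simp only
        have := hwne k
        field_simp; ring
      rw [h2, norm_neg, norm_mul, hσ]; ring
    rw [nsq] at h1
    linarith
  set lam : ℝ := a ^ 2 * m with hlam
  have hlam0 : 0 < lam := by positivity
  set cc : ℝ → ℝ := fun t => a ^ 2 * t * (1 - t) + 2 * t * l / m with hcc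
  have hms : ∀ t : ℝ, 0 ≤ t → t ≤ 1 → ∑ k, ‖1 - (t:ℂ) * x k‖ ^ 2 ≤ m * Real.exp (-(cc t)) := by
    intro t ht0 ht1
    have h1 : ∀ k, ‖1 - (t:ℂ) * x k‖ ^ 2 = (1 - t) + (t * (1 - a ^ 2) + t ^ 2 * a ^ 2) * ‖u k‖ ^ 2 - t * σ k := by
      intro k
      have h2 : (t:ℂ) * x k = ((t * a : ℝ) : ℂ) * u k := by rw [hx]; push_cast; ring
      rw [h2, nsq]
      have := hre k
      linear_combination (-t) * this
    rw [Finset.sum_congr rfl fun k _ => h1 k, Finset.sum_sub_distrib, Finset.sum_add_distrib, ← Finset.mul_sum, ← Finset.mul_sum]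
    simp only [Finset.sum_const, Finset.card_univ, Fintype.card_fin, nsmul_eq_mul]
    have h5 : 0 ≤ t * (1 - a ^ 2) + t ^ 2 * a ^ 2 := by
      have : 0 ≤ 1 - a ^ 2 := by linarith
      positivity
    have h6 := mul_le_mul_of_nonneg_left hU h5
    have h7 := mul_le_mul_of_nonneg_left hsig ht0
    have h8 : (m:ℝ) * (1 - cc t) ≤ m * Real.exp (-(cc t)) := by
      apply mul_le_mul_of_nonneg_left _ hm0.le
      have := Real.add_one_le_exp (-(cc t)); linarith
    have h9 : (m:ℝ) * (1 - cc t) = m * (1 - t) + (t * (1 - a ^ 2) + t ^ 2 * a ^ 2) * m - t * (2 * l) := by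
      rw [hcc]; field_simp; ring
    linarith
  have hid := ident_int x 1
  -- J
  have ha_ne : -(a:ℂ) ≠ 0 := by
    rw [neg_ne_zero]; exact_mod_cast ha0.ne'
  have hJ := integral_seg u (fun j => ((a:ℂ) - z j)⁻¹) hF (-(a:ℂ)) ha_ne
  set J : ℂ := ∫ t in (0:ℝ)..1, ∏ k, (1 - (t:ℂ) * x k) with hJdef
  have hJ' : J = ∏ j, (1 - (a:ℂ) * ((a:ℂ) - z j)⁻¹) := by
    rw [hJdef]
    have e1 : ∀ t : ℝ, ∏ k, (1 - (t:ℂ) * x k) = ∏ k, (1 + u k * (-(a:ℂ) * t)) := by
      intro t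
      refine Finset.prod_congr rfl fun k _ => ?_
      rw [hx]; ring
    simp only [e1]
    rw [hJ]
    refine Finset.prod_congr rfl fun k _ => by ring
  have hJn : ((m:ℝ) + 1) * ‖J‖ ≤ 1 := by
    have h1 : ‖J‖ ≤ ∏ j, ‖((a:ℂ) - z j)⁻¹‖ := by
      rw [hJ', norm_prod]
      exact Finset.prod_le_prod (fun j _ => norm_nonneg _) fun j _ => hv j
    calc ((m:ℝ) + 1) * ‖J‖ ≤ ((m:ℝ) + 1) * ∏ j, ‖((a:ℂ) - z j)⁻¹‖ := mul_le_mul_of_nonneg_left h1 (by positivity)
      _ = ∏ k, ‖u k‖ := hprod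
      _ ≤ 1 := prod_norm_le_one (by omega) u hU
  have hsumu : ∑ k, ‖u k‖ ≤ m := sum_le_of_sq u hU
  have hxJ : ‖(∑ k, x k) * J‖ ≤ 1 / 2 := by
    rw [norm_mul]
    have h1 : ‖∑ k, x k‖ ≤ a * m := by
      rw [hx, ← Finset.mul_sum, norm_mul, Complex.norm_real, Real.norm_eq_abs, abs_of_pos ha0]
      exact mul_le_mul_of_nonneg_left ((norm_sum_le _ _).trans hsumu) ha0.le
    have h2 : ‖∑ k, x k‖ * ‖J‖ ≤ (a * m) * ‖J‖ := mul_le_mul_of_nonneg_right h1 (norm_nonneg _)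
    have h3 : m * ‖J‖ ≤ 1 := by
      have : m * ‖J‖ ≤ ((m:ℝ) + 1) * ‖J‖ := mul_le_mul_of_nonneg_right (by linarith) (norm_nonneg _)
      linarith
    have h4 : (a * m) * ‖J‖ = a * (m * ‖J‖) := by ring
    have h5 := mul_le_mul_of_nonneg_left h3 ha0.le
    linarith
  have hf1 : ‖∏ k, (1 - ((1:ℝ):ℂ) * x k)‖ ≤ Real.exp (-l) := by
    rw [norm_prod]
    refine (full_bound (fun k => ‖1 - ((1:ℝ):ℂ) * x k‖) (fun k => norm_nonneg _) (cc 1) (hms 1 (by norm_num) le_rfl)).trans ?_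
    apply Real.exp_le_exp.mpr
    have : cc 1 * m / 2 = l := by rw [hcc]; field_simp; ring
    linarith
  have hxs : ∑ k, ‖x k‖ ^ 2 ≤ lam := by
    have h1 : ∀ k, ‖x k‖ ^ 2 = a ^ 2 * ‖u k‖ ^ 2 := by
      intro k; rw [hx]; simp only
      rw [norm_mul, Complex.norm_real, Real.norm_eq_abs, abs_of_pos ha0]; ring
    rw [Finset.sum_congr rfl fun k _ => h1 k, ← Finset.mul_sum]
    exact mul_le_mul_of_nonneg_left hU ha20.le
  have herr : ‖∫ t in (0:ℝ)..1, (t:ℂ) * ∑ k, (x k) ^ 2 * ∏ l ∈ Finset.univ.erase k, (1 - (t:ℂ) * x l)‖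
      ≤ 32 / l + 16 * Real.exp (-(l / 4)) := by
    have hb : ∀ t ∈ Set.Ioc (0:ℝ) 1, ‖(t:ℂ) * ∑ k, (x k) ^ 2 * ∏ l ∈ Finset.univ.erase k, (1 - (t:ℂ) * x l)‖
        ≤ 16 * Real.exp (-(l / 2 * t)) + 2 * Real.exp (-(l / 4)) * (lam * Real.exp (-(lam * (1 - t) / 8))) := by
      intro t ht
      have ht0 := ht.1.le
      have ht1 := ht.2
      rw [norm_mul, Complex.norm_real, Real.norm_eq_abs, abs_of_pos ht.1]
      have hE : ∀ k, ∏ l ∈ Finset.univ.erase k, ‖1 - (t:ℂ) * x l‖ ≤ 2 * Real.exp (-(t * l / 2 + lam * t * (1 - t) / 4)) := by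
        intro k
        refine (erase_bound (by omega) (fun k => ‖1 - (t:ℂ) * x k‖) (fun k => norm_nonneg _) (cc t) (hms t ht0 ht1) k).trans ?_
        apply mul_le_mul_of_nonneg_left _ (by norm_num)
        apply Real.exp_le_exp.mpr
        have h1 : cc t * m = lam * t * (1 - t) + 2 * t * l := by rw [hcc, hlam]; field_simp
        have h2 : 0 ≤ cc t := by
          rw [hcc]; simp only
          have : 0 ≤ 1 - t := by linarith
          positivity
        have h3 : cc t * m / 2 ≤ cc t * (m - 1) := by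
          have : m / 2 ≤ (m:ℝ) - 1 := by linarith
          have := mul_le_mul_of_nonneg_left this h2
          linarith
        linarith
      have h1 : ‖∑ k, (x k) ^ 2 * ∏ l ∈ Finset.univ.erase k, (1 - (t:ℂ) * x l)‖
          ≤ lam * (2 * Real.exp (-(t * l / 2 + lam * t * (1 - t) / 4))) := by
        refine (norm_sum_le _ _).trans ?_
        have h2 : ∀ k, ‖(x k) ^ 2 * ∏ l ∈ Finset.univ.erase k, (1 - (t:ℂ) * x l)‖
            ≤ ‖x k‖ ^ 2 * (2 * Real.exp (-(t * l / 2 + lam * t * (1 - t) / 4))) := by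
          intro k
          rw [norm_mul, norm_pow, norm_prod]
          exact mul_le_mul_of_nonneg_left (hE k) (by positivity)
        refine (Finset.sum_le_sum fun k _ => h2 k).trans ?_
        rw [← Finset.sum_mul]
        exact mul_le_mul_of_nonneg_right hxs (by positivity)
      refine (mul_le_mul_of_nonneg_left h1 ht0).trans ?_
      rcases le_or_gt t (1/2) with hth | hth
      · have h3 : t * (lam * (2 * Real.exp (-(t * l / 2 + lam * t * (1 - t) / 4))))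
            ≤ 16 * ((lam * t / 8) * Real.exp (-(lam * t / 8))) * Real.exp (-(l / 2 * t)) := by
          have h4 : Real.exp (-(t * l / 2 + lam * t * (1 - t) / 4)) ≤ Real.exp (-(lam * t / 8)) * Real.exp (-(l / 2 * t)) := by
            rw [← Real.exp_add]
            apply Real.exp_le_exp.mpr
            have : 0 ≤ lam * t * (1 / 2 - t) := by
              have : 0 ≤ 1 / 2 - t := by linarith
              positivity
            linarith
          have h5 := mul_le_mul_of_nonneg_left h4 (by positivity : 0 ≤ 2 * (lam * t))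
          linarith
        have h6 := mul_le_mul_of_nonneg_right (x_exp_le (lam * t / 8)) (Real.exp_pos (-(l / 2 * t))).le
        have h7 : 0 ≤ 2 * Real.exp (-(l / 4)) * (lam * Real.exp (-(lam * (1 - t) / 8))) := by positivity
        linarith
      · have h4 : Real.exp (-(t * l / 2 + lam * t * (1 - t) / 4)) ≤ Real.exp (-(l / 4)) * Real.exp (-(lam * (1 - t) / 8)) := by
          rw [← Real.exp_add]
          apply Real.exp_le_exp.mpr
          have h8 : 0 ≤ (t - 1 / 2) * l := mul_nonneg (by linarith) hl0.le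
          have h9 : 0 ≤ lam * (1 - t) * (t - 1 / 2) := mul_nonneg (mul_nonneg hlam0.le (by linarith)) (by linarith)
          linarith
        have h5 : t * (lam * (2 * Real.exp (-(t * l / 2 + lam * t * (1 - t) / 4))))
            ≤ 1 * (lam * (2 * (Real.exp (-(l / 4)) * Real.exp (-(lam * (1 - t) / 8))))) := by
          apply mul_le_mul ht1 _ (by positivity) (by norm_num)
          apply mul_le_mul_of_nonneg_left _ hlam0.le
          apply mul_le_mul_of_nonneg_left h4 (by norm_num)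
        have h7 : 0 ≤ 16 * Real.exp (-(l / 2 * t)) := by positivity
        linarith
    have hc1 : Continuous (fun t : ℝ => 16 * Real.exp (-(l / 2 * t))) := by fun_prop
    have hc2 : Continuous (fun t : ℝ => 2 * Real.exp (-(l / 4)) * (lam * Real.exp (-(lam * (1 - t) / 8)))) := by fun_prop
    have hI := intervalIntegral.norm_integral_le_of_norm_le (μ := MeasureTheory.volume) (zero_le_one)
      (Filter.Eventually.of_forall hb) ((hc1.add hc2).intervalIntegrable _ _)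
    refine hI.trans ?_
    have hadd := intervalIntegral.integral_add (μ := MeasureTheory.volume) (hc1.intervalIntegrable 0 1) (hc2.intervalIntegrable 0 1)
    rw [hadd, intervalIntegral.integral_const_mul, intervalIntegral.integral_const_mul]
    have i1 := int_exp (l / 2) (by positivity)
    have i2 := int_exp_rev lam hlam0
    have i3 := mul_le_mul_of_nonneg_left i1 (by norm_num : (0:ℝ) ≤ 16)
    have i4 := mul_le_mul_of_nonneg_left i2 (by positivity : 0 ≤ 2 * Real.exp (-(l / 4)))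
    have i5 : 16 * (1 / (l / 2)) = 32 / l := by field_simp; norm_num
    linarith
  have h2 : (1:ℂ) = ∏ k, (1 - ((1:ℝ):ℂ) * x k) + ((∑ k, x k) * J) +
      (∫ t in (0:ℝ)..1, (t:ℂ) * ∑ k, (x k) ^ 2 * ∏ l ∈ Finset.univ.erase k, (1 - (t:ℂ) * x l)) := by
    linear_combination hid
  have h3 := congrArg norm h2
  rw [norm_one] at h3
  have h4 := norm_add₃_le (a := ∏ k, (1 - ((1:ℝ):ℂ) * x k)) (b := (∑ k, x k) * J)
    (c := ∫ t in (0:ℝ)..1, (t:ℂ) * ∑ k, (x k) ^ 2 * ∏ l ∈ Finset.univ.erase k, (1 - (t:ℂ) * x l))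
  rw [← h3] at h4
  linarith

end Pool.H363R3.SM2
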