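import Mathlib
import Pool.Agent.H363R3.SM2n
import Pool.Agent.H363R3.SM2q

set_option autoImplicit false
set_option maxHeartbeats 4000000
open Polynomial Filter Topology

namespace Pool.H363R3.SM2

lemma ev_small : ∃ N : ℕ, ∀ m : ℕ, N ≤ m → 2 ≤ m ∧ ∃ l : ℝ, 0 < l ∧ Real.exp l = ((m:ℝ) + 1) / 4 ∧
    Real.exp (-l) + 32 / l + 16 * Real.exp (-(l / 4)) < 1 / 2 := by
  have h0 : Tendsto (fun m : ℕ => ((m:ℝ) + 1) / 4) atTop atTop := by
    have : Tendsto (fun m : ℕ => (m:ℝ) + 1) atTop atTop := by exact_mod_cast tendsto_shift 1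
    exact this.atTop_div_const (by norm_num)
  have h1 : Tendsto (fun m : ℕ => Real.log (((m:ℝ) + 1) / 4)) atTop atTop := Real.tendsto_log_atTop.comp h0
  have h2 : Tendsto (fun l : ℝ => Real.exp (-l) + 32 / l + 16 * Real.exp (-(l / 4))) atTop (𝓝 0) := by
    have a1 : Tendsto (fun l : ℝ => Real.exp (-l)) atTop (𝓝 0) := Real.tendsto_exp_neg_atTop_nhds_zero
    have a2 : Tendsto (fun l : ℝ => 32 / l) atTop (𝓝 0) := tendsto_id.const_div_atTop 32
    have a3 : Tendsto (fun l : ℝ => Real.exp (-(l / 4))) atTop (𝓝 0) :=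
      Real.tendsto_exp_neg_atTop_nhds_zero.comp (tendsto_id.atTop_div_const (by norm_num))
    have := (a1.add a2).add (a3.const_mul 16)
    simpa using this
  have h3 := h2.comp h1
  have h4 := h3.eventually_lt_const (by norm_num : (0:ℝ) < 1 / 2)
  have h5 := h1.eventually_gt_atTop 0
  obtain ⟨N, hN⟩ := eventually_atTop.mp (h4.and (h5.and (eventually_ge_atTop 2)))
  refine ⟨N, fun m hm => ?_⟩
  obtain ⟨g1, g2, g3⟩ := hN m hm
  refine ⟨g3, Real.log (((m:ℝ) + 1) / 4), g2, ?_, g1⟩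
  exact Real.exp_log (by positivity)

theorem all_large : ∃ N : ℕ, ∀ m : ℕ, N ≤ m → ∀ a : ℝ, 0 ≤ a → a ≤ 1 →
    ∀ z : Fin m → ℂ, (∀ j, ‖z j‖ ≤ 1) →
      ((a : ℂ) ∈ (derivative ((X - C (a : ℂ)) * ∏ j, (X - C (z j)))).roots) ∨
      (m : ℝ) ≤ (((derivative ((X - C (a : ℂ)) * ∏ j, (X - C (z j)))).roots).map
          (fun w : ℂ => (‖w - (a : ℂ)‖ ^ 2)⁻¹)).sum := by
  obtain ⟨N1, hN1⟩ := large_degree (1 / 2) (by norm_num)
  obtain ⟨N2, hN2⟩ := ev_small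
  refine ⟨max N1 N2, ?_⟩
  intro m hm a ha0 ha1 z hz
  have hm1 : N1 ≤ m := (le_max_left _ _).trans hm
  have hm2 : N2 ≤ m := (le_max_right _ _).trans hm
  rcases le_or_gt (1 / 2) a with hhalf | hhalf
  · exact hN1 m hm1 a hhalf ha1 z hz
  obtain ⟨hmt, l, hl0, hl, hlarge⟩ := hN2 m hm2
  obtain ⟨hmon, hdeg⟩ := monic_p (a:ℂ) z
  obtain ⟨w, hder, hroots⟩ := exists_crit m _ hmon hdeg
  by_cases hmem : (a : ℂ) ∈ (derivative ((X - C (a : ℂ)) * ∏ j, (X - C (z j)))).roots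
  · exact Or.inl hmem
  right
  have hw : ∀ k, w k ≠ a := by
    intro k h
    apply hmem
    rw [hroots, Multiset.mem_map]
    exact ⟨k, Finset.mem_univ_val k, h⟩
  obtain ⟨hne, hF, hprod⟩ := reduction (a:ℂ) z w hder hw
  have han : ‖(a:ℂ)‖ ≤ 1 := by rw [Complex.norm_real, Real.norm_eq_abs, abs_of_nonneg ha0]; exact ha1
  have hwn := crit_norm_le (a:ℂ) han z w hz hder
  have hv := hv_of_hz a z hz hne
  have esum : (Multiset.map ((fun w : ℂ => (‖w - (a : ℂ)‖ ^ 2)⁻¹) ∘ w) Finset.univ.val).sum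
      = ∑ k, ‖((a:ℂ) - w k)⁻¹‖ ^ 2 := by
    rw [Finset.sum]
    congr 1
    refine Multiset.map_congr rfl fun k _ => ?_
    simp only [Function.comp]
    rw [norm_inv, inv_pow, norm_sub_rev]
  rw [hroots, Multiset.map_map, esum]
  by_contra hcon
  push Not at hcon
  have hU := hcon.le
  rcases eq_or_lt_of_le ha0 with h0 | h0
  · have h1 : ∏ k, ‖((a:ℂ) - w k)⁻¹‖ ≤ 1 := prod_norm_le_one (by omega) _ hU
    have h2 : (1:ℝ) ≤ ∏ j, ‖((a:ℂ) - z j)⁻¹‖ := by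
      have : ∏ j : Fin m, (1:ℝ) ≤ ∏ j, ‖((a:ℂ) - z j)⁻¹‖ := by
        apply Finset.prod_le_prod (fun _ _ => zero_le_one)
        intro j _
        have := hv j
        rw [← h0] at this ⊢
        simpa using this
      simpa using this
    have h3 : (2:ℝ) ≤ m := by exact_mod_cast hmt
    have h4 : ((m:ℝ) + 1) * 1 ≤ ((m:ℝ) + 1) * ∏ j, ‖((a:ℂ) - z j)⁻¹‖ := mul_le_mul_of_nonneg_left h2 (by positivity)
    linarith
  · exact small_a hmt a l h0 hhalf.le z w hder hz hwn hw hF hv hprod hU hl hl0 hlarge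

end Pool.H363R3.SM2
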