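import Mathlib
import Pool.Agent.H363R3.SM2n
import Pool.Agent.H363R3.SM2r

set_option autoImplicit false
set_option maxHeartbeats 4000000
open Polynomial Filter Topology

namespace Pool.H363R3.SM2

lemma large_core (δ κ θ ν η : ℝ) (hδ0 : 0 < δ) (hδ1 : δ ≤ 1) (hκ : κ = δ ^ 2 / 4) (hθ : θ = δ * κ ^ 4 / 128)
    (hν : ν = θ ^ 2 / 2) (hη : η = δ * (δ ^ 2 / 192) ^ 2 / 30) (m : ℕ) (hm4 : 4 ≤ m)
    (hN1 : ∀ M : ℕ, m = M + 2 →
      (Real.exp (-(δ ^ 2 * ((M:ℝ) + 2) / 8)) + 128 / (δ ^ 4 * ((M:ℝ) + 2)) + 1 / ((M:ℝ) + 2) ^ 2 ≤ ν / 2) ∧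
      (1 / (κ ^ 3 * ((M:ℝ) + 1)) ≤ δ / 8) ∧ (1 / ((M:ℝ) + 2) ^ 4 ≤ ν) ∧
      ((1 - κ / 2) ^ (M + 3) + 1 / ((M:ℝ) + 2) ^ 4 + ((M:ℝ) + 3) / ((M:ℝ) + 2) ^ 3 < 1 / 100000 / ((M:ℝ) + 3)))
    (hl1 : Real.log m ≤ η * δ ^ 2 / 12 * m)
    (hl2 : Real.log m ≤ (δ ^ 2 / 256) ^ 2 * η ^ 2 / (12 * (1 + 4 / δ ^ 2)) * m)
    (hl3 : Real.exp (-(δ ^ 2 * m / 32)) + 12288 / (δ ^ 4 * m) < 1)
    (a : ℝ) (haδ : δ ≤ a) (ha1 : a ≤ 1) (z : Fin m → ℂ) (hz : ∀ j, ‖z j‖ ≤ 1) :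
      ((a : ℂ) ∈ (derivative ((X - C (a : ℂ)) * ∏ j, (X - C (z j)))).roots) ∨
      (m : ℝ) ≤ (((derivative ((X - C (a : ℂ)) * ∏ j, (X - C (z j)))).roots).map
          (fun w : ℂ => (‖w - (a : ℂ)‖ ^ 2)⁻¹)).sum := by
  have hδ2 : δ ^ 2 ≤ 1 := by
    have := pow_le_pow_left₀ hδ0.le hδ1 2; simpa using this
  have hκ0 : 0 < κ := by rw [hκ]; positivity
  have hκ1 : κ ≤ 1/4 := by rw [hκ]; linarith
  have hθ0 : 0 < θ := by rw [hθ]; positivity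
  have hθκ : θ ≤ κ / 2 := by
    have h1 : κ ^ 4 ≤ κ := by
      have : κ ^ 4 = κ * κ ^ 3 := by ring
      rw [this]
      have h2 : κ ^ 3 ≤ 1 := pow_le_one₀ hκ0.le (by linarith)
      have := mul_le_mul_of_nonneg_left h2 hκ0.le
      linarith
    have h3 : δ * κ ^ 4 ≤ 1 * κ := mul_le_mul hδ1 h1 (by positivity) (by norm_num)
    rw [hθ]; linarith
  have hν0 : 0 < ν := by rw [hν]; positivity
  have hν2 : √(2 * ν) = θ := by
    rw [hν, show 2 * (θ ^ 2 / 2) = θ ^ 2 by ring]; exact Real.sqrt_sq hθ0.le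
  have hη0 : 0 < η := by rw [hη]; positivity
  have ha0 : 0 < a := by linarith
  rcases lt_or_ge (1 - a) (1 / 100000 / ((m:ℝ) + 1)) with hnear | hfar
  · exact near_one m hm4 a (by
      have : 1 / 100000 / ((m:ℝ) + 1) = 1 / (100000 * ((m:ℝ) + 1)) := by field_simp
      rw [this] at hnear; linarith) ha1 z hz
  obtain ⟨hmon, hdeg⟩ := monic_p (a:ℂ) z
  obtain ⟨w, hder, hroots⟩ := exists_crit m _ hmon hdeg
  by_cases hmem : (a : ℂ) ∈ (derivative ((X - C (a : ℂ)) * ∏ j, (X - C (z j)))).roots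
  · exact Or.inl hmem
  right
  have hw : ∀ k, w k ≠ a := by
    intro k h
    apply hmem
    rw [hroots, Multiset.mem_map]
    exact ⟨k, Finset.mem_univ_val k, h⟩
  obtain ⟨hne, hF, hprod⟩ := reduction (a:ℂ) z w hder hw
  have han : ‖(a:ℂ)‖ ≤ 1 := by rw [Complex.norm_real, Real.norm_eq_abs, abs_of_pos ha0]; exact ha1
  have hwn := crit_norm_le (a:ℂ) han z w hz hder
  have hv := hv_of_hz a z hz hne
  have hu := hv_of_hz a w hwn hw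
  have esum : (Multiset.map ((fun w : ℂ => (‖w - (a : ℂ)‖ ^ 2)⁻¹) ∘ w) Finset.univ.val).sum
      = ∑ k, ‖((a:ℂ) - w k)⁻¹‖ ^ 2 := by
    rw [Finset.sum]
    congr 1
    refine Multiset.map_congr rfl fun k _ => ?_
    simp only [Function.comp]
    rw [norm_inv, inv_pow, norm_sub_rev]
  rw [hroots, Multiset.map_map, esum]
  by_contra hcon
  push Not at hcon
  have hU := hcon.le
  have hm0 : (0:ℝ) < m := by exact_mod_cast (by omega : 0 < m)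
  by_cases hnotD : ∀ t ∈ Set.Icc (1/2:ℝ) 1, ‖∏ k, (1 - (t:ℂ) * ((a:ℂ) * ((a:ℂ) - w k)⁻¹))‖ ≤ 1 / (m:ℝ) ^ 3
  · obtain ⟨M, rfl⟩ : ∃ M, m = M + 2 := ⟨m - 2, by omega⟩
    obtain ⟨g1, g2, g3, g4⟩ := hN1 M rfl
    have hc2 : ((M + 2 : ℕ) : ℝ) = (M:ℝ) + 2 := by push_cast; ring
    refine part2_core M a δ ν κ hδ0 hδ1 haδ ha1 hκ (fun k => ((a:ℂ) - w k)⁻¹) (fun j => ((a:ℂ) - z j)⁻¹) hF hv hu ?_ hU ?_
      g1 ?_ g3 ?_ g4 ?_
    · have := hprod; rw [hc2] at this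
      rw [show (M:ℝ) + 3 = (M:ℝ) + 2 + 1 by ring]; exact this
    · rw [hc2] at hnotD; exact hnotD
    · rw [hν2]
      have : 16 * θ / κ ^ 4 = δ / 8 := by rw [hθ]; field_simp; norm_num
      rw [this]; linarith
    · rw [hν]
      have := pow_le_pow_left₀ hθ0.le hθκ 2
      linarith
    · rw [hc2] at hfar
      rw [show (M:ℝ) + 3 = (M:ℝ) + 2 + 1 by ring]; exact hfar
  · push Not at hnotD
    obtain ⟨t0, ht0, hD⟩ := hnotD
    have hlog0 : 0 ≤ Real.log m := Real.log_nonneg (by exact_mod_cast (by omega : 1 ≤ m))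
    refine part3 (by omega) a δ η (3 * Real.log m) t0 hδ0 hδ1 haδ ha1 z w hder hz hw hne hF hu hU ht0.1 ht0.2
      (by positivity) ?_ hη0 ?_ ?_ ?_ hl3
    · refine le_trans (le_of_eq ?_) hD.le
      rw [Real.exp_neg, ← Real.log_rpow hm0, Real.exp_log (by positivity), one_div]
      congr 1
      exact_mod_cast Real.rpow_natCast (m:ℝ) 3
    · rw [hη]; linarith
    · rw [div_le_iff₀ (by positivity)]
      linarith
    · rw [div_le_iff₀ (by positivity)]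
      have hpos : 0 < 1 + 4 / δ ^ 2 := by positivity
      have h1 : Real.log m * (12 * (1 + 4 / δ ^ 2)) ≤ (δ ^ 2 / 256) ^ 2 * η ^ 2 * m := by
        have h2 := mul_le_mul_of_nonneg_right hl2 (by positivity : 0 ≤ 12 * (1 + 4 / δ ^ 2))
        have h3 : (δ ^ 2 / 256) ^ 2 * η ^ 2 / (12 * (1 + 4 / δ ^ 2)) * m * (12 * (1 + 4 / δ ^ 2))
          = (δ ^ 2 / 256) ^ 2 * η ^ 2 * m := by field_simp
        linarith
      linarith


end Pool.H363R3.SM2
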