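import Mathlib
import Pool.Agent.H363R3.SM2s

set_option autoImplicit false
set_option maxHeartbeats 4000000
open Polynomial

namespace Pool.H363R3.SM2

lemma exp_neg_le1 (y : ℝ) (hy : 0 < y) : Real.exp (-y) ≤ 1 / y := by
  rw [le_div_iff₀ hy, mul_comm]
  exact x_exp_le y

lemma exp_neg_le2 (y : ℝ) (hy : 0 < y) : Real.exp (-y) ≤ 4 / y ^ 2 := by
  have h := x_exp_le (y / 2)
  have h0 : 0 ≤ y / 2 * Real.exp (-(y / 2)) := by positivity
  have h1 : (y / 2 * Real.exp (-(y / 2))) ^ 2 ≤ 1 := pow_le_one₀ h0 h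
  have h2 : (y / 2 * Real.exp (-(y / 2))) ^ 2 = y ^ 2 / 4 * Real.exp (-y) := by
    rw [mul_pow, ← Real.exp_nat_mul]
    rw [show ((2:ℕ):ℝ) * -(y / 2) = -y by push_cast; ring]
    ring
  rw [h2] at h1
  rw [le_div_iff₀ (by positivity)]
  linarith

lemma inv_small (x c : ℝ) (hx : (10:ℝ) ^ 29 ≤ x) (hc : 0 ≤ c) : c / x ≤ c / 10 ^ 29 :=
  div_le_div_of_nonneg_left hc (by norm_num) hx

lemma cond1 (x : ℝ) (hx : (10:ℝ) ^ 29 ≤ x) :
    Real.exp (-((1/2:ℝ) ^ 2 * x / 8)) + 128 / ((1/2:ℝ) ^ 4 * x) + 1 / x ^ 2 ≤ (1 / 16777216) ^ 2 / 2 / 2 := by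
  have hx0 : 0 < x := lt_of_lt_of_le (by norm_num) hx
  have h1 : Real.exp (-((1/2:ℝ) ^ 2 * x / 8)) ≤ 32 / x := by
    refine (exp_neg_le1 _ (by positivity)).trans (le_of_eq ?_)
    field_simp; norm_num
  have h2 : 128 / ((1/2:ℝ) ^ 4 * x) = 2048 / x := by
    field_simp; norm_num
  have h3 : 1 / x ^ 2 ≤ 1 / x := by
    apply div_le_div_of_nonneg_left (by norm_num) hx0
    have h1x : 1 ≤ x := le_trans (by norm_num) hx
    calc x = x ^ 1 := (pow_one x).symm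
      _ ≤ x ^ 2 := pow_le_pow_right₀ h1x (by norm_num)
  have h4 := inv_small x 2081 hx (by norm_num)
  have h5 : 32 / x + 2048 / x + 1 / x = 2081 / x := by ring
  have h6 : (2081:ℝ) / 10 ^ 29 ≤ (1 / 16777216) ^ 2 / 2 / 2 := by norm_num
  rw [h2]
  linarith

lemma cond3 (M : ℕ) (x : ℝ) (hM : x = (M:ℝ) + 2) (hx : (10:ℝ) ^ 29 ≤ x) :
    (1 - (1/16:ℝ) / 2) ^ (M + 3) + 1 / x ^ 4 + (x + 1) / x ^ 3 < 1 / 100000 / (x + 1) := by
  have hx0 : 0 < x := lt_of_lt_of_le (by norm_num) hx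
  have h1x : 1 ≤ x := le_trans (by norm_num) hx
  have h1 : (1 - (1/16:ℝ) / 2) ^ (M + 3) ≤ 4096 / (x + 1) ^ 2 := by
    have a1 : (1 - (1/16:ℝ) / 2) ^ (M + 3) ≤ (Real.exp (-(1/32))) ^ (M + 3) := by
      apply pow_le_pow_left₀ (by norm_num)
      have := one_sub_le_exp (1/32)
      linarith
    rw [← Real.exp_nat_mul] at a1
    have a2 : ((M + 3 : ℕ) : ℝ) * -(1/32) = -((x + 1) / 32) := by
      rw [hM]; push_cast; ring
    rw [a2] at a1
    refine a1.trans ((exp_neg_le2 _ (by positivity)).trans (le_of_eq ?_))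
    field_simp; norm_num
  have h2 : 1 / x ^ 4 ≤ 1 / x ^ 2 := by
    apply div_le_div_of_nonneg_left (by norm_num) (by positivity)
    exact pow_le_pow_right₀ h1x (by norm_num)
  have h3 : (x + 1) / x ^ 3 ≤ 2 / x ^ 2 := by
    rw [div_le_div_iff₀ (by positivity) (by positivity)]
    have e : 2 * x ^ 3 - (x + 1) * x ^ 2 = x ^ 2 * (x - 1) := by ring
    have : 0 ≤ x ^ 2 * (x - 1) := by
      apply mul_nonneg (by positivity); linarith
    linarith
  have h4 : 4096 / (x + 1) ^ 2 ≤ 4096 / x ^ 2 := by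
    apply div_le_div_of_nonneg_left (by norm_num) (by positivity)
    exact pow_le_pow_left₀ hx0.le (by linarith) 2
  have h5 : 4096 / x ^ 2 + 1 / x ^ 2 + 2 / x ^ 2 = 4099 / x ^ 2 := by ring
  have h6 : 4099 / x ^ 2 < 1 / 100000 / (x + 1) := by
    rw [div_div, div_lt_div_iff₀ (by positivity) (by positivity)]
    have e : 4099 * (100000 * (x + 1)) ≤ 4099 * (100000 * (2 * x)) := by
      apply mul_le_mul_of_nonneg_left _ (by norm_num)
      apply mul_le_mul_of_nonneg_left _ (by norm_num)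
      linarith
    have e2 : (10:ℝ) ^ 29 * x ≤ x * x := mul_le_mul_of_nonneg_right hx hx0.le
    have e3 : 1 * x ^ 2 = x * x := by ring
    rw [e3]
    have e4 : 4099 * (100000 * (2 * x)) = 819800000 * x := by ring
    have e5 : 819800000 * x < (10:ℝ) ^ 29 * x := mul_lt_mul_of_pos_right (by norm_num) hx0
    linarith
  linarith

lemma log_bound (x : ℝ) (hx : (10:ℝ) ^ 29 ≤ x) : Real.log x ≤ 8 / 4200 ^ 7 * x := by
  have hx0 : 0 < x := lt_of_lt_of_le (by norm_num) hx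
  have h1 := Real.log_le_rpow_div hx0.le (by norm_num : (0:ℝ) < 1/8)
  obtain ⟨y, hy⟩ : ∃ y : ℝ, y = x ^ (1/8 : ℝ) := ⟨_, rfl⟩
  have hy0 : 0 < y := by rw [hy]; exact Real.rpow_pos_of_pos hx0 _
  have hy8 : y ^ 8 = x := by
    rw [hy, ← Real.rpow_natCast, ← Real.rpow_mul hx0.le]
    norm_num
  rw [← hy] at h1
  have h2 : 4200 ≤ y := by
    by_contra hcon
    push Not at hcon
    have := pow_lt_pow_left₀ hcon hy0.le (by norm_num : (8:ℕ) ≠ 0)
    rw [hy8] at this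
    have h3 : (4200:ℝ) ^ 8 < 10 ^ 29 := by norm_num
    linarith
  have h3 : (4200:ℝ) ^ 7 ≤ y ^ 7 := pow_le_pow_left₀ (by norm_num) h2 7
  have h4 : (4200:ℝ) ^ 7 * y ≤ y ^ 7 * y := mul_le_mul_of_nonneg_right h3 hy0.le
  have h5 : y ^ 7 * y = x := by rw [← hy8]; ring
  rw [h5] at h4
  have h6 : y / (1/8) = 8 * y := by ring
  rw [h6] at h1
  have h7 : 8 / 4200 ^ 7 * (4200 ^ 7 * y) ≤ 8 / 4200 ^ 7 * x := mul_le_mul_of_nonneg_left h4 (by norm_num)
  have h8 : 8 / 4200 ^ 7 * (4200 ^ 7 * y) = 8 * y := by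
    rw [← mul_assoc, div_mul_cancel₀]; norm_num
  linarith

theorem large_half (m : ℕ) (hm : 10 ^ 29 ≤ m) (a : ℝ) (haδ : 1 / 2 ≤ a) (ha1 : a ≤ 1) (z : Fin m → ℂ)
    (hz : ∀ j, ‖z j‖ ≤ 1) :
      ((a : ℂ) ∈ (derivative ((X - C (a : ℂ)) * ∏ j, (X - C (z j)))).roots) ∨
      (m : ℝ) ≤ (((derivative ((X - C (a : ℂ)) * ∏ j, (X - C (z j)))).roots).map
          (fun w : ℂ => (‖w - (a : ℂ)‖ ^ 2)⁻¹)).sum := by
  have hmx : (10:ℝ) ^ 29 ≤ m := by exact_mod_cast hm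
  have hm0 : (0:ℝ) < m := lt_of_lt_of_le (by norm_num) hmx
  have hlog := log_bound m hmx
  refine large_core (1/2) (1/16) (1/16777216) ((1/16777216) ^ 2 / 2) (1 / 35389440) (by norm_num) (by norm_num)
    (by norm_num) (by norm_num) rfl (by norm_num) m ?_ ?_ ?_ ?_ ?_ a haδ ha1 z hz
  · exact le_trans (by norm_num) hm
  · intro M hM
    have hx : (m:ℝ) = (M:ℝ) + 2 := by rw [hM]; push_cast; ring
    refine ⟨?_, ?_, ?_, ?_⟩
    · rw [← hx]; exact cond1 m hmx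
    · have h1 : (10:ℝ) ^ 28 ≤ (M:ℝ) + 1 := by
        have : (M:ℝ) + 1 = m - 1 := by rw [hx]; ring
        rw [this]
        have : (10:ℝ) ^ 28 + 1 ≤ 10 ^ 29 := by norm_num
        linarith
      rw [div_le_div_iff₀ (by positivity) (by norm_num)]
      have : (1/2:ℝ) * ((1/16) ^ 3 * ((M:ℝ) + 1)) = 1 / 8192 * ((M:ℝ) + 1) := by ring
      rw [this]
      have h2 : (1:ℝ) * 8 ≤ 1 / 8192 * 10 ^ 28 := by norm_num
      linarith
    · rw [← hx]
      have h1 : 1 / (m:ℝ) ^ 4 ≤ 1 / (10 ^ 29) ^ 4 :=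
        div_le_div_of_nonneg_left (by norm_num) (by norm_num) (pow_le_pow_left₀ (by norm_num) hmx 4)
      refine h1.trans (by norm_num)
    · have h1 := cond3 M m hx hmx
      rw [show (M:ℝ) + 3 = (M:ℝ) + 2 + 1 by ring, ← hx]
      exact h1
  · refine hlog.trans (mul_le_mul_of_nonneg_right (by norm_num) hm0.le)
  · refine hlog.trans (mul_le_mul_of_nonneg_right (by norm_num) hm0.le)
  · have h1 : Real.exp (-((1/2:ℝ) ^ 2 * m / 32)) ≤ 128 / m := by
      refine (exp_neg_le1 _ (by positivity)).trans (le_of_eq ?_)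
      field_simp; norm_num
    have h2 : 12288 / ((1/2:ℝ) ^ 4 * m) = 196608 / m := by
      field_simp; norm_num
    have h3 : 128 / (m:ℝ) + 196608 / m = 196736 / m := by ring
    have h4 := inv_small m 196736 hmx (by norm_num)
    have h5 : (196736:ℝ) / 10 ^ 29 < 1 := by norm_num
    rw [h2]; linarith

lemma small_cond (m : ℕ) (hm : 10 ^ 29 ≤ m) : ∃ l : ℝ, 0 < l ∧ Real.exp l = ((m:ℝ) + 1) / 4 ∧
    Real.exp (-l) + 32 / l + 16 * Real.exp (-(l / 4)) < 1 / 2 := by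
  have hmx : (10:ℝ) ^ 29 ≤ m := by exact_mod_cast hm
  have hpos : 0 < ((m:ℝ) + 1) / 4 := by positivity
  have h65 : Real.exp 65 ≤ ((m:ℝ) + 1) / 4 := by
    have h1 : Real.exp 65 = Real.exp 1 ^ 65 := by rw [← Real.exp_nat_mul]; norm_num
    have h2 : Real.exp 1 ^ 65 ≤ (2.7183:ℝ) ^ 65 := by
      apply pow_le_pow_left₀ (Real.exp_pos 1).le
      have := Real.exp_one_lt_d9
      linarith
    have h3 : (2.7183:ℝ) ^ 65 ≤ 10 ^ 29 / 4 := by norm_num
    rw [h1]; linarith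
  have hl : (65:ℝ) ≤ Real.log (((m:ℝ) + 1) / 4) := (Real.le_log_iff_exp_le hpos).mpr h65
  obtain ⟨l, hle⟩ : ∃ l : ℝ, l = Real.log (((m:ℝ) + 1) / 4) := ⟨_, rfl⟩
  rw [← hle] at hl
  refine ⟨l, by linarith, by rw [hle]; exact Real.exp_log hpos, ?_⟩
  have h1 : Real.exp (-(l / 4)) ≤ Real.exp (-16) := Real.exp_le_exp.mpr (by linarith)
  have h2 : Real.exp (-l) ≤ Real.exp (-16) := Real.exp_le_exp.mpr (by linarith)
  have h3 : Real.exp (-16) ≤ 1 / 1000000 := by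
    rw [Real.exp_neg, ← one_div]
    apply div_le_div_of_nonneg_left (by norm_num) (by norm_num)
    have e1 : Real.exp 16 = Real.exp 1 ^ 16 := by rw [← Real.exp_nat_mul]; norm_num
    rw [e1]
    have e2 : (2.7:ℝ) ^ 16 ≤ Real.exp 1 ^ 16 := by
      apply pow_le_pow_left₀ (by norm_num)
      have := Real.exp_one_gt_d9
      linarith
    have e3 : (1000000:ℝ) ≤ 2.7 ^ 16 := by norm_num
    linarith
  have h4 : 32 / l ≤ 32 / 65 := div_le_div_of_nonneg_left (by norm_num) (by norm_num) hl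
  have h5 : (32:ℝ) / 65 + 17 / 1000000 < 1 / 2 := by norm_num
  linarith

end Pool.H363R3.SM2
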