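import Mathlib
import Pool.Agent.H363R3.SM2t

set_option autoImplicit false
set_option maxHeartbeats 4000000
open Polynomial

namespace Pool.H363R3.SM2

/-- the order `-2` power mean inequality for all degrees `m + 1 > 10 ^ 29` -/
theorem explicit (m : ℕ) (hm : 10 ^ 29 ≤ m) (a : ℝ) (ha0 : 0 ≤ a) (ha1 : a ≤ 1) (z : Fin m → ℂ)
    (hz : ∀ j, ‖z j‖ ≤ 1) :
      ((a : ℂ) ∈ (derivative ((X - C (a : ℂ)) * ∏ j, (X - C (z j)))).roots) ∨
      (m : ℝ) ≤ (((derivative ((X - C (a : ℂ)) * ∏ j, (X - C (z j)))).roots).map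
          (fun w : ℂ => (‖w - (a : ℂ)‖ ^ 2)⁻¹)).sum := by
  rcases le_or_gt (1 / 2) a with hhalf | hhalf
  · exact large_half m hm a hhalf ha1 z hz
  have hmt : 2 ≤ m := le_trans (by norm_num) hm
  obtain ⟨l, hl0, hl, hlarge⟩ := small_cond m hm
  obtain ⟨hmon, hdeg⟩ := monic_p (a:ℂ) z
  obtain ⟨w, hder, hroots⟩ := exists_crit m _ hmon hdeg
  by_cases hmem : (a : ℂ) ∈ (derivative ((X - C (a : ℂ)) * ∏ j, (X - C (z j)))).roots
  · exact Or.inl hmem
  right
  have hw : ∀ k, w k ≠ a := by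
    intro k h
    apply hmem
    rw [hroots, Multiset.mem_map]
    exact ⟨k, Finset.mem_univ_val k, h⟩
  obtain ⟨hne, hF, hprod⟩ := reduction (a:ℂ) z w hder hw
  have han : ‖(a:ℂ)‖ ≤ 1 := by rw [Complex.norm_real, Real.norm_eq_abs, abs_of_nonneg ha0]; exact ha1
  have hwn := crit_norm_le (a:ℂ) han z w hz hder
  have hv := hv_of_hz a z hz hne
  have esum : (Multiset.map ((fun w : ℂ => (‖w - (a : ℂ)‖ ^ 2)⁻¹) ∘ w) Finset.univ.val).sum
      = ∑ k, ‖((a:ℂ) - w k)⁻¹‖ ^ 2 := by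
    rw [Finset.sum]
    congr 1
    refine Multiset.map_congr rfl fun k _ => ?_
    simp only [Function.comp]
    rw [norm_inv, inv_pow, norm_sub_rev]
  rw [hroots, Multiset.map_map, esum]
  by_contra hcon
  push Not at hcon
  have hU := hcon.le
  rcases eq_or_lt_of_le ha0 with h0 | h0
  · have h1 : ∏ k, ‖((a:ℂ) - w k)⁻¹‖ ≤ 1 := prod_norm_le_one (by omega) _ hU
    have h2 : (1:ℝ) ≤ ∏ j, ‖((a:ℂ) - z j)⁻¹‖ := by
      have : ∏ j : Fin m, (1:ℝ) ≤ ∏ j, ‖((a:ℂ) - z j)⁻¹‖ := by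
        apply Finset.prod_le_prod (fun _ _ => zero_le_one)
        intro j _
        have := hv j
        rw [← h0] at this ⊢
        simpa using this
      simpa using this
    have h3 : (2:ℝ) ≤ m := by exact_mod_cast hmt
    have h4 : ((m:ℝ) + 1) * 1 ≤ ((m:ℝ) + 1) * ∏ j, ‖((a:ℂ) - z j)⁻¹‖ := mul_le_mul_of_nonneg_left h2 (by positivity)
    linarith
  · exact small_a hmt a l h0 hhalf.le z w hder hz hwn hw hF hv hprod hU hl hl0 hlarge


lemma crit_of_sum {m : ℕ} (hm : 0 < m) (a : ℂ) (S : Multiset ℂ) (hcard : Multiset.card S ≤ m)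
    (h : a ∈ S ∨ (m : ℝ) ≤ (S.map (fun w : ℂ => (‖w - a‖ ^ 2)⁻¹)).sum) : ∃ w ∈ S, ‖a - w‖ ≤ 1 := by
  rcases h with h | h
  · exact ⟨a, h, by simp⟩
  · by_contra hcon
    push Not at hcon
    have h1 : ∀ x ∈ S.map (fun w : ℂ => (‖w - a‖ ^ 2)⁻¹), x ≤ 1 := by
      intro x hx
      rw [Multiset.mem_map] at hx
      obtain ⟨w, hw, rfl⟩ := hx
      have := hcon w hw
      rw [norm_sub_rev] at this
      apply inv_le_one_of_one_le₀
      exact one_le_pow₀ this.le
    rcases Multiset.empty_or_exists_mem S with h0 | ⟨w0, hw0⟩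
    · rw [h0] at h
      simp only [Multiset.map_zero, Multiset.sum_zero] at h
      have : (0:ℝ) < m := by exact_mod_cast hm
      linarith
    · obtain ⟨T, rfl⟩ := Multiset.exists_cons_of_mem hw0
      rw [Multiset.map_cons, Multiset.sum_cons] at h
      have h2 : (T.map (fun w : ℂ => (‖w - a‖ ^ 2)⁻¹)).sum ≤ Multiset.card T • (1:ℝ) := by
        have := Multiset.sum_le_card_nsmul (T.map (fun w : ℂ => (‖w - a‖ ^ 2)⁻¹)) (1:ℝ)
          (fun x hx => h1 x (by rw [Multiset.map_cons]; exact Multiset.mem_cons_of_mem hx))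
        rwa [Multiset.card_map] at this
      have h3 : (‖w0 - a‖ ^ 2)⁻¹ < 1 := by
        have := hcon w0 hw0
        rw [norm_sub_rev] at this
        apply inv_lt_one_of_one_lt₀
        exact one_lt_pow₀ this (by norm_num)
      rw [Multiset.card_cons] at hcard
      have h4 : ((Multiset.card T : ℕ) : ℝ) + 1 ≤ m := by exact_mod_cast hcard
      rw [nsmul_eq_mul, mul_one] at h2
      linarith

/-- rotation: from a real nonnegative distinguished zero to a general one -/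
lemma rotate {m : ℕ} (hm : 0 < m) (lam : Fin (m + 1) → ℂ) (hl : ∀ i, ‖lam i‖ ≤ 1) (i : Fin (m + 1))
    (H : ∀ z : Fin m → ℂ, (∀ j, ‖z j‖ ≤ 1) →
      (((‖lam i‖ : ℝ) : ℂ) ∈ (derivative ((X - C ((‖lam i‖ : ℝ) : ℂ)) * ∏ j, (X - C (z j)))).roots) ∨
      (m : ℝ) ≤ (((derivative ((X - C ((‖lam i‖ : ℝ) : ℂ)) * ∏ j, (X - C (z j)))).roots).map
          (fun w : ℂ => (‖w - ((‖lam i‖ : ℝ) : ℂ)‖ ^ 2)⁻¹)).sum) :
    ∃ μ ∈ (derivative (∏ j, (X - C (lam j)))).roots, ‖lam i - μ‖ ≤ 1 := by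
  obtain ⟨c, hc1, hca⟩ : ∃ c : ℂ, ‖c‖ = 1 ∧ lam i = c * ((‖lam i‖ : ℝ) : ℂ) := by
    by_cases h0 : lam i = 0
    · exact ⟨1, norm_one, by rw [h0]; simp⟩
    · have hn : ‖lam i‖ ≠ 0 := norm_ne_zero_iff.mpr h0
      refine ⟨lam i / ((‖lam i‖ : ℝ) : ℂ), ?_, ?_⟩
      · rw [norm_div, Complex.norm_real, norm_norm, div_self hn]
      · rw [div_mul_cancel₀]; exact_mod_cast hn
  have hc0 : c ≠ 0 := by
    intro h; rw [h, norm_zero] at hc1; norm_num at hc1
  obtain ⟨a, haa⟩ : ∃ a : ℂ, a = ((‖lam i‖ : ℝ) : ℂ) := ⟨_, rfl⟩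
  rw [← haa] at hca H
  have hz : ∀ j : Fin m, ‖c⁻¹ * lam (i.succAbove j)‖ ≤ 1 := by
    intro j; rw [norm_mul, norm_inv, hc1, inv_one, one_mul]; exact hl _
  have h1 := H (fun j => c⁻¹ * lam (i.succAbove j)) hz
  set q : ℂ[X] := (X - C a) * ∏ j : Fin m, (X - C (c⁻¹ * lam (i.succAbove j))) with hq
  obtain ⟨w, hw, hwa⟩ := crit_of_sum hm a (derivative q).roots (by
    refine (card_roots' _).trans ?_
    have hqm : q.natDegree = m + 1 := by
      rw [hq, natDegree_mul (X_sub_C_ne_zero _) (by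
        exact Finset.prod_ne_zero_iff.mpr fun j _ => X_sub_C_ne_zero _), natDegree_X_sub_C,
        natDegree_prod _ _ (fun j _ => X_sub_C_ne_zero _)]
      simp only [natDegree_X_sub_C, Finset.sum_const, Finset.card_univ, Fintype.card_fin, smul_eq_mul, mul_one]
      ring
    have := natDegree_derivative_le q
    omega) h1
  have hcomp : (∏ j, (X - C (lam j))).comp (C c * X) = C (c ^ (m + 1)) * q := by
    have e1 : ∀ x : ℂ, (X - C x).comp (C c * X) = C c * (X - C (c⁻¹ * x)) := by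
      intro x
      rw [sub_comp, X_comp, C_comp, mul_sub, ← C_mul, mul_inv_cancel_left₀ hc0]
    rw [Fin.prod_univ_succAbove _ i, mul_comp, prod_comp, e1, hca, inv_mul_cancel_left₀ hc0]
    simp only [e1]
    rw [Finset.prod_mul_distrib, Finset.prod_const, Finset.card_univ, Fintype.card_fin, hq, pow_succ, C_mul, C_pow]
    ring
  have hder : C c * (derivative (∏ j, (X - C (lam j)))).comp (C c * X) = C (c ^ (m + 1)) * derivative q := by
    have := congrArg derivative hcomp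
    rw [derivative_comp, derivative_C_mul, derivative_X, mul_one, derivative_C_mul] at this
    exact this
  have hev := congrArg (eval w) hder
  rw [eval_mul, eval_C, eval_comp, eval_mul, eval_C, eval_X, eval_mul, eval_C] at hev
  have hwr : eval w (derivative q) = 0 := (mem_roots'.mp hw).2
  rw [hwr, mul_zero] at hev
  have hroot : eval (c * w) (derivative (∏ j, (X - C (lam j)))) = 0 := by
    rcases mul_eq_zero.mp hev with h | h
    · exact absurd h hc0
    · exact h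
  refine ⟨c * w, ?_, ?_⟩
  · rw [mem_roots']
    refine ⟨?_, hroot⟩
    intro h0
    have h3 : (∏ j, (X - C (lam j))).natDegree = m + 1 := by
      rw [natDegree_prod _ _ (fun j _ => X_sub_C_ne_zero _)]
      simp only [natDegree_X_sub_C, Finset.sum_const, Finset.card_univ, Fintype.card_fin, smul_eq_mul, mul_one]
    have h4 := degree_derivative_eq (∏ j, (X - C (lam j))) (by omega)
    rw [h0, degree_zero] at h4
    exact absurd h4 (by simp)
  · rw [hca, ← mul_sub, norm_mul, hc1, one_mul]; exact hwa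

/-- Sendov's conjecture for all degrees `m + 1 > 10 ^ 29` -/
theorem sendov_explicit (m : ℕ) (hm : 10 ^ 29 ≤ m) (lam : Fin (m + 1) → ℂ) (hl : ∀ i, ‖lam i‖ ≤ 1)
    (i : Fin (m + 1)) : ∃ μ ∈ (derivative (∏ j, (X - C (lam j)))).roots, ‖lam i - μ‖ ≤ 1 :=
  rotate (lt_of_lt_of_le (by norm_num) hm) lam hl i fun z hz =>
    explicit m hm ‖lam i‖ (norm_nonneg _) (hl i) z hz

/-- Sendov's conjecture for zeros near the unit circle, all degrees `m + 1 ≥ 5` -/
theorem sendov_near (m : ℕ) (hm : 4 ≤ m) (lam : Fin (m + 1) → ℂ) (hl : ∀ i, ‖lam i‖ ≤ 1)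
    (i : Fin (m + 1)) (hi : 1 - 1 / (100000 * ((m:ℝ) + 1)) ≤ ‖lam i‖) :
    ∃ μ ∈ (derivative (∏ j, (X - C (lam j)))).roots, ‖lam i - μ‖ ≤ 1 :=
  rotate (by omega) lam hl i fun z hz => near_one m hm ‖lam i‖ hi (hl i) z hz

end Pool.H363R3.SM2
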